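import Pool.Agent.VOID.BfMom

/-! VOID/BrunV.  The Brun sieve with blocks `Bl 0, ..., Bl (I-1)` (pairwise disjoint finite sets of
primes), with level `r + i` in block `i`.

`psiV Bl r I m = ∏_{i<I} psiB (Bl i) (r + i) m`, period `QV Bl I = ∏_{i<I} ∏_{q ∈ Bl i} q`,
`PiV Bl I j = ∏_{i<I} ∏_{q ∈ Bl i} max 0 (1 - j / q)`, `V1 = PiV .. 1`.

`psiV_one`: if no prime of the blocks divides `m`, all `om` are `0`, `bf_zero`.
`brun_ss`: nonneg: `bf_nonneg`; rep: `Rep.prod` over `range I` (`Rep.dvd_mono`, `psiB_rep`);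
`one_le_W`: clear; `pi_zero`: `max 0 (1 - 0) = 1`; `pi_step`: factorwise
`max 0 (1 - (j+1)/q) ≤ (1 - 1/q) max 0 (1 - j/q)` (`(1-1/q)(1-j/q) ≥ 1 - (j+1)/q`, `q ≥ 2`);
`low`, `up`: `∏_{j∈T} psiV (n - a j)^{e j} = ∏_{i<I} (∏_{j∈T} psiB (Bl i) (r+i) (n - a j)^{e j})`,
functions with coprime periods `∏_{q∈Bl i} q` (`mean_prod` with `Q1 = 1`, `F = 1`, or `mean_mul` by
induction on `I`; periodicity from `psiB_rep`, `Rep.shift`, `Rep.per`); `blk_low`, `blk_up`; since
`2 T.card ≤ 2 K ≤ q`, `max 0 (1 - T.card/q) = 1 - T.card/q`; and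
`∏_i (1+eps_i)^{T.card} ≤ (∏_i (1 + eps_i))^K ≤ 2` by `hE`. -/

set_option autoImplicit false

open Finset Pool.Agent.RS

namespace Pool.Agent.VOID

variable {κ : Type} [DecidableEq κ] [Fintype κ]

/-- the small sieve -/
noncomputable def psiV (Bl : ℕ → Finset ℕ) (r I : ℕ) (m : ℤ) : ℝ :=
  ∏ i ∈ range I, psiB (Bl i) (r + i) m

/-- its period -/
def QV (Bl : ℕ → Finset ℕ) (I : ℕ) : ℕ := ∏ i ∈ range I, ∏ q ∈ Bl i, q

/-- the density of the event that `j` given shifts have no prime factor in the blocks -/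
noncomputable def PiV (Bl : ℕ → Finset ℕ) (I j : ℕ) : ℝ :=
  ∏ i ∈ range I, ∏ q ∈ Bl i, max 0 (1 - (j : ℝ) / q)

theorem psiV_one {Bl : ℕ → Finset ℕ} {r I : ℕ} {m : ℤ}
    (h : ∀ i < I, ∀ q ∈ Bl i, ¬ (q : ℤ) ∣ m) : psiV Bl r I m = 1 := by
  unfold psiV
  apply Finset.prod_eq_one
  intro i hi
  rw [Finset.mem_range] at hi
  have h0 : om (Bl i) m = 0 := by
    unfold om
    rw [Finset.card_eq_zero, Finset.filter_eq_empty_iff]
    intro q hq
    exact h i hi q hq
  unfold psiB
  rw [h0, bf_zero]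

private theorem brunv_factor {q : ℕ} (hq : 2 ≤ q) (j : ℕ) :
    max 0 (1 - ((j + 1 : ℕ) : ℝ) / q) ≤ max 0 (1 - ((1 : ℕ) : ℝ) / q) * max 0 (1 - (j : ℝ) / q) := by
  have hq' : (2 : ℝ) ≤ q := by exact_mod_cast hq
  have hq0 : (0 : ℝ) < q := by linarith
  apply max_le
  · exact mul_nonneg (le_max_left _ _) (le_max_left _ _)
  · have h1 : (0 : ℝ) ≤ 1 - ((1 : ℕ) : ℝ) / q := by
      rw [Nat.cast_one, sub_nonneg, div_le_one hq0]
      linarith
    rw [max_eq_right h1]
    rcases le_or_gt 0 (1 - (j : ℝ) / q) with h2 | h2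
    · rw [max_eq_right h2]
      have h3 : (1 - ((1 : ℕ) : ℝ) / q) * (1 - (j : ℝ) / q) - (1 - ((j + 1 : ℕ) : ℝ) / q) =
          (j : ℝ) / q ^ 2 := by
        push_cast
        field_simp
        ring
      have h4 : (0 : ℝ) ≤ (j : ℝ) / q ^ 2 := by positivity
      linarith
    · rw [max_eq_left h2.le, mul_zero]
      have h3 : (1 - ((j + 1 : ℕ) : ℝ) / q) = (1 - (j : ℝ) / q) - 1 / q := by
        push_cast
        ring
      have h4 : (0 : ℝ) ≤ 1 / q := by positivity
      linarith

theorem brun_ss {Bl : ℕ → Finset ℕ} {r I K : ℕ} (hB : ∀ i < I, ∀ q ∈ Bl i, q.Prime)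
    (hdisj : ∀ i < I, ∀ i' < I, i ≠ i' → Disjoint (Bl i) (Bl i')) {a : κ → ℤ}
    (hd : ∀ i < I, ∀ q ∈ Bl i, ∀ j j', j ≠ j' → ¬ (q : ℤ) ∣ a j - a j')
    (hK : ∀ i < I, ∀ q ∈ Bl i, 2 * K ≤ q)
    (hE : (∏ i ∈ range I, (1 + epsS (Bl i) (r + i))) ^ K ≤ 2) :
    SS (QV Bl I) (psiV Bl r I) (∏ i ∈ range I, (((Bl i).card : ℝ) + 1) ^ (2 * (r + i)))
      (PiV Bl I) (PiV Bl I 1) K a := by
  have hppos : ∀ i ∈ range I, 0 < ∏ q ∈ Bl i, q := by
    intro i hi
    rw [Finset.mem_range] at hi
    exact Finset.prod_pos (fun q hq => (hB i hi q hq).pos)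
  have hcop : ∀ i ∈ range I, ∀ i' ∈ range I, i ≠ i' →
      Nat.Coprime (∏ q ∈ Bl i, q) (∏ q ∈ Bl i', q) := by
    intro i hi i' hi' hne
    rw [Finset.mem_range] at hi hi'
    apply Nat.Coprime.prod_left
    intro q hq
    apply Nat.Coprime.prod_right
    intro q' hq'
    rw [Nat.coprime_primes (hB i hi q hq) (hB i' hi' q' hq')]
    intro h
    subst h
    exact Finset.disjoint_left.mp (hdisj i hi i' hi' hne) hq hq'
  have hper : ∀ (T : Finset κ) (e : κ → ℕ), ∀ i ∈ range I,
      Per (∏ q ∈ Bl i, q) (fun n => ∏ j ∈ T, psiB (Bl i) (r + i) (n - a j) ^ e j) := by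
    intro T e i hi
    rw [Finset.mem_range] at hi
    have hrep := psiB_rep (S := Bl i) (hB i hi) (r + i)
    exact (Rep.prod T (fun j n => psiB (Bl i) (r + i) (n - a j) ^ e j)
      (fun j => ((((Bl i).card : ℝ) + 1) ^ (2 * (r + i))) ^ e j)
      (fun j _ => (hrep.shift (a j)).pow (e j))).per
  have hmean : ∀ (T : Finset κ) (e : κ → ℕ),
      mean (QV Bl I) (fun n => ∏ j ∈ T, psiV Bl r I (n - a j) ^ e j) =
      ∏ i ∈ range I, mean (∏ q ∈ Bl i, q)
        (fun n => ∏ j ∈ T, psiB (Bl i) (r + i) (n - a j) ^ e j) := by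
    intro T e
    have h1 := mean_prod (Q1 := 1) (F := fun _ => (1 : ℝ)) (range I) (fun i => ∏ q ∈ Bl i, q)
      hppos hcop one_pos (fun i _ => Nat.coprime_one_left _) (fun n => rfl)
      (fun i n => ∏ j ∈ T, psiB (Bl i) (r + i) (n - a j) ^ e j) (hper T e)
    rw [mean_const one_pos, one_mul, one_mul] at h1
    rw [← h1]
    unfold QV
    congr 1
    funext n
    rw [one_mul, Finset.prod_comm]
    apply Finset.prod_congr rfl
    intro j _
    unfold psiV
    rw [Finset.prod_pow]
  have hfac : ∀ T : Finset κ, T.card ≤ K → ∀ i ∈ range I,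
      ∏ q ∈ Bl i, max 0 (1 - (T.card : ℝ) / q) = ∏ q ∈ Bl i, (1 - (T.card : ℝ) / q) := by
    intro T hT i hi
    rw [Finset.mem_range] at hi
    apply Finset.prod_congr rfl
    intro q hq
    apply max_eq_right
    have hq0 : (0 : ℝ) < q := by exact_mod_cast (hB i hi q hq).pos
    rw [sub_nonneg, div_le_one hq0]
    have h1 := hK i hi q hq
    have h2 : T.card ≤ q := by omega
    exact_mod_cast h2
  have hfacnn : ∀ T : Finset κ, T.card ≤ K → ∀ i ∈ range I,
      0 ≤ ∏ q ∈ Bl i, (1 - (T.card : ℝ) / q) := by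
    intro T hT i hi
    rw [← hfac T hT i hi]
    exact Finset.prod_nonneg (fun q _ => le_max_left _ _)
  refine ⟨?_, ?_, ?_, ?_, ?_, ?_, ?_, ?_, ?_, ?_⟩
  · intro n
    exact Finset.prod_nonneg (fun i _ => bf_nonneg _ _)
  · apply Rep.prod (range I) (fun i => psiB (Bl i) (r + i))
      (fun i => (((Bl i).card : ℝ) + 1) ^ (2 * (r + i)))
    intro i hi
    have hi' := Finset.mem_range.mp hi
    exact (psiB_rep (S := Bl i) (hB i hi') (r + i)).dvd_mono
      (Finset.dvd_prod_of_mem (fun i => ∏ q ∈ Bl i, q) hi)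
  · calc (1 : ℝ) = ∏ i ∈ range I, (1 : ℝ) := by rw [Finset.prod_const_one]
      _ ≤ ∏ i ∈ range I, (((Bl i).card : ℝ) + 1) ^ (2 * (r + i)) := by
        apply Finset.prod_le_prod
        · intro i _
          exact zero_le_one
        · intro i _
          apply one_le_pow₀
          have : (0 : ℝ) ≤ ((Bl i).card : ℝ) := Nat.cast_nonneg _
          linarith
  · unfold PiV
    apply Finset.prod_eq_one
    intro i _
    apply Finset.prod_eq_one
    intro q _
    rw [Nat.cast_zero, zero_div, sub_zero]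
    exact max_eq_right zero_le_one
  · intro j
    exact Finset.prod_nonneg (fun i _ => Finset.prod_nonneg (fun q _ => le_max_left _ _))
  · intro j
    unfold PiV
    rw [← Finset.prod_mul_distrib]
    apply Finset.prod_le_prod
    · intro i _
      exact Finset.prod_nonneg (fun q _ => le_max_left _ _)
    · intro i hi
      rw [Finset.mem_range] at hi
      rw [← Finset.prod_mul_distrib]
      apply Finset.prod_le_prod
      · intro q _
        exact le_max_left _ _
      · intro q hq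
        exact brunv_factor (hB i hi q hq).two_le j
  · exact Finset.prod_nonneg (fun i _ => Finset.prod_nonneg (fun q _ => le_max_left _ _))
  · unfold PiV
    apply Finset.prod_le_one
    · intro i _
      exact Finset.prod_nonneg (fun q _ => le_max_left _ _)
    · intro i _
      apply Finset.prod_le_one
      · intro q _
        exact le_max_left _ _
      · intro q _
        apply max_le zero_le_one
        have : (0 : ℝ) ≤ ((1 : ℕ) : ℝ) / q := by positivity
        linarith
  · intro T hT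
    rw [hmean T (fun _ => 2)]
    unfold PiV
    apply Finset.prod_le_prod
    · intro i _
      exact Finset.prod_nonneg (fun q _ => le_max_left _ _)
    · intro i hi
      rw [hfac T hT i hi]
      have hi' := Finset.mem_range.mp hi
      apply blk_low (hB i hi') (hd i hi') (r + i) T
      intro q hq
      have := hK i hi' q hq
      omega
  · intro T e hT he
    rw [hmean T e]
    have h1 : ∏ i ∈ range I, mean (∏ q ∈ Bl i, q)
        (fun n => ∏ j ∈ T, psiB (Bl i) (r + i) (n - a j) ^ e j) ≤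
        ∏ i ∈ range I, ((1 + epsS (Bl i) (r + i)) ^ T.card *
          ∏ q ∈ Bl i, (1 - (T.card : ℝ) / q)) := by
      apply Finset.prod_le_prod
      · intro i _
        apply mean_nonneg
        intro n
        exact Finset.prod_nonneg (fun j _ => pow_nonneg (bf_nonneg _ _) _)
      · intro i hi
        have hi' := Finset.mem_range.mp hi
        apply blk_up (hB i hi') (hd i hi') (r + i) T _ e he
        intro q hq
        have := hK i hi' q hq
        omega
    have hone : 1 ≤ ∏ i ∈ range I, (1 + epsS (Bl i) (r + i)) := by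
      calc (1 : ℝ) = ∏ i ∈ range I, (1 : ℝ) := by rw [Finset.prod_const_one]
        _ ≤ ∏ i ∈ range I, (1 + epsS (Bl i) (r + i)) := by
          apply Finset.prod_le_prod
          · intro i _
            exact zero_le_one
          · intro i _
            linarith [epsS_nonneg (Bl i) (r + i)]
    have h2 : ∏ i ∈ range I, ((1 + epsS (Bl i) (r + i)) ^ T.card *
          ∏ q ∈ Bl i, (1 - (T.card : ℝ) / q)) =
        (∏ i ∈ range I, (1 + epsS (Bl i) (r + i))) ^ T.card * PiV Bl I T.card := by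
      rw [Finset.prod_mul_distrib, Finset.prod_pow]
      congr 1
      unfold PiV
      apply Finset.prod_congr rfl
      intro i hi
      rw [hfac T hT i hi]
    have h3 : (∏ i ∈ range I, (1 + epsS (Bl i) (r + i))) ^ T.card ≤ 2 :=
      (pow_le_pow_right₀ hone hT).trans hE
    calc _ ≤ _ := h1
      _ = _ := h2
      _ ≤ 2 * PiV Bl I T.card := by
        apply mul_le_mul_of_nonneg_right h3
        exact Finset.prod_nonneg (fun i _ => Finset.prod_nonneg (fun q _ => le_max_left _ _))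

end Pool.Agent.VOID
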