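import Pool.Agent.RS.Prm

/-! VOID/BigP.  The large primes: those in `(2^m1, 2^s]` which do not divide a difference of two
elements of `B`; i.e. `prz (2^s) \ EB L m1 s B`.  Density of the complement (`eb_low`), lower bound for
`H1` (`big_H1`), product and square sum. -/

set_option autoImplicit false

open Finset Pool.Agent.RS

namespace Pool.Agent.VOID

/-- the primes which are not large or not good -/
noncomputable def EB (L m1 s : ℕ) (B : Finset ℤ) : Finset ℕ := excl L B (2 ^ s) ∪ prz (2 ^ m1)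

private theorem bigp_mem {z q : ℕ} : q ∈ prz z ↔ q ≤ z ∧ q.Prime := by
  unfold prz
  rw [Finset.mem_filter, Finset.mem_Icc]
  constructor
  · rintro ⟨⟨_, h2⟩, h3⟩
    exact ⟨h2, h3⟩
  · rintro ⟨h2, h3⟩
    exact ⟨⟨h3.pos, h2⟩, h3⟩

private theorem bigp_sub_le {s t : Finset ℕ} (h : s ⊆ t) {f : ℕ → ℝ} (h0 : ∀ q ∈ t, 0 ≤ f q)
    (h1 : ∀ q ∈ t, f q ≤ 1) : ∏ q ∈ t, f q ≤ ∏ q ∈ s, f q := by
  rw [← Finset.prod_sdiff h]
  have a1 : ∏ q ∈ t \ s, f q ≤ 1 := by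
    apply Finset.prod_le_one
    · intro q hq
      exact h0 q (Finset.mem_sdiff.1 hq).1
    · intro q hq
      exact h1 q (Finset.mem_sdiff.1 hq).1
  have a2 : 0 ≤ ∏ q ∈ s, f q := Finset.prod_nonneg fun q hq => h0 q (h hq)
  nlinarith

private theorem bigp_one_sub (s : Finset ℕ) (f : ℕ → ℝ) (h0 : ∀ q ∈ s, 0 ≤ f q)
    (h1 : ∀ q ∈ s, f q ≤ 1) : 1 - ∑ q ∈ s, f q ≤ ∏ q ∈ s, (1 - f q) := by
  induction s using Finset.induction_on with
  | empty => simp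
  | insert a s ha ih =>
    rw [Finset.sum_insert ha, Finset.prod_insert ha]
    have e1 := ih (fun q hq => h0 q (Finset.mem_insert_of_mem hq))
      (fun q hq => h1 q (Finset.mem_insert_of_mem hq))
    have e2 := h0 a (Finset.mem_insert_self a s)
    have e3 := h1 a (Finset.mem_insert_self a s)
    have e4 : 0 ≤ ∑ q ∈ s, f q := Finset.sum_nonneg fun q hq => h0 q (Finset.mem_insert_of_mem hq)
    have e5 : (1 - f a) * (1 - ∑ q ∈ s, f q) ≤ (1 - f a) * ∏ q ∈ s, (1 - f q) :=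
      mul_le_mul_of_nonneg_left e1 (by linarith)
    nlinarith [mul_nonneg e2 e4]

private theorem bigp_pf {n K : ℕ} (hn : n ≠ 0) (h : n ≤ 2 ^ K) : n.primeFactors.card ≤ K := by
  have h1 : 2 ^ n.primeFactors.card ≤ ∏ q ∈ n.primeFactors, q := by
    apply Finset.pow_card_le_prod
    intro q hq
    exact (Nat.prime_of_mem_primeFactors hq).two_le
  have h2 : ∏ q ∈ n.primeFactors, q ≤ n :=
    Nat.le_of_dvd (Nat.pos_of_ne_zero hn) (Nat.prod_primeFactors_dvd n)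
  have h3 := h1.trans (h2.trans h)
  exact (Nat.pow_le_pow_iff_right (by norm_num)).1 h3

open Classical in
private theorem bigp_card {L : ℕ} {B : Finset ℤ} (hB : ∀ b ∈ B, |b| ≤ 2 ^ L)
    (hk : B.card ≤ L) (z : ℕ) :
    ((prz z).filter (fun q : ℕ => ∃ b ∈ B, ∃ b' ∈ B, b ≠ b' ∧ (q : ℤ) ∣ b - b')).card
      ≤ L ^ 2 * (L + 1) := by
  have h1 : (prz z).filter (fun q : ℕ => ∃ b ∈ B, ∃ b' ∈ B, b ≠ b' ∧ (q : ℤ) ∣ b - b') ⊆
      ((B ×ˢ B).filter (fun p => p.1 ≠ p.2)).biUnion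
        (fun p => (p.1 - p.2).natAbs.primeFactors) := by
    intro q hq
    rw [Finset.mem_filter, bigp_mem] at hq
    obtain ⟨⟨_, hp⟩, b, hb, b', hb', hne, hdvd⟩ := hq
    rw [Finset.mem_biUnion]
    refine ⟨(b, b'), ?_, ?_⟩
    · rw [Finset.mem_filter, Finset.mem_product]
      exact ⟨⟨hb, hb'⟩, hne⟩
    · rw [Nat.mem_primeFactors]
      refine ⟨hp, Int.natCast_dvd.1 hdvd, ?_⟩
      rw [Int.natAbs_ne_zero]
      exact sub_ne_zero.2 hne
  refine (Finset.card_le_card h1).trans ?_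
  refine (Finset.card_biUnion_le_card_mul _ _ (L + 1) ?_).trans ?_
  · intro p hp
    rw [Finset.mem_filter, Finset.mem_product] at hp
    obtain ⟨⟨hb, hb'⟩, hne⟩ := hp
    apply bigp_pf
    · rw [Int.natAbs_ne_zero]
      exact sub_ne_zero.2 hne
    · have e1 : |p.1 - p.2| ≤ 2 ^ (L + 1) := by
        have := abs_sub p.1 p.2
        have e2 := hB _ hb
        have e3 := hB _ hb'
        have e4 : (2 : ℤ) ^ (L + 1) = 2 ^ L + 2 ^ L := by ring
        omega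
      have e5 : ((p.1 - p.2).natAbs : ℤ) ≤ ((2 ^ (L + 1) : ℕ) : ℤ) := by
        rw [Int.natCast_natAbs]
        push_cast
        exact e1
      exact_mod_cast e5
  · apply Nat.mul_le_mul_right
    refine (Finset.card_filter_le _ _).trans ?_
    rw [Finset.card_product]
    have := Nat.mul_le_mul hk hk
    rw [pow_two]
    exact this

private theorem bigp_recip {m1 : ℕ} (hm : 1 ≤ m1) (t : ℕ) :
    ∑ q ∈ Helper52.pr (2 ^ m1) (2 ^ (m1 + t)), 1 / (q : ℝ) ≤ 4 * (t : ℝ) / m1 := by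
  have hm0 : (0 : ℝ) < m1 := by exact_mod_cast hm
  induction t with
  | zero =>
    have h1 : Helper52.pr (2 ^ m1) (2 ^ (m1 + 0)) = ∅ := by
      ext q
      rw [Helper52.mem_pr, add_zero]
      constructor
      · rintro ⟨h1, h2, -⟩
        omega
      · intro h
        exact absurd h (Finset.notMem_empty q)
    rw [h1, Finset.sum_empty]
    simp
  | succ t ih =>
    have h1 : Helper52.pr (2 ^ m1) (2 ^ (m1 + (t + 1))) ⊆
        Helper52.pr (2 ^ m1) (2 ^ (m1 + t)) ∪ Helper52.pr (2 ^ (m1 + t)) (2 ^ (m1 + t + 1)) := by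
      intro q hq
      rw [Helper52.mem_pr] at hq
      rw [Finset.mem_union, Helper52.mem_pr, Helper52.mem_pr]
      by_cases h : q ≤ 2 ^ (m1 + t)
      · exact Or.inl ⟨hq.1, h, hq.2.2⟩
      · exact Or.inr ⟨by omega, hq.2.1, hq.2.2⟩
    have h2 : ∑ q ∈ Helper52.pr (2 ^ m1) (2 ^ (m1 + (t + 1))), 1 / (q : ℝ) ≤
        ∑ q ∈ Helper52.pr (2 ^ m1) (2 ^ (m1 + t)), 1 / (q : ℝ) +
        ∑ q ∈ Helper52.pr (2 ^ (m1 + t)) (2 ^ (m1 + t + 1)), 1 / (q : ℝ) := by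
      refine (Finset.sum_le_sum_of_subset_of_nonneg h1 fun q _ _ => by positivity).trans ?_
      rw [← Finset.sum_union_inter]
      exact le_add_of_nonneg_right (Finset.sum_nonneg fun q _ => by positivity)
    have h3 := Helper52.recip_dyadic (i := m1 + t) (by omega)
    have h4 : (4 : ℝ) / ((m1 + t : ℕ) : ℝ) ≤ 4 / m1 := by
      apply div_le_div_of_nonneg_left (by norm_num) hm0
      push_cast
      linarith [Nat.cast_nonneg (α := ℝ) t]
    have h5 : 4 * ((t + 1 : ℕ) : ℝ) / m1 = 4 * (t : ℝ) / m1 + 4 / m1 := by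
      push_cast
      ring
    rw [h5]
    linarith

theorem eb_sub {L m1 s : ℕ} (hs : m1 ≤ s) (B : Finset ℤ) : EB L m1 s B ⊆ prz (2 ^ s) := by
  refine Finset.union_subset ?_ fun q hq => ?_
  · unfold excl
    exact Finset.filter_subset _ _
  · rw [bigp_mem] at hq ⊢
    exact ⟨hq.1.trans (Nat.pow_le_pow_right (by norm_num) hs), hq.2⟩

theorem big_mem {L m1 s : ℕ} {B : Finset ℤ} {q : ℕ} (h : q ∈ prz (2 ^ s) \ EB L m1 s B) :
    q.Prime ∧ 2 ^ m1 < q ∧ q ≤ 2 ^ s ∧ L ^ 6 < q ∧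
      (∀ b ∈ B, ∀ b' ∈ B, b ≠ b' → ¬ (q : ℤ) ∣ b - b') := by
  classical
  rw [Finset.mem_sdiff, EB, Finset.mem_union, not_or] at h
  obtain ⟨h1, h2, h3⟩ := h
  have h1' := bigp_mem.1 h1
  rw [bigp_mem, not_and_or] at h3
  unfold excl at h2
  rw [Finset.mem_filter, not_and_or, not_or] at h2
  have h4 := h2.resolve_left (not_not_intro h1)
  refine ⟨h1'.2, ?_, h1'.1, not_le.1 h4.1, ?_⟩
  · exact not_le.1 (h3.resolve_right (not_not_intro h1'.2))
  · intro b hb b' hb' hne hdvd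
    exact h4.2 ⟨b, hb, b', hb', hne, hdvd⟩

theorem eb_low {L m1 s : ℕ} (hL : 4 ≤ L) (hm : 1 ≤ m1) (hms : m1 ≤ s) (hLm : L ^ 6 ≤ 2 ^ m1)
    {B : Finset ℤ} (hB : ∀ b ∈ B, |b| ≤ 2 ^ L) (hk : B.card ≤ L) :
    Real.exp (-9) / (2 * (m1 : ℝ)) ≤ ∏ q ∈ EB L m1 s B, (1 - 1 / (q : ℝ)) := by
  classical
  have hLr : (4 : ℝ) ≤ L := by exact_mod_cast hL
  have hmr : (0 : ℝ) < m1 := by exact_mod_cast hm
  set E2 := (prz (2 ^ s)).filter
    (fun q : ℕ => L ^ 6 < q ∧ ∃ b ∈ B, ∃ b' ∈ B, b ≠ b' ∧ (q : ℤ) ∣ b - b') with hE2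
  set P := Helper52.pr 0 (2 ^ m1) with hP
  have hfac : ∀ q : ℕ, q.Prime → 0 ≤ 1 / (q : ℝ) ∧ 1 / (q : ℝ) ≤ 1 := by
    intro q hq
    have h1 : (1 : ℝ) ≤ q := by exact_mod_cast hq.one_lt.le
    refine ⟨by positivity, ?_⟩
    rw [div_le_one (by linarith)]
    exact h1
  have hsub : EB L m1 s B ⊆ P ∪ E2 := by
    intro q hq
    rw [Finset.mem_union, hE2, Finset.mem_filter, hP, Helper52.mem_pr]
    rcases Finset.mem_union.1 hq with hq | hq
    · unfold excl at hq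
      rw [Finset.mem_filter] at hq
      have hq1 := bigp_mem.1 hq.1
      by_cases h : q ≤ L ^ 6
      · exact Or.inl ⟨hq1.2.pos, h.trans hLm, hq1.2⟩
      · rcases hq.2 with h' | h'
        · exact absurd h' h
        · exact Or.inr ⟨hq.1, by omega, h'⟩
    · have hq1 := bigp_mem.1 hq
      exact Or.inl ⟨hq1.2.pos, hq1.1, hq1.2⟩
  have hpr : ∀ q ∈ P ∪ E2, q.Prime := by
    intro q hq
    rw [Finset.mem_union, hE2, Finset.mem_filter, hP, Helper52.mem_pr, bigp_mem] at hq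
    rcases hq with h | h
    · exact h.2.2
    · exact h.1.2
  have h1 : ∏ q ∈ P ∪ E2, (1 - 1 / (q : ℝ)) ≤ ∏ q ∈ EB L m1 s B, (1 - 1 / (q : ℝ)) := by
    apply bigp_sub_le hsub
    · intro q hq
      have := hfac q (hpr q hq)
      linarith [this.2]
    · intro q hq
      have := hfac q (hpr q hq)
      linarith [this.1]
  refine le_trans ?_ h1
  have h2 : (∏ q ∈ P, (1 - 1 / (q : ℝ))) * ∏ q ∈ E2, (1 - 1 / (q : ℝ)) ≤
      ∏ q ∈ P ∪ E2, (1 - 1 / (q : ℝ)) := by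
    rw [← Finset.prod_union_inter]
    have h3 : ∏ q ∈ P ∩ E2, (1 - 1 / (q : ℝ)) ≤ 1 := by
      apply Finset.prod_le_one
      · intro q hq
        have := hfac q (hpr q (Finset.mem_union_left _ (Finset.mem_inter.1 hq).1))
        linarith [this.2]
      · intro q hq
        have := hfac q (hpr q (Finset.mem_union_left _ (Finset.mem_inter.1 hq).1))
        linarith [this.1]
    have h4 : 0 ≤ ∏ q ∈ P ∪ E2, (1 - 1 / (q : ℝ)) := by
      apply Finset.prod_nonneg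
      intro q hq
      have := hfac q (hpr q hq)
      linarith [this.2]
    nlinarith
  refine le_trans ?_ h2
  have h5 := Helper52.prod_lower (a := m1) hm
  have h6 : (1 : ℝ) / 2 ≤ ∏ q ∈ E2, (1 - 1 / (q : ℝ)) := by
    have a1 := bigp_one_sub E2 (fun q => 1 / (q : ℝ))
      (fun q hq => (hfac q (hpr q (Finset.mem_union_right _ hq))).1)
      (fun q hq => (hfac q (hpr q (Finset.mem_union_right _ hq))).2)
    refine le_trans ?_ a1
    have a2 : ∑ q ∈ E2, 1 / (q : ℝ) ≤ ∑ _q ∈ E2, 1 / (L : ℝ) ^ 6 := by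
      apply Finset.sum_le_sum
      intro q hq
      rw [hE2, Finset.mem_filter] at hq
      apply one_div_le_one_div_of_le (by positivity)
      exact_mod_cast hq.2.1.le
    have a3 : (E2.card : ℝ) ≤ (L : ℝ) ^ 2 * (L + 1) := by
      have b1 : E2.card ≤ L ^ 2 * (L + 1) := by
        refine le_trans (Finset.card_le_card ?_) (bigp_card hB hk (2 ^ s))
        intro q hq
        rw [hE2, Finset.mem_filter] at hq
        rw [Finset.mem_filter]
        exact ⟨hq.1, hq.2.2⟩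
      exact_mod_cast b1
    rw [Finset.sum_const, nsmul_eq_mul] at a2
    have a4 : (E2.card : ℝ) * (1 / (L : ℝ) ^ 6) ≤ (L : ℝ) ^ 2 * (L + 1) * (1 / (L : ℝ) ^ 6) :=
      mul_le_mul_of_nonneg_right a3 (by positivity)
    have a5 : (L : ℝ) ^ 2 * (L + 1) * (1 / (L : ℝ) ^ 6) ≤ 1 / 2 := by
      rw [mul_one_div, div_le_div_iff₀ (by positivity) (by norm_num)]
      have c1 : (64 : ℝ) ≤ (L : ℝ) ^ 3 := by
        have := pow_le_pow_left₀ (by norm_num) hLr 3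
        linarith
      have c2 : (L : ℝ) ^ 2 * (L + 1) * 2 ≤ 4 * (L : ℝ) ^ 3 := by
        nlinarith [sq_nonneg (L : ℝ)]
      have c3 : (L : ℝ) ^ 6 = (L : ℝ) ^ 3 * (L : ℝ) ^ 3 := by ring
      rw [c3]
      nlinarith
    linarith
  have h8 : Real.exp (-9) / (2 * (m1 : ℝ)) = Real.exp (-9) / (m1 : ℝ) * (1 / 2) := by
    field_simp
  rw [h8]
  have h9 : 0 ≤ Real.exp (-9) / (m1 : ℝ) := by positivity
  exact mul_le_mul h5 h6 (by norm_num) (le_trans h9 h5)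

theorem big_H1 {L m1 s g : ℕ} (hL : 4 ≤ L) (hm : 1 ≤ m1) (hLm : L ^ 6 ≤ 2 ^ m1)
    {B : Finset ℤ} (hB : ∀ b ∈ B, |b| ≤ 2 ^ L) (hk : B.card ≤ L) (hg : 16 ≤ g)
    (hs : m1 * 2 ^ g ≤ s) :
    Real.exp (-9) * ((g : ℝ) - 16) / (8 * (m1 : ℝ)) ≤
      H1 (fun q : {q // q ∈ prz (2 ^ s) \ EB L m1 s B} => (q : ℕ)) ((2 : ℝ) ^ s) := by
  have hmr : (0 : ℝ) < m1 := by exact_mod_cast hm
  have hms : m1 ≤ s := le_trans (Nat.le_mul_of_pos_right m1 (by positivity)) hs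
  have hs1 : 1 ≤ s := hm.trans hms
  have hV : 0 < Real.exp (-9) / (2 * (m1 : ℝ)) := by positivity
  have hS1 : (1 : ℝ) < 2 ^ s := one_lt_pow₀ (by norm_num) (by omega)
  have hJ : (2 : ℝ) ^ (g - 15) / (Real.exp (-9) / (2 * (m1 : ℝ))) ≤ Real.log (2 ^ s) := by
    rw [Real.log_pow]
    have h1 : (2 : ℝ) ^ (g - 15) / (Real.exp (-9) / (2 * (m1 : ℝ))) =
        2 ^ (g - 14) * m1 * Real.exp 9 := by
      have h2 : g - 14 = (g - 15) + 1 := by omega
      rw [h2, pow_succ, Real.exp_neg]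
      field_simp
    rw [h1]
    have h3 : Real.exp 9 ≤ 2 ^ 14 * Real.log 2 := by
      have h4 : Real.exp 9 = Real.exp 1 ^ 9 := by
        rw [← Real.exp_nat_mul]
        norm_num
      have h5 : Real.exp 1 ^ 9 ≤ 2.7182818286 ^ 9 :=
        pow_le_pow_left₀ (Real.exp_pos 1).le Real.exp_one_lt_d9.le 9
      have h6 := Real.log_two_gt_d9
      rw [h4]
      norm_num at h5 h6 ⊢
      linarith
    have h7 : (m1 : ℝ) * 2 ^ g ≤ s := by exact_mod_cast hs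
    have h8 : (2 : ℝ) ^ g = 2 ^ (g - 14) * 2 ^ 14 := by
      rw [← pow_add]
      congr 1
      omega
    have hl2 : 0 < Real.log 2 := Real.log_pos (by norm_num)
    calc (2 : ℝ) ^ (g - 14) * m1 * Real.exp 9 ≤ 2 ^ (g - 14) * m1 * (2 ^ 14 * Real.log 2) :=
          mul_le_mul_of_nonneg_left h3 (by positivity)
      _ = (m1 : ℝ) * 2 ^ g * Real.log 2 := by rw [h8]; ring
      _ ≤ s * Real.log 2 := mul_le_mul_of_nonneg_right h7 hl2.le
  have h := H1_lower (eb_sub (L := L) hms B) hV (eb_low hL hm hms hLm hB hk) hS1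
    (by push_cast; exact le_rfl) (g - 15) hJ
  refine le_trans (le_of_eq ?_) h
  rw [Nat.cast_sub (by omega)]
  push_cast
  field_simp
  ring

theorem big_prod {L m1 s g : ℕ} (hm : 1 ≤ m1) (B : Finset ℤ) (hs : s ≤ m1 * 2 ^ (g + 1)) :
    ∏ i : {q // q ∈ prz (2 ^ s) \ EB L m1 s B}, (1 + 1 / (((i : ℕ) : ℝ) - 1)) ≤
      Real.exp (2 ^ (g + 4)) := by
  have hmr : (0 : ℝ) < m1 := by exact_mod_cast hm
  have h1 : ∀ i : {q // q ∈ prz (2 ^ s) \ EB L m1 s B},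
      1 + 1 / (((i : ℕ) : ℝ) - 1) ≤ Real.exp (2 * (1 / ((i : ℕ) : ℝ))) := by
    intro i
    have h2 : (2 : ℝ) ≤ ((i : ℕ) : ℝ) := by exact_mod_cast (big_mem i.2).1.two_le
    have h3 : 1 / (((i : ℕ) : ℝ) - 1) ≤ 2 * (1 / ((i : ℕ) : ℝ)) := by
      rw [mul_one_div, div_le_div_iff₀ (by linarith) (by linarith)]
      linarith
    have h4 := Real.add_one_le_exp (2 * (1 / ((i : ℕ) : ℝ)))
    linarith
  have h5 : ∏ i : {q // q ∈ prz (2 ^ s) \ EB L m1 s B}, (1 + 1 / (((i : ℕ) : ℝ) - 1)) ≤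
      ∏ i : {q // q ∈ prz (2 ^ s) \ EB L m1 s B}, Real.exp (2 * (1 / ((i : ℕ) : ℝ))) := by
    refine Finset.prod_le_prod (fun i _ => ?_) fun i _ => h1 i
    have h2 : (2 : ℝ) ≤ ((i : ℕ) : ℝ) := by exact_mod_cast (big_mem i.2).1.two_le
    have h3 : 0 ≤ 1 / (((i : ℕ) : ℝ) - 1) := div_nonneg zero_le_one (by linarith)
    linarith
  refine h5.trans ?_
  rw [← Real.exp_sum, ← Finset.mul_sum]
  apply Real.exp_le_exp.2
  have h6 : ∑ i : {q // q ∈ prz (2 ^ s) \ EB L m1 s B}, 1 / ((i : ℕ) : ℝ) =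
      ∑ q ∈ prz (2 ^ s) \ EB L m1 s B, 1 / (q : ℝ) :=
    Finset.sum_coe_sort (prz (2 ^ s) \ EB L m1 s B) fun q => 1 / (q : ℝ)
  rw [h6]
  have h7 : ∑ q ∈ prz (2 ^ s) \ EB L m1 s B, 1 / (q : ℝ) ≤ 2 ^ (g + 3) := by
    rcases le_or_gt m1 s with hms | hms
    · obtain ⟨t, rfl⟩ := Nat.exists_eq_add_of_le hms
      have h8 : ∑ q ∈ prz (2 ^ (m1 + t)) \ EB L m1 (m1 + t) B, 1 / (q : ℝ) ≤
          ∑ q ∈ Helper52.pr (2 ^ m1) (2 ^ (m1 + t)), 1 / (q : ℝ) := by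
        refine Finset.sum_le_sum_of_subset_of_nonneg (fun q hq => ?_) fun q _ _ => by positivity
        obtain ⟨a1, a2, a3, -⟩ := big_mem hq
        exact Helper52.mem_pr.2 ⟨a2, a3, a1⟩
      refine h8.trans ((bigp_recip hm t).trans ?_)
      have h9 : (t : ℝ) ≤ m1 * 2 ^ (g + 1) := by
        have h10 : ((m1 + t : ℕ) : ℝ) ≤ ((m1 * 2 ^ (g + 1) : ℕ) : ℝ) := by exact_mod_cast hs
        push_cast at h10
        linarith
      rw [div_le_iff₀ hmr]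
      have h11 : (2 : ℝ) ^ (g + 3) * m1 = 4 * (m1 * 2 ^ (g + 1)) := by ring
      rw [h11]
      linarith
    · have h8 : prz (2 ^ s) \ EB L m1 s B = ∅ := by
        refine Finset.eq_empty_of_forall_notMem fun q hq => ?_
        obtain ⟨-, a2, a3, -⟩ := big_mem hq
        have h9 : 2 ^ s ≤ 2 ^ m1 := Nat.pow_le_pow_right (by norm_num) hms.le
        omega
      rw [h8, Finset.sum_empty]
      positivity
  have h12 : (2 : ℝ) ^ (g + 4) = 2 * 2 ^ (g + 3) := by ring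
  rw [h12]
  linarith

theorem big_sq {L m1 s : ℕ} (hL : 4 ≤ L) {B : Finset ℤ} (hk : B.card ≤ L) :
    ∑ i : {q // q ∈ prz (2 ^ s) \ EB L m1 s B}, (B.card : ℝ) / ((i : ℕ) : ℝ) ^ 2 ≤ 1 / 2 := by
  have hLr : (4 : ℝ) ≤ L := by exact_mod_cast hL
  have h1 : ∑ i : {q // q ∈ prz (2 ^ s) \ EB L m1 s B}, (B.card : ℝ) / ((i : ℕ) : ℝ) ^ 2 =
      ∑ q ∈ prz (2 ^ s) \ EB L m1 s B, (B.card : ℝ) / (q : ℝ) ^ 2 :=
    Finset.sum_coe_sort (prz (2 ^ s) \ EB L m1 s B) fun q => (B.card : ℝ) / (q : ℝ) ^ 2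
  have h2 : ∑ q ∈ prz (2 ^ s) \ EB L m1 s B, (B.card : ℝ) / (q : ℝ) ^ 2 =
      (B.card : ℝ) * ∑ q ∈ prz (2 ^ s) \ EB L m1 s B, 1 / (q : ℝ) ^ 2 := by
    rw [Finset.mul_sum]
    refine Finset.sum_congr rfl fun q _ => ?_
    rw [mul_one_div]
  have h3 : ∑ q ∈ prz (2 ^ s) \ EB L m1 s B, 1 / (q : ℝ) ^ 2 ≤ 1 / (L : ℝ) ^ 6 := by
    refine (Finset.sum_le_sum_of_subset_of_nonneg ?_ fun q _ _ => by positivity).trans
      (sum_inv_sq hL B (2 ^ s))
    exact Finset.sdiff_subset_sdiff (Finset.Subset.refl _) Finset.subset_union_left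
  have h4 : (B.card : ℝ) ≤ L := by exact_mod_cast hk
  have h5 : (B.card : ℝ) * ∑ q ∈ prz (2 ^ s) \ EB L m1 s B, 1 / (q : ℝ) ^ 2 ≤
      (L : ℝ) * (1 / (L : ℝ) ^ 6) :=
    mul_le_mul h4 h3 (Finset.sum_nonneg fun q _ => by positivity) (by linarith)
  rw [h1, h2]
  refine h5.trans ?_
  rw [mul_one_div, div_le_div_iff₀ (by positivity) (by norm_num)]
  have c1 : (16 : ℝ) ≤ (L : ℝ) ^ 2 := by nlinarith
  have c2 : (1 : ℝ) ≤ (L : ℝ) ^ 3 := one_le_pow₀ (by linarith)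
  have c3 : (L : ℝ) ^ 6 = (L : ℝ) * (L ^ 2 * L ^ 3) := by ring
  rw [c3]
  nlinarith

end Pool.Agent.VOID
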