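import Pool.Agent.RS.Prm

/-! VOID/Blk.  The blocks of small primes.

`Bk L m1 B i` = primes in `(2^(m1 / 2^(i+1)), 2^(m1 / 2^i)]` which are `> L^6` and do not divide
any difference of two elements of `B`; `i < Nat.log 2 m1` (then `m1 / 2^(i+1) ≥ 1`).

`bk_disj`: `q ∈ Bk i` determines `i`.
`bk_prod`: the blocks `i < Nat.log 2 m1` cover the primes in `(2^1, 2^m1]` (`m1 / 2^(Nat.log 2 m1) = 1`)
which are `> L^6 ≥ 2` and good, that is `prz (2^m1) \ excl L B (2^m1)`.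
`bk_sum`: with `e = m1 / 2^(i+1) ≥ 1`, `m1 / 2^i ≤ 2 e + 1`; `∑_{j=e}^{2e} 4/j ≤ 4 (e+1)/e ≤ 8`
(`Helper52.recip_dyadic`).
`bk_card`: `Bk i ⊆ (1, 2^(m1/2^i)]`, so `card + 1 ≤ 2^(m1/2^i)`; and
`∑_{i<I} (m1/2^i) * 2 (r+i) ≤ m1 (4 r + 4)` (`∑ 1/2^i ≤ 2`, `∑ i/2^i ≤ 2`). -/

set_option autoImplicit false

open Finset Pool.Agent.RS

namespace Pool.Agent.VOID

open Classical in
/-- the blocks -/
noncomputable def Bk (L m1 : ℕ) (B : Finset ℤ) (i : ℕ) : Finset ℕ :=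
  (Helper52.pr (2 ^ (m1 / 2 ^ (i + 1))) (2 ^ (m1 / 2 ^ i))).filter
    (fun q => ¬ (q ≤ L ^ 6 ∨ ∃ b ∈ B, ∃ b' ∈ B, b ≠ b' ∧ (q : ℤ) ∣ b - b'))

private theorem blk_anti (m1 : ℕ) {i j : ℕ} (h : i ≤ j) : m1 / 2 ^ j ≤ m1 / 2 ^ i :=
  Nat.div_le_div_left (Nat.pow_le_pow_right (by norm_num) h) (by positivity)

private theorem blk_mem_iff {L m1 : ℕ} {B : Finset ℤ} {i q : ℕ} : q ∈ Bk L m1 B i ↔
    (2 ^ (m1 / 2 ^ (i + 1)) < q ∧ q ≤ 2 ^ (m1 / 2 ^ i) ∧ q.Prime) ∧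
      ¬ (q ≤ L ^ 6 ∨ ∃ b ∈ B, ∃ b' ∈ B, b ≠ b' ∧ (q : ℤ) ∣ b - b') := by
  unfold Bk
  rw [Finset.mem_filter, Helper52.mem_pr]

theorem bk_mem {L m1 : ℕ} {B : Finset ℤ} {i q : ℕ} (h : q ∈ Bk L m1 B i) :
    q.Prime ∧ L ^ 6 < q ∧ q ≤ 2 ^ m1 ∧
      (∀ b ∈ B, ∀ b' ∈ B, b ≠ b' → ¬ (q : ℤ) ∣ b - b') := by
  obtain ⟨⟨_, h2, h3⟩, h4⟩ := blk_mem_iff.1 h
  refine ⟨h3, ?_, ?_, ?_⟩
  · by_contra hc
    exact h4 (Or.inl (by omega))
  · refine h2.trans (Nat.pow_le_pow_right (by norm_num) ?_)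
    exact Nat.div_le_self _ _
  · intro b hb b' hb' hne hd
    exact h4 (Or.inr ⟨b, hb, b', hb', hne, hd⟩)

private theorem blk_disj_lt {L m1 : ℕ} {B : Finset ℤ} {i i' : ℕ} (h : i < i') :
    Disjoint (Bk L m1 B i) (Bk L m1 B i') := by
  rw [Finset.disjoint_left]
  intro q h1 h2
  have a1 := (blk_mem_iff.1 h1).1.1
  have a2 := (blk_mem_iff.1 h2).1.2.1
  have a3 : 2 ^ (m1 / 2 ^ i') ≤ 2 ^ (m1 / 2 ^ (i + 1)) :=
    Nat.pow_le_pow_right (by norm_num) (blk_anti m1 h)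
  omega

theorem bk_disj {L m1 : ℕ} {B : Finset ℤ} {i i' : ℕ} (h : i ≠ i') :
    Disjoint (Bk L m1 B i) (Bk L m1 B i') := by
  rcases Nat.lt_or_gt_of_ne h with h1 | h1
  · exact blk_disj_lt h1
  · exact (blk_disj_lt h1).symm

private theorem blk_find (m1 q : ℕ) (h0 : q ≤ 2 ^ (m1 / 2 ^ 0)) : ∀ n : ℕ,
    2 ^ (m1 / 2 ^ n) < q → ∃ i, i < n ∧ 2 ^ (m1 / 2 ^ (i + 1)) < q ∧ q ≤ 2 ^ (m1 / 2 ^ i) := by
  intro n
  induction n with
  | zero =>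
    intro h
    omega
  | succ n ih =>
    intro h
    by_cases h1 : q ≤ 2 ^ (m1 / 2 ^ n)
    · exact ⟨n, by omega, h, h1⟩
    · obtain ⟨i, h2, h3⟩ := ih (by omega)
      exact ⟨i, by omega, h3⟩

theorem bk_prod {L m1 : ℕ} (hL : 2 ≤ L) (hm : 1 ≤ m1) {B : Finset ℤ} (f : ℕ → ℝ) :
    ∏ i ∈ range (Nat.log 2 m1), ∏ q ∈ Bk L m1 B i, f q =
      ∏ q ∈ prz (2 ^ m1) \ excl L B (2 ^ m1), f q := by
  classical
  rw [← Finset.prod_biUnion (fun i _ i' _ h => bk_disj h)]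
  refine Finset.prod_congr ?_ fun _ _ => rfl
  ext q
  rw [Finset.mem_biUnion, Finset.mem_sdiff]
  constructor
  · rintro ⟨i, _, hq⟩
    have h1 := bk_mem hq
    constructor
    · unfold prz
      rw [Finset.mem_filter, Finset.mem_Icc]
      exact ⟨⟨h1.1.pos, h1.2.2.1⟩, h1.1⟩
    · unfold excl
      rw [Finset.mem_filter]
      rintro ⟨_, h2⟩
      exact (blk_mem_iff.1 hq).2 h2
  · rintro ⟨h1, h2⟩
    unfold prz at h1
    rw [Finset.mem_filter, Finset.mem_Icc] at h1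
    have h3 : ¬ (q ≤ L ^ 6 ∨ ∃ b ∈ B, ∃ b' ∈ B, b ≠ b' ∧ (q : ℤ) ∣ b - b') := by
      intro h3
      apply h2
      unfold excl prz
      rw [Finset.mem_filter, Finset.mem_filter, Finset.mem_Icc]
      exact ⟨h1, h3⟩
    have h4 : 2 < q := by
      have h5 : 2 ^ 6 ≤ L ^ 6 := Nat.pow_le_pow_left hL 6
      by_contra hc
      exact h3 (Or.inl (by omega))
    have h5 : m1 / 2 ^ (Nat.log 2 m1) = 1 := by
      have a1 : 2 ^ (Nat.log 2 m1) ≤ m1 := Nat.pow_log_le_self 2 (by omega)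
      have a2 : m1 < 2 ^ (Nat.log 2 m1 + 1) := Nat.lt_pow_succ_log_self (by norm_num) m1
      rw [pow_succ] at a2
      apply Nat.div_eq_of_lt_le
      · omega
      · omega
    obtain ⟨i, h6, h7, h8⟩ := blk_find m1 q (by simpa using h1.1.2) (Nat.log 2 m1)
      (by rw [h5]; omega)
    exact ⟨i, Finset.mem_range.2 h6, blk_mem_iff.2 ⟨⟨h7, h8, h1.2⟩, h3⟩⟩

private theorem blk_recip {e : ℕ} (he : 1 ≤ e) (n : ℕ) :
    ∑ q ∈ Helper52.pr (2 ^ e) (2 ^ (e + n)), 1 / (q : ℝ) ≤ n * (4 / e) := by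
  induction n with
  | zero =>
    have : Helper52.pr (2 ^ e) (2 ^ (e + 0)) = ∅ := by
      unfold Helper52.pr
      simp
    rw [this]
    simp
  | succ n ih =>
    have h1 : Helper52.pr (2 ^ e) (2 ^ (e + (n + 1))) ⊆
        Helper52.pr (2 ^ e) (2 ^ (e + n)) ∪ Helper52.pr (2 ^ (e + n)) (2 ^ (e + n + 1)) := by
      intro q hq
      rw [Helper52.mem_pr] at hq
      rw [Finset.mem_union, Helper52.mem_pr, Helper52.mem_pr]
      by_cases h : q ≤ 2 ^ (e + n)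
      · exact Or.inl ⟨hq.1, h, hq.2.2⟩
      · exact Or.inr ⟨by omega, hq.2.1, hq.2.2⟩
    have h2 : Disjoint (Helper52.pr (2 ^ e) (2 ^ (e + n)))
        (Helper52.pr (2 ^ (e + n)) (2 ^ (e + n + 1))) := by
      rw [Finset.disjoint_left]
      intro q h3 h4
      rw [Helper52.mem_pr] at h3 h4
      omega
    have h3 := Helper52.recip_dyadic (i := e + n) (by omega)
    have her : (0 : ℝ) < e := by exact_mod_cast he
    have h4 : (4 : ℝ) / ((e + n : ℕ) : ℝ) ≤ 4 / e := by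
      apply div_le_div_of_nonneg_left (by norm_num) her
      push_cast
      have : (0 : ℝ) ≤ n := Nat.cast_nonneg n
      linarith
    calc ∑ q ∈ Helper52.pr (2 ^ e) (2 ^ (e + (n + 1))), 1 / (q : ℝ)
        ≤ ∑ q ∈ Helper52.pr (2 ^ e) (2 ^ (e + n)) ∪ Helper52.pr (2 ^ (e + n)) (2 ^ (e + n + 1)),
          1 / (q : ℝ) :=
          Finset.sum_le_sum_of_subset_of_nonneg h1 fun q _ _ => by positivity
      _ = ∑ q ∈ Helper52.pr (2 ^ e) (2 ^ (e + n)), 1 / (q : ℝ) +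
          ∑ q ∈ Helper52.pr (2 ^ (e + n)) (2 ^ (e + n + 1)), 1 / (q : ℝ) :=
          Finset.sum_union h2
      _ ≤ n * (4 / e) + 4 / e := by linarith
      _ = ((n + 1 : ℕ) : ℝ) * (4 / e) := by push_cast; ring

theorem bk_sum {L m1 : ℕ} {B : Finset ℤ} {i : ℕ} (hi : i < Nat.log 2 m1) :
    ∑ q ∈ Bk L m1 B i, 1 / (q : ℝ) ≤ 8 := by
  have hm : m1 ≠ 0 := by
    rintro rfl
    simp at hi
  set e := m1 / 2 ^ (i + 1) with he
  have he1 : 1 ≤ e := by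
    rw [he, Nat.one_le_div_iff (by positivity)]
    exact (Nat.pow_le_pow_right (by norm_num) hi).trans (Nat.pow_log_le_self 2 hm)
  have he2 : m1 / 2 ^ i ≤ e + (e + 1) := by
    have h1 : m1 / 2 ^ (i + 1) = m1 / 2 ^ i / 2 := by
      rw [pow_succ, Nat.div_div_eq_div_mul]
    rw [he, h1]
    omega
  have h1 : Bk L m1 B i ⊆ Helper52.pr (2 ^ e) (2 ^ (e + (e + 1))) := by
    intro q hq
    obtain ⟨⟨a1, a2, a3⟩, _⟩ := blk_mem_iff.1 hq
    rw [Helper52.mem_pr]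
    exact ⟨a1, a2.trans (Nat.pow_le_pow_right (by norm_num) he2), a3⟩
  have her : (1 : ℝ) ≤ e := by exact_mod_cast he1
  calc ∑ q ∈ Bk L m1 B i, 1 / (q : ℝ) ≤ ∑ q ∈ Helper52.pr (2 ^ e) (2 ^ (e + (e + 1))), 1 / (q : ℝ) :=
        Finset.sum_le_sum_of_subset_of_nonneg h1 fun q _ _ => by positivity
    _ ≤ ((e + 1 : ℕ) : ℝ) * (4 / e) := blk_recip he1 (e + 1)
    _ ≤ 8 := by
        push_cast
        rw [mul_div_assoc', div_le_iff₀ (by linarith)]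
        linarith

private theorem blk_geo (r n : ℕ) : ∑ i ∈ range n, ((r : ℝ) + i) / 2 ^ i =
    2 * (r + 1) - 2 * (r + n + 1) / 2 ^ n := by
  induction n with
  | zero => simp
  | succ n ih =>
    rw [Finset.sum_range_succ, ih]
    push_cast
    field_simp
    ring

private theorem blk_expo (m1 r n : ℕ) :
    ∑ i ∈ range n, (m1 / 2 ^ i) * (2 * (r + i)) ≤ m1 * (4 * r + 4) := by
  have h1 : ((∑ i ∈ range n, (m1 / 2 ^ i) * (2 * (r + i)) : ℕ) : ℝ) ≤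
      ((m1 * (4 * r + 4) : ℕ) : ℝ) := by
    push_cast
    calc ∑ i ∈ range n, ((m1 / 2 ^ i : ℕ) : ℝ) * (2 * ((r : ℝ) + i))
        ≤ ∑ i ∈ range n, 2 * (m1 : ℝ) * (((r : ℝ) + i) / 2 ^ i) := by
          apply Finset.sum_le_sum
          intro i _
          have h2 := Nat.cast_div_le (α := ℝ) (m := m1) (n := 2 ^ i)
          push_cast at h2
          have h3 : (0 : ℝ) ≤ 2 * ((r : ℝ) + i) := by positivity
          have h4 := mul_le_mul_of_nonneg_right h2 h3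
          refine h4.trans (le_of_eq ?_)
          ring
      _ = 2 * (m1 : ℝ) * (2 * (r + 1) - 2 * (r + n + 1) / 2 ^ n) := by
          rw [← Finset.mul_sum, blk_geo]
      _ ≤ (m1 : ℝ) * (4 * r + 4) := by
          have h5 : (0 : ℝ) ≤ 2 * ((r : ℝ) + n + 1) / 2 ^ n := by positivity
          have h6 : (0 : ℝ) ≤ m1 := Nat.cast_nonneg m1
          nlinarith [mul_nonneg h6 h5]
  exact_mod_cast h1

theorem bk_card (L m1 : ℕ) (B : Finset ℤ) (r : ℕ) :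
    ∏ i ∈ range (Nat.log 2 m1), (((Bk L m1 B i).card : ℝ) + 1) ^ (2 * (r + i)) ≤
      2 ^ (m1 * (4 * r + 4)) := by
  have h1 : ∀ i, ((Bk L m1 B i).card : ℝ) + 1 ≤ 2 ^ (m1 / 2 ^ i) := by
    intro i
    have h2 : Bk L m1 B i ⊆ Finset.Ioc 1 (2 ^ (m1 / 2 ^ i)) := by
      intro q hq
      obtain ⟨⟨_, a2, a3⟩, _⟩ := blk_mem_iff.1 hq
      exact Finset.mem_Ioc.2 ⟨a3.one_lt, a2⟩
    have h3 := Finset.card_le_card h2
    rw [Nat.card_Ioc] at h3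
    have h4 : 1 ≤ 2 ^ (m1 / 2 ^ i) := Nat.one_le_two_pow
    have h5 : (Bk L m1 B i).card + 1 ≤ 2 ^ (m1 / 2 ^ i) := by omega
    exact_mod_cast h5
  calc ∏ i ∈ range (Nat.log 2 m1), (((Bk L m1 B i).card : ℝ) + 1) ^ (2 * (r + i))
      ≤ ∏ i ∈ range (Nat.log 2 m1), ((2 : ℝ) ^ (m1 / 2 ^ i)) ^ (2 * (r + i)) := by
        apply Finset.prod_le_prod
        · intro i _
          positivity
        · intro i _
          exact pow_le_pow_left₀ (by positivity) (h1 i) _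
    _ = 2 ^ (∑ i ∈ range (Nat.log 2 m1), (m1 / 2 ^ i) * (2 * (r + i))) := by
        rw [← Finset.prod_pow_eq_pow_sum]
        refine Finset.prod_congr rfl fun i _ => ?_
        rw [← pow_mul]
    _ ≤ 2 ^ (m1 * (4 * r + 4)) :=
        pow_le_pow_right₀ (by norm_num) (blk_expo m1 r _)

end Pool.Agent.VOID
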