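import Pool.Agent.VOID.ParA

/-! VOID/ParL.  Facts about the parameters for `L ≥ L0(CV, G, r, N1)`: with
`g = G (r+1) + 16`, `s = L / (r+1)^3`, `m1 = s / 2^g`, `d = L / (100 N1 (r+1))`, `N = d / m1`,
`R = RR G r = 2 (r+1)^3 2^g`.

All quotients are floors; `L ≤ R m1`, so `m1 → ∞`; the left hand sides of the exponential bounds are
at most a constant times a power of `m1 + 1`, while the right hand sides are of the order `2^m1`. -/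

set_option autoImplicit false

namespace Pool.Agent.VOID

/-- the collection of the numerical facts for given `L` -/
structure PL (CV : ℝ) (G r N1 L : ℕ) (g s m1 d N : ℕ) : Prop where
  hg : g = G * (r + 1) + 16
  hs : s = L / (r + 1) ^ 3
  hm : m1 = s / 2 ^ g
  hd : d = L / (100 * N1 * (r + 1))
  hN : N = d / m1
  L16 : 16 ≤ L
  m_pos : 1 ≤ m1
  m_le_s : m1 ≤ s
  s_le_d : s ≤ d
  s_low : m1 * 2 ^ g ≤ s
  s_up : s ≤ m1 * 2 ^ (g + 1)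
  L_le : L ≤ RR G r * m1
  N_le : N ≤ RR G r
  Nm_le : N * m1 ≤ d
  L_le_d : L ≤ 200 * N1 * (r + 1) * d
  sd : s * (r + 1) ^ 2 ≤ 200 * N1 * d
  L6 : L ^ 6 ≤ 2 ^ m1
  K_le : 2 * (2 * RR G r + 2) ≤ L ^ 6
  off_le : (2 + 4 * (L : ℝ)) * (((L : ℝ) + 1) ^ (2 * RR G r) * Real.exp (2 ^ (g + 4))) ≤
    2 ^ m1 / 8
  del_le : 2 * CV * RR G r * (2 * (RR G r : ℝ) / 2 ^ m1) ^ 2 ≤ 1 / 16
  wt_le : (2 + 5 * (L : ℝ)) * ((2 * ((2 : ℝ) ^ d) ^ 2 * (3 * 2 ^ (m1 * (4 * r + 4))) ^ N) ^ 2 *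
    2 ^ (m1 * (4 * r + 4))) ≤ 2 ^ (L / (2 * N1)) / 16

private theorem parl_ev (c : ℝ) (k : ℕ) :
    ∃ M : ℕ, ∀ m : ℕ, M ≤ m → c * ((m : ℝ) + 1) ^ k ≤ 2 ^ m := by
  have h := (tendsto_pow_const_div_const_pow_of_one_lt k (one_lt_two : (1 : ℝ) < 2)).const_mul
    (|c| * 2 ^ k)
  rw [mul_zero] at h
  have h1 := h.eventually (gt_mem_nhds (zero_lt_one : (0 : ℝ) < 1))
  obtain ⟨M, hM⟩ := Filter.eventually_atTop.1 h1
  refine ⟨max M 1, ?_⟩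
  intro m hm
  have hm1 : 1 ≤ m := (le_max_right _ _).trans hm
  have hmr : (1 : ℝ) ≤ m := by exact_mod_cast hm1
  have h2 := hM m ((le_max_left _ _).trans hm)
  have hpos : (0 : ℝ) < 2 ^ m := by positivity
  have h3 : |c| * 2 ^ k * (m : ℝ) ^ k < 2 ^ m := by
    have e : |c| * 2 ^ k * ((m : ℝ) ^ k / 2 ^ m) = (|c| * 2 ^ k * (m : ℝ) ^ k) / 2 ^ m := by ring
    rw [e, div_lt_one hpos] at h2
    exact h2
  have h4 : ((m : ℝ) + 1) ^ k ≤ (2 * (m : ℝ)) ^ k :=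
    pow_le_pow_left₀ (by linarith) (by linarith) k
  calc c * ((m : ℝ) + 1) ^ k ≤ |c| * ((m : ℝ) + 1) ^ k :=
        mul_le_mul_of_nonneg_right (le_abs_self c) (by positivity)
    _ ≤ |c| * (2 * (m : ℝ)) ^ k := mul_le_mul_of_nonneg_left h4 (abs_nonneg c)
    _ = |c| * 2 ^ k * (m : ℝ) ^ k := by rw [mul_pow]; ring
    _ ≤ 2 ^ m := h3.le

/-- the weight bound -/
private theorem parl_wt {r L d m1 N R q : ℕ} (hNm : N * m1 ≤ d) (hmd : m1 ≤ d) (hNR : N ≤ R)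
    (hd : 50 * (r + 1) * d ≤ q)
    (hD : (2 + 5 * (L : ℝ)) * (64 * 9 ^ R) ≤ 2 ^ (q / 2)) :
    (2 + 5 * (L : ℝ)) * ((2 * ((2 : ℝ) ^ d) ^ 2 * (3 * 2 ^ (m1 * (4 * r + 4))) ^ N) ^ 2 *
    2 ^ (m1 * (4 * r + 4))) ≤ 2 ^ q / 16 := by
  have e1 : (2 * ((2 : ℝ) ^ d) ^ 2 * (3 * 2 ^ (m1 * (4 * r + 4))) ^ N) ^ 2 *
      2 ^ (m1 * (4 * r + 4)) =
      4 * 9 ^ N * 2 ^ (4 * d + 2 * (m1 * (4 * r + 4) * N) + m1 * (4 * r + 4)) := by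
    have h9 : (9 : ℝ) ^ N = (3 ^ N) ^ 2 := by
      rw [← pow_mul, mul_comm N 2, pow_mul]
      norm_num
    rw [h9, mul_pow 3, ← pow_mul, ← pow_mul, pow_add, pow_add]
    have h2 : (2 : ℝ) ^ (4 * d) = (2 ^ (d * 2)) ^ 2 := by
      rw [← pow_mul]
      congr 1
      ring
    have h3 : (2 : ℝ) ^ (2 * (m1 * (4 * r + 4) * N)) = (2 ^ (m1 * (4 * r + 4) * N)) ^ 2 := by
      rw [← pow_mul]
      congr 1
      ring
    rw [h2, h3]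
    ring
  have hexp : 4 * d + 2 * (m1 * (4 * r + 4) * N) + m1 * (4 * r + 4) ≤ q / 3 := by
    have h1 : m1 * (4 * r + 4) * N ≤ d * (4 * r + 4) := by
      calc m1 * (4 * r + 4) * N = N * m1 * (4 * r + 4) := by ring
        _ ≤ d * (4 * r + 4) := Nat.mul_le_mul_right _ hNm
    have h2 : m1 * (4 * r + 4) ≤ d * (4 * r + 4) := Nat.mul_le_mul_right _ hmd
    rw [Nat.le_div_iff_mul_le (by norm_num)]
    nlinarith
  have h9 : (9 : ℝ) ^ N ≤ 9 ^ R := pow_le_pow_right₀ (by norm_num) hNR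
  have h2 : (2 : ℝ) ^ (4 * d + 2 * (m1 * (4 * r + 4) * N) + m1 * (4 * r + 4)) ≤ 2 ^ (q / 3) :=
    pow_le_pow_right₀ (by norm_num) hexp
  have h3 : (2 : ℝ) ^ (q / 2) * 2 ^ (q / 3) ≤ 2 ^ q := by
    rw [← pow_add]
    exact pow_le_pow_right₀ (by norm_num) (by omega)
  rw [e1]
  have h4 : (0 : ℝ) ≤ 2 + 5 * (L : ℝ) := by positivity
  have h5 : (2 + 5 * (L : ℝ)) *
      (4 * 9 ^ N * 2 ^ (4 * d + 2 * (m1 * (4 * r + 4) * N) + m1 * (4 * r + 4))) ≤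
      (2 + 5 * (L : ℝ)) * (4 * 9 ^ R * 2 ^ (q / 3)) := by
    apply mul_le_mul_of_nonneg_left _ h4
    exact mul_le_mul (by linarith) h2 (by positivity) (by positivity)
  have h6 : (2 + 5 * (L : ℝ)) * (4 * 9 ^ R * 2 ^ (q / 3)) =
      ((2 + 5 * (L : ℝ)) * (64 * 9 ^ R)) * 2 ^ (q / 3) / 16 := by ring
  have h7 : ((2 + 5 * (L : ℝ)) * (64 * 9 ^ R)) * 2 ^ (q / 3) ≤ 2 ^ (q / 2) * 2 ^ (q / 3) :=
    mul_le_mul_of_nonneg_right hD (by positivity)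
  linarith

private theorem parl_del {CV R X : ℝ} (hR : 0 ≤ R) (hX : 1 ≤ X) (h : 128 * |CV| * R ^ 3 ≤ X) :
    2 * CV * R * (2 * R / X) ^ 2 ≤ 1 / 16 := by
  have hX0 : 0 < X := by linarith
  have e1 : 2 * CV * R * (2 * R / X) ^ 2 = 8 * CV * R ^ 3 / X ^ 2 := by
    field_simp
    ring
  rw [e1, div_le_iff₀ (by positivity)]
  have h1 : CV * R ^ 3 ≤ |CV| * R ^ 3 := mul_le_mul_of_nonneg_right (le_abs_self CV) (by positivity)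
  have h2 : X ≤ X ^ 2 := by nlinarith
  nlinarith

/-- the integer inequalities -/
private theorem parl_nat {r g R L s m1 d N1 : ℕ} (hN1 : 1 ≤ N1) (hr : 10 * N1 ≤ r)
    (hR : R = 2 * ((r + 1) ^ 3 * 2 ^ g))
    (hs : s = L / (r + 1) ^ 3) (hm : m1 = s / 2 ^ g) (hd : d = L / (100 * N1 * (r + 1)))
    (hLR : R ≤ L) :
    1 ≤ m1 ∧ m1 ≤ s ∧ s ≤ d ∧ m1 * 2 ^ g ≤ s ∧ s ≤ m1 * 2 ^ (g + 1) ∧ L ≤ R * m1 ∧
      L ≤ 200 * N1 * (r + 1) * d ∧ s * (r + 1) ^ 2 ≤ 200 * N1 * d ∧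
      50 * (r + 1) * d ≤ L / (2 * N1) := by
  have hp2 : 2 ^ (g + 1) = 2 * 2 ^ g := by rw [pow_succ, mul_comm]
  rw [hp2]
  have hg2 : 0 < 2 ^ g := by positivity
  generalize 2 ^ g = T at *
  have hP : 0 < (r + 1) ^ 3 := by positivity
  have hs1 : s * (r + 1) ^ 3 ≤ L := by rw [hs]; exact Nat.div_mul_le_self _ _
  have hs2 : L < (s + 1) * (r + 1) ^ 3 := by
    rw [← Nat.div_lt_iff_lt_mul hP, ← hs]
    exact Nat.lt_succ_self _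
  have hm2 : s < (m1 + 1) * T := by
    rw [← Nat.div_lt_iff_lt_mul hg2, ← hm]
    exact Nat.lt_succ_self _
  have hm1' : m1 * T ≤ s := by rw [hm]; exact Nat.div_mul_le_self _ _
  have hspos : T ≤ s := by
    rw [hs, Nat.le_div_iff_mul_le hP]
    calc T * (r + 1) ^ 3 = (r + 1) ^ 3 * T := mul_comm _ _
      _ ≤ 2 * ((r + 1) ^ 3 * T) := by omega
      _ ≤ L := by rw [← hR]; exact hLR
  have hmpos : 1 ≤ m1 := by
    rw [hm, Nat.le_div_iff_mul_le hg2, one_mul]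
    exact hspos
  have hLm : L ≤ R * m1 := by
    have h2 : (s + 1) * (r + 1) ^ 3 ≤ (m1 + 1) * T * (r + 1) ^ 3 := Nat.mul_le_mul_right _ hm2
    have h3 : (m1 + 1) * T * (r + 1) ^ 3 ≤ (2 * m1) * T * (r + 1) ^ 3 :=
      Nat.mul_le_mul_right _ (Nat.mul_le_mul_right _ (by omega))
    have h4 : (2 * m1) * T * (r + 1) ^ 3 = R * m1 := by
      rw [hR]
      ring
    omega
  have hsd : s ≤ d := by
    rw [hs, hd]
    refine Nat.div_le_div_left ?_ (by positivity)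
    have h1 : 100 * N1 ≤ (r + 1) ^ 2 := by nlinarith
    calc 100 * N1 * (r + 1) ≤ (r + 1) ^ 2 * (r + 1) := Nat.mul_le_mul_right _ h1
      _ = (r + 1) ^ 3 := by ring
  have hms : m1 ≤ s := by rw [hm]; exact Nat.div_le_self _ _
  have hd1 : d * (100 * N1 * (r + 1)) ≤ L := by rw [hd]; exact Nat.div_mul_le_self _ _
  have hd2 : L < (d + 1) * (100 * N1 * (r + 1)) := by
    rw [← Nat.div_lt_iff_lt_mul (by positivity), ← hd]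
    exact Nat.lt_succ_self _
  have hd0 : 1 ≤ d := hmpos.trans (hms.trans hsd)
  have hLd : L ≤ 200 * N1 * (r + 1) * d := by
    have h1 : (d + 1) * (100 * N1 * (r + 1)) ≤ (2 * d) * (100 * N1 * (r + 1)) :=
      Nat.mul_le_mul_right _ (by omega)
    have h2 : (2 * d) * (100 * N1 * (r + 1)) = 200 * N1 * (r + 1) * d := by ring
    omega
  refine ⟨hmpos, hms, hsd, hm1', ?_, hLm, hLd, ?_, ?_⟩
  · have h1 : (m1 + 1) * T ≤ (2 * m1) * T := Nat.mul_le_mul_right _ (by omega)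
    have h2 : (2 * m1) * T = m1 * (2 * T) := by ring
    omega
  · have h1 : (s * (r + 1) ^ 2) * (r + 1) ≤ (200 * N1 * d) * (r + 1) := by
      calc (s * (r + 1) ^ 2) * (r + 1) = s * (r + 1) ^ 3 := by ring
        _ ≤ L := hs1
        _ ≤ 200 * N1 * (r + 1) * d := hLd
        _ = (200 * N1 * d) * (r + 1) := by ring
    exact Nat.le_of_mul_le_mul_right h1 (by omega)
  · rw [Nat.le_div_iff_mul_le (by omega)]
    calc 50 * (r + 1) * d * (2 * N1) = d * (100 * N1 * (r + 1)) := by ring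
      _ ≤ L := hd1

private theorem parl_L6 {R L m : ℕ} (hL : L ≤ R * m)
    (h : (R : ℝ) ^ 6 * ((m : ℝ) + 1) ^ 6 ≤ 2 ^ m) : L ^ 6 ≤ 2 ^ m := by
  have hLmr : (L : ℝ) ≤ (R : ℝ) * m := by exact_mod_cast hL
  have hLr0 : (0 : ℝ) ≤ (L : ℝ) := Nat.cast_nonneg _
  have hRr0 : (0 : ℝ) ≤ (R : ℝ) := Nat.cast_nonneg _
  have h2 : (L : ℝ) ^ 6 ≤ 2 ^ m := by
    calc (L : ℝ) ^ 6 ≤ ((R : ℝ) * ((m : ℝ) + 1)) ^ 6 := by
          apply pow_le_pow_left₀ hLr0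
          linarith
      _ = (R : ℝ) ^ 6 * ((m : ℝ) + 1) ^ 6 := mul_pow _ _ _
      _ ≤ 2 ^ m := h
  exact_mod_cast h2

private theorem parl_off {R L m : ℕ} (hL : L ≤ R * m) {E : ℝ} (hE0 : 0 < E)
    (h : 8 * ((2 + 4 * (R : ℝ)) * (((R : ℝ) + 1) ^ (2 * R) * E)) * ((m : ℝ) + 1) ^ (2 * R + 1) ≤
      2 ^ m) :
    (2 + 4 * (L : ℝ)) * (((L : ℝ) + 1) ^ (2 * R) * E) ≤ 2 ^ m / 8 := by
  have hLmr : (L : ℝ) ≤ (R : ℝ) * m := by exact_mod_cast hL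
  have hLr0 : (0 : ℝ) ≤ (L : ℝ) := Nat.cast_nonneg _
  have hRr0 : (0 : ℝ) ≤ (R : ℝ) := Nat.cast_nonneg _
  have hmr0 : (0 : ℝ) ≤ (m : ℝ) := Nat.cast_nonneg _
  have h2 : (2 + 4 * (L : ℝ)) ≤ (2 + 4 * (R : ℝ)) * ((m : ℝ) + 1) := by nlinarith
  have h3 : ((L : ℝ) + 1) ^ (2 * R) ≤ (((R : ℝ) + 1) * ((m : ℝ) + 1)) ^ (2 * R) := by
    apply pow_le_pow_left₀ (by linarith)
    nlinarith
  rw [mul_pow] at h3
  have h4 : (2 + 4 * (L : ℝ)) * (((L : ℝ) + 1) ^ (2 * R) * E) ≤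
      ((2 + 4 * (R : ℝ)) * ((m : ℝ) + 1)) *
        ((((R : ℝ) + 1) ^ (2 * R) * ((m : ℝ) + 1) ^ (2 * R)) * E) := by
    apply mul_le_mul h2 (mul_le_mul_of_nonneg_right h3 hE0.le) (by positivity) (by positivity)
  have h5 : ((2 + 4 * (R : ℝ)) * ((m : ℝ) + 1)) *
        ((((R : ℝ) + 1) ^ (2 * R) * ((m : ℝ) + 1) ^ (2 * R)) * E) =
      (8 * ((2 + 4 * (R : ℝ)) * (((R : ℝ) + 1) ^ (2 * R) * E))) *
        ((m : ℝ) + 1) ^ (2 * R + 1) / 8 := by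
    rw [pow_succ ((m : ℝ) + 1) (2 * R)]
    ring
  rw [h5] at h4
  linarith

private theorem parl_q {R L N1 : ℕ} (hN1 : 1 ≤ N1)
    (h : 22 * N1 * (64 * 9 ^ R) * (((L / (2 * N1) / 2 : ℕ) : ℝ) + 1) ^ 1 ≤
      2 ^ (L / (2 * N1) / 2)) :
    (2 + 5 * (L : ℝ)) * (64 * 9 ^ R) ≤ 2 ^ (L / (2 * N1) / 2) := by
  set q := L / (2 * N1) / 2 with hq
  have h2 : L < (q + 1) * (4 * N1) := by
    have h3 : q = L / (4 * N1) := by
      rw [hq, Nat.div_div_eq_div_mul]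
      congr 1
      ring
    rw [← Nat.div_lt_iff_lt_mul (by omega), ← h3]
    exact Nat.lt_succ_self _
  have h3 : (L : ℝ) ≤ ((q : ℝ) + 1) * (4 * N1) := by exact_mod_cast h2.le
  have hNr : (1 : ℝ) ≤ N1 := by exact_mod_cast hN1
  have hq0 : (0 : ℝ) ≤ q := Nat.cast_nonneg _
  have h4 : 2 + 5 * (L : ℝ) ≤ 22 * N1 * ((q : ℝ) + 1) := by nlinarith
  have h5 : (0 : ℝ) ≤ 64 * 9 ^ R := by positivity
  calc (2 + 5 * (L : ℝ)) * (64 * 9 ^ R) ≤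
        (22 * N1 * ((q : ℝ) + 1)) * (64 * 9 ^ R) := mul_le_mul_of_nonneg_right h4 h5
    _ = 22 * N1 * (64 * 9 ^ R) * ((q : ℝ) + 1) ^ 1 := by ring
    _ ≤ 2 ^ q := h

/-- everything with opaque `R`, `g` -/
private theorem parl_all (CV : ℝ) {r g R N1 : ℕ} (hN1 : 1 ≤ N1) (hr : 10 * N1 ≤ r) (hR : R = 2 * ((r + 1) ^ 3 * 2 ^ g)) :
    ∃ L0 : ℕ, ∀ L : ℕ, L0 ≤ L → ∃ s m1 d N : ℕ,
      s = L / (r + 1) ^ 3 ∧ m1 = s / 2 ^ g ∧ d = L / (100 * N1 * (r + 1)) ∧ N = d / m1 ∧ 16 ≤ L ∧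
      1 ≤ m1 ∧ m1 ≤ s ∧ s ≤ d ∧ m1 * 2 ^ g ≤ s ∧ s ≤ m1 * 2 ^ (g + 1) ∧ L ≤ R * m1 ∧
      N ≤ R ∧ N * m1 ≤ d ∧ L ≤ 200 * N1 * (r + 1) * d ∧ s * (r + 1) ^ 2 ≤ 200 * N1 * d ∧
      L ^ 6 ≤ 2 ^ m1 ∧
      2 * (2 * R + 2) ≤ L ^ 6 ∧
      (2 + 4 * (L : ℝ)) * (((L : ℝ) + 1) ^ (2 * R) * Real.exp (2 ^ (g + 4))) ≤ 2 ^ m1 / 8 ∧
      2 * CV * R * (2 * (R : ℝ) / 2 ^ m1) ^ 2 ≤ 1 / 16 ∧
      (2 + 5 * (L : ℝ)) * ((2 * ((2 : ℝ) ^ d) ^ 2 * (3 * 2 ^ (m1 * (4 * r + 4))) ^ N) ^ 2 *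
        2 ^ (m1 * (4 * r + 4))) ≤ 2 ^ (L / (2 * N1)) / 16 := by
  obtain ⟨M1, hM1⟩ := parl_ev ((R : ℝ) ^ 6) 6
  obtain ⟨M2, hM2⟩ := parl_ev (8 * ((2 + 4 * (R : ℝ)) * (((R : ℝ) + 1) ^ (2 * R) *
    Real.exp (2 ^ (g + 4))))) (2 * R + 1)
  obtain ⟨M3, hM3⟩ := parl_ev (128 * |CV| * (R : ℝ) ^ 3) 0
  obtain ⟨Q, hQ⟩ := parl_ev (22 * N1 * (64 * 9 ^ R)) 1
  refine ⟨16 + R * (M1 + M2 + M3) + R + 4 * N1 * Q + 4 * R + 4, ?_⟩
  intro L hL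
  have hz := Nat.zero_le (R * (M1 + M2 + M3))
  have hR0 : 0 < R := by rw [hR]; positivity
  have hz2 := Nat.zero_le (4 * N1 * Q)
  obtain ⟨h1, h2, h3, h4, h5, h6, h7, h8, h9⟩ :=
    parl_nat hN1 hr hR (L := L) rfl rfl rfl (by omega)
  generalize hs : L / (r + 1) ^ 3 = s at *
  generalize hm : s / 2 ^ g = m1 at *
  generalize hd : L / (100 * N1 * (r + 1)) = d at *
  have hmge : M1 + M2 + M3 ≤ m1 := by
    have h1 : R * (M1 + M2 + M3) ≤ R * m1 := by omega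
    exact Nat.le_of_mul_le_mul_left h1 hR0
  have hNm : d / m1 * m1 ≤ d := Nat.div_mul_le_self _ _
  have hNR : d / m1 ≤ R := by
    apply Nat.div_le_of_le_mul
    have h10 : d ≤ L := by rw [← hd]; exact Nat.div_le_self _ _
    calc d ≤ L := h10
      _ ≤ R * m1 := h6
      _ = m1 * R := mul_comm _ _
  have hK : 2 * (2 * R + 2) ≤ L ^ 6 := by
    have h11 : L ≤ L ^ 6 := Nat.le_self_pow (by norm_num) L
    omega
  have hdel : 2 * CV * R * (2 * (R : ℝ) / 2 ^ m1) ^ 2 ≤ 1 / 16 := by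
    have h12 := hM3 m1 (by omega)
    rw [pow_zero, mul_one] at h12
    exact parl_del (Nat.cast_nonneg _) (one_le_pow₀ (by norm_num)) h12
  have hq : Q ≤ L / (2 * N1) / 2 := by
    rw [Nat.div_div_eq_div_mul, Nat.le_div_iff_mul_le (by omega)]
    calc Q * (2 * N1 * 2) = 4 * N1 * Q := by ring
      _ ≤ L := by omega
  exact ⟨s, m1, d, d / m1, rfl, hm.symm, rfl, rfl, by omega, h1, h2, h3, h4, h5, h6, hNR,
    hNm, h7, h8, parl_L6 h6 (hM1 m1 (by omega)), hK,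
    parl_off h6 (Real.exp_pos _) (hM2 m1 (by omega)), hdel,
    parl_wt hNm (h2.trans h3) hNR h9 (parl_q hN1 (hQ _ hq))⟩

theorem parL (CV : ℝ) (G r N1 : ℕ) (hN1 : 1 ≤ N1) (hr : 10 * N1 ≤ r) :
    ∃ L0 : ℕ, ∀ L : ℕ, L0 ≤ L → ∃ g s m1 d N : ℕ, PL CV G r N1 L g s m1 d N := by
  obtain ⟨g, hg⟩ : ∃ g, g = G * (r + 1) + 16 := ⟨_, rfl⟩
  have hR : RR G r = 2 * ((r + 1) ^ 3 * 2 ^ g) := by
    rw [hg, ← mul_assoc]
    rfl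
  obtain ⟨L0, h⟩ := parl_all CV hN1 hr hR
  refine ⟨L0, ?_⟩
  intro L hL
  obtain ⟨s, m1, d, N, a1, a2, a3, a4, a5, a6, a7, a8, a9, a10, a11, a12, a13, a14, a15, a16, a17,
    a18, a19, a20⟩ := h L hL
  exact ⟨g, s, m1, d, N, ⟨hg, a1, a2, a3, a4, a5, a6, a7, a8, a9, a10, a11, a12, a13, a14, a15,
    a16, a17, a18, a19, a20⟩⟩

end Pool.Agent.VOID
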