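import Pool.Agent.VOID.Blk
import Pool.Agent.VOID.BrunV

/-! VOID/V1B.  The density of the integers without prime factor in the blocks. -/

set_option autoImplicit false

open Finset Pool.Agent.RS

namespace Pool.Agent.VOID

theorem V1_le {L m1 : ℕ} (hL : 4 ≤ L) (hm : 1 ≤ m1) {B : Finset ℤ}
    (hB : ∀ b ∈ B, |b| ≤ 2 ^ L) (hk : B.card ≤ L) :
    PiV (Bk L m1 B) (Nat.log 2 m1) 1 ≤
      12 * Real.exp 9 * ((Nat.log 2 L : ℝ) + 1) / (m1 * Real.log 2) := by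
  classical
  have hsub : excl L B (2 ^ m1) ⊆ prz (2 ^ m1) := Finset.filter_subset _ _
  have hprime : ∀ q ∈ prz (2 ^ m1), q.Prime := fun q hq => (Finset.mem_filter.1 hq).2
  have hX : PiV (Bk L m1 B) (Nat.log 2 m1) 1 =
      ∏ q ∈ prz (2 ^ m1) \ excl L B (2 ^ m1), (1 - 1 / (q : ℝ)) := by
    unfold PiV
    rw [bk_prod (by omega) hm fun q => max 0 (1 - ((1 : ℕ) : ℝ) / q)]
    refine Finset.prod_congr rfl fun q hq => ?_
    have hq1 := (hprime q (Finset.sdiff_subset hq)).one_lt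
    have hq2 : (1 : ℝ) < q := by exact_mod_cast hq1
    rw [Nat.cast_one]
    apply max_eq_right
    rw [sub_nonneg, div_le_one (by linarith)]
    exact hq2.le
  have hprod : (∏ q ∈ prz (2 ^ m1) \ excl L B (2 ^ m1), (1 - 1 / (q : ℝ))) *
      ∏ q ∈ excl L B (2 ^ m1), (1 - 1 / (q : ℝ)) = ∏ q ∈ prz (2 ^ m1), (1 - 1 / (q : ℝ)) :=
    Finset.prod_sdiff hsub
  have hpr : prz (2 ^ m1) = Helper52.pr 0 (2 ^ m1) := by
    ext q
    unfold prz
    rw [Finset.mem_filter, Finset.mem_Icc, Helper52.mem_pr]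
    constructor
    · rintro ⟨⟨h1, h2⟩, h3⟩
      exact ⟨by omega, h2, h3⟩
    · rintro ⟨h1, h2, h3⟩
      exact ⟨⟨by omega, h2⟩, h3⟩
  have hP := Helper52.prod_upper hm
  rw [← hpr, ← hprod, ← hX] at hP
  have hE := excl_prod hL hB hk (2 ^ m1)
  have hX0 : 0 ≤ PiV (Bk L m1 B) (Nat.log 2 m1) 1 :=
    Finset.prod_nonneg fun i _ => Finset.prod_nonneg fun q _ => le_max_left _ _
  have hl2 : 0 < Real.log 2 := Real.log_pos (by norm_num)
  have hm' : (0 : ℝ) < m1 := by exact_mod_cast hm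
  have hc : (0 : ℝ) < 12 * ((Nat.log 2 L : ℝ) + 1) := by positivity
  have h1 : PiV (Bk L m1 B) (Nat.log 2 m1) 1 * (Real.exp (-9) / (12 * ((Nat.log 2 L : ℝ) + 1))) ≤
      1 / (m1 * Real.log 2) :=
    (mul_le_mul_of_nonneg_left hE hX0).trans hP
  have h2 : Real.exp (-9) * Real.exp 9 = 1 := by
    rw [← Real.exp_add]
    norm_num
  have h9 : 0 < Real.exp 9 := Real.exp_pos 9
  have h3 : PiV (Bk L m1 B) (Nat.log 2 m1) 1 =
      (PiV (Bk L m1 B) (Nat.log 2 m1) 1 * (Real.exp (-9) / (12 * ((Nat.log 2 L : ℝ) + 1)))) *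
        (12 * ((Nat.log 2 L : ℝ) + 1) * Real.exp 9) := by
    have h4 : (Real.exp (-9) / (12 * ((Nat.log 2 L : ℝ) + 1))) *
        (12 * ((Nat.log 2 L : ℝ) + 1) * Real.exp 9) = Real.exp (-9) * Real.exp 9 := by
      field_simp
    rw [mul_assoc, h4, h2, mul_one]
  rw [h3]
  refine (mul_le_mul_of_nonneg_right h1 (by positivity)).trans (le_of_eq ?_)
  ring

end Pool.Agent.VOID
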