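import Pool.Agent.VOID.Defs

/-! VOID/RepA.  Elementary properties of `Rep` (induction on the derivation).

`abs_le`: indicator functions are `≤ 1` in absolute value.
`per`: `D ∣ Q`, so `D ∣ n + Q - c ↔ D ∣ n - c`.
`one`: `D = 1`.
`shift`: `n - c - c' = n - (c + c')`.
`dvd_mono`: divisors of `Q` are divisors of `Q'`.
`sum`: induction on `s` (`zero`, `add`). -/

set_option autoImplicit false

open Finset Pool.Agent.RS

namespace Pool.Agent.VOID

variable {Q Q' : ℕ} {f g : ℤ → ℝ} {W V : ℝ}

private theorem repa_cls_abs (h : Cls Q f) (n : ℤ) : |f n| ≤ 1 := by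
  rcases h with h | ⟨D, c, -, -, h⟩
  · rw [h n, abs_zero]
    exact zero_le_one
  · rw [h n]
    split_ifs
    · rw [abs_one]
    · rw [abs_zero]
      exact zero_le_one

theorem Rep.nonneg (h : Rep Q f W) : 0 ≤ W := by
  induction h with
  | zero => exact le_rfl
  | cls _ => exact zero_le_one
  | add _ _ h1 h2 => exact add_nonneg h1 h2
  | smul c _ h1 => exact mul_nonneg (abs_nonneg c) h1
  | mono _ hWV h1 => exact h1.trans hWV

theorem Rep.abs_le (h : Rep Q f W) (n : ℤ) : |f n| ≤ W := by
  induction h with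
  | zero => rw [abs_zero]
  | cls hc => exact repa_cls_abs hc n
  | add _ _ h1 h2 => exact (abs_add_le _ _).trans (add_le_add h1 h2)
  | smul c _ h1 =>
    rw [abs_mul]
    exact mul_le_mul_of_nonneg_left h1 (abs_nonneg c)
  | mono _ hWV h1 => exact h1.trans hWV

private theorem repa_cls_per (h : Cls Q f) : Per Q f := by
  intro n
  rcases h with h | ⟨D, c, hD, -, h⟩
  · rw [h, h]
  · rw [h, h]
    have hDQ : (D : ℤ) ∣ (Q : ℤ) := Int.natCast_dvd_natCast.2 hD
    have h1 : (D : ℤ) ∣ n + Q - c ↔ (D : ℤ) ∣ n - c := by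
      have h2 : n + Q - c = (n - c) + Q := by ring
      rw [h2]
      exact dvd_add_left hDQ
    simp only [h1]

theorem Rep.per (h : Rep Q f W) : Per Q f := by
  induction h with
  | zero => intro n; rfl
  | cls hc => exact repa_cls_per hc
  | add _ _ h1 h2 =>
    intro n
    show _ + _ = _ + _
    rw [h1 n, h2 n]
  | smul c _ h1 =>
    intro n
    show c * _ = c * _
    rw [h1 n]
  | mono _ _ h1 => exact h1

theorem Rep.one : Rep Q (fun _ => 1) 1 := by
  refine Rep.cls (Or.inr ⟨1, 0, one_dvd Q, one_pos, fun n => ?_⟩)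
  rw [Nat.cast_one, if_pos (one_dvd _)]

theorem Rep.const (c : ℝ) : Rep Q (fun _ => c) |c| := by
  have h := Rep.smul (Q := Q) c Rep.one
  simpa only [mul_one] using h

theorem Rep.shift (h : Rep Q f W) (c : ℤ) : Rep Q (fun n => f (n - c)) W := by
  induction h with
  | zero => exact Rep.zero
  | cls hc =>
    refine Rep.cls ?_
    rcases hc with hc | ⟨D, c', hD, hD0, hc⟩
    · exact Or.inl fun n => hc _
    · refine Or.inr ⟨D, c + c', hD, hD0, fun n => ?_⟩
      show _ = _
      have h1 := hc (n - c)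
      rw [sub_sub] at h1
      exact h1
  | add _ _ h1 h2 => exact Rep.add h1 h2
  | smul a _ h1 => exact Rep.smul a h1
  | mono _ hWV h1 => exact Rep.mono h1 hWV

theorem Rep.dvd_mono (hQ : Q ∣ Q') (h : Rep Q f W) : Rep Q' f W := by
  induction h with
  | zero => exact Rep.zero
  | cls hc =>
    refine Rep.cls ?_
    rcases hc with hc | ⟨D, c, hD, hD0, hc⟩
    · exact Or.inl hc
    · exact Or.inr ⟨D, c, hD.trans hQ, hD0, hc⟩
  | add _ _ h1 h2 => exact Rep.add h1 h2
  | smul a _ h1 => exact Rep.smul a h1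
  | mono _ hWV h1 => exact Rep.mono h1 hWV

theorem Rep.sum {α : Type} (s : Finset α) (F : α → ℤ → ℝ) (w : α → ℝ)
    (h : ∀ i ∈ s, Rep Q (F i) (w i)) : Rep Q (fun n => ∑ i ∈ s, F i n) (∑ i ∈ s, w i) := by
  classical
  induction s using Finset.induction_on with
  | empty =>
    simp only [Finset.sum_empty]
    exact Rep.zero
  | insert i s hi ih =>
    simp only [Finset.sum_insert hi]
    exact Rep.add (h i (Finset.mem_insert_self i s))
      (ih fun j hj => h j (Finset.mem_insert_of_mem hj))

end Pool.Agent.VOID
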