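import Pool.Agent.VOID.Mean
import Pool.Agent.VOID.RepA
import Pool.Agent.VOID.RepG

/-! VOID/MomU.  Consequences of the structure `SS`.

`pi_le_one`: induction with `pi_step`, `V1 ≤ 1`, `Pi 0 = 1`.
`per`: `Rep.per`.
`mix`: with `U = Tc σ ∪ Tc σ'`, the product is `∏_{j ∈ U} ψ (n - a j) ^ e j` with
`e j = (if j ∈ Tc σ then 1 else 0) + (if j ∈ Tc σ' then 1 else 0)` in `{1,2}`; `U.card ≤ 2 N ≤ K`;
`SS.up` and `pi_le_one`; the mean is nonnegative (`mean_nonneg`).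
`mix1`: the same with `U = insert j (Tc σ ∪ Tc σ')` and `e j` increased by one (`≤ 3`).
`sq_low`: `SS.low`.  `sq_in`: exponents `2`, and `3` at `j`.  `sq_out`: `U = insert j (Tc σ)`,
exponents `2`, and `1` at `j`; then `pi_step`. -/

set_option autoImplicit false

open Finset Pool.Agent.RS

namespace Pool.Agent.VOID

variable {ι κ : Type} [Fintype ι] [DecidableEq ι] [DecidableEq κ] [Fintype κ]

/-- the standing hypotheses on the large primes `p i` and the shifts `a j` -/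
structure Hy (p : ι → ℕ) (Q1 : ℕ) (a : κ → ℤ) (z : ℝ) : Prop where
  two : ∀ i, 2 ≤ p i
  cop : ∀ i j, i ≠ j → Nat.Coprime (p i) (p j)
  Q1pos : 0 < Q1
  copQ : ∀ i, Nat.Coprime Q1 (p i)
  sep : ∀ i j j', j ≠ j' → ¬ (p i : ℤ) ∣ a j - a j'
  zpos : 0 < z
  zle : ∀ i, z ≤ (p i : ℝ) - 1

variable {Q1 : ℕ} {ψ : ℤ → ℝ} {Wψ : ℝ} {Pi : ℕ → ℝ} {V1 : ℝ} {K : ℕ} {a : κ → ℤ}

theorem SS.pi_le_one (h : SS Q1 ψ Wψ Pi V1 K a) (r : ℕ) : Pi r ≤ 1 := by
  induction r with
  | zero => exact h.pi_zero.le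
  | succ r ih =>
    calc Pi (r + 1) ≤ V1 * Pi r := h.pi_step r
      _ ≤ 1 * 1 := mul_le_mul h.V1_le_one ih (h.pi_nonneg r) zero_le_one
      _ = 1 := one_mul 1

theorem SS.per (h : SS Q1 ψ Wψ Pi V1 K a) : Per Q1 ψ := h.rep.per

omit [Fintype κ] in
private theorem momu_ext {T U : Finset κ} (hT : T ⊆ U) (f : κ → ℝ) :
    ∏ j ∈ T, f j = ∏ j ∈ U, f j ^ (if j ∈ T then 1 else 0) := by
  rw [← Finset.prod_subset hT (fun j _ hj => by rw [if_neg hj, pow_zero])]
  refine Finset.prod_congr rfl fun j hj => ?_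
  rw [if_pos hj, pow_one]

omit [Fintype κ] in
private theorem momu_single {U : Finset κ} {j : κ} (hj : j ∈ U) (f : κ → ℝ) :
    f j = ∏ k ∈ U, f k ^ (if k = j then 1 else 0) := by
  have h := momu_ext (T := {j}) (U := U) (Finset.singleton_subset_iff.2 hj) f
  rw [Finset.prod_singleton] at h
  simpa only [Finset.mem_singleton] using h

private theorem momu_ps_nonneg (h : SS Q1 ψ Wψ Pi V1 K a) (σ : ι → Option κ) (n : ℤ) :
    0 ≤ Ps ψ a σ n := Finset.prod_nonneg fun _ _ => h.nonneg _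

theorem SS.mix (h : SS Q1 ψ Wψ Pi V1 K a) {N : ℕ} (hK : 2 * N ≤ K) (σ σ' : ι → Option κ)
    (hσ : (Tc σ).card ≤ N) (hσ' : (Tc σ').card ≤ N) :
    |mean Q1 (fun n => Ps ψ a σ n * Ps ψ a σ' n)| ≤ 2 := by
  rw [abs_of_nonneg (mean_nonneg fun n =>
    mul_nonneg (momu_ps_nonneg h σ n) (momu_ps_nonneg h σ' n))]
  have hU : (Tc σ ∪ Tc σ').card ≤ K := (Finset.card_union_le _ _).trans (by omega)
  have h1 := h.up (Tc σ ∪ Tc σ') (fun j => (if j ∈ Tc σ then 1 else 0) +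
    (if j ∈ Tc σ' then 1 else 0)) hU (by
      intro j hj
      rw [Finset.mem_union] at hj
      split_ifs with h1 h2 <;> simp_all)
  have h2 : (fun n => Ps ψ a σ n * Ps ψ a σ' n) = fun n => ∏ j ∈ Tc σ ∪ Tc σ',
      ψ (n - a j) ^ ((if j ∈ Tc σ then 1 else 0) + (if j ∈ Tc σ' then 1 else 0)) := by
    funext n
    unfold Ps
    rw [momu_ext (U := Tc σ ∪ Tc σ') Finset.subset_union_left (fun j => ψ (n - a j)),
      momu_ext (U := Tc σ ∪ Tc σ') (T := Tc σ') Finset.subset_union_right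
        (fun j => ψ (n - a j)), ← Finset.prod_mul_distrib]
    refine Finset.prod_congr rfl fun j _ => ?_
    rw [pow_add]
  rw [h2]
  refine h1.trans ?_
  have h3 := h.pi_le_one (Tc σ ∪ Tc σ').card
  linarith

theorem SS.mix1 (h : SS Q1 ψ Wψ Pi V1 K a) {N : ℕ} (hK : 2 * N + 1 ≤ K) (j : κ)
    (σ σ' : ι → Option κ) (hσ : (Tc σ).card ≤ N) (hσ' : (Tc σ').card ≤ N) :
    |mean Q1 (fun n => ψ (n - a j) * (Ps ψ a σ n * Ps ψ a σ' n))| ≤ 2 := by
  rw [abs_of_nonneg (mean_nonneg fun n =>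
    mul_nonneg (h.nonneg _) (mul_nonneg (momu_ps_nonneg h σ n) (momu_ps_nonneg h σ' n)))]
  obtain ⟨U, hUdef⟩ : ∃ U, U = insert j (Tc σ ∪ Tc σ') := ⟨_, rfl⟩
  have hU : U.card ≤ K := by
    rw [hUdef]
    refine (Finset.card_insert_le _ _).trans ?_
    have := Finset.card_union_le (Tc σ) (Tc σ')
    omega
  have hs1 : Tc σ ⊆ U := by
    rw [hUdef]
    exact Finset.subset_union_left.trans (Finset.subset_insert _ _)
  have hs2 : Tc σ' ⊆ U := by
    rw [hUdef]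
    exact Finset.subset_union_right.trans (Finset.subset_insert _ _)
  have hj : j ∈ U := by
    rw [hUdef]
    exact Finset.mem_insert_self _ _
  have h1 := h.up U (fun k => (if k = j then 1 else 0) + ((if k ∈ Tc σ then 1 else 0) +
    (if k ∈ Tc σ' then 1 else 0))) hU (by
      intro k hk
      rw [hUdef, Finset.mem_insert, Finset.mem_union] at hk
      split_ifs with h1 h2 h3 <;> simp_all)
  have h2 : (fun n => ψ (n - a j) * (Ps ψ a σ n * Ps ψ a σ' n)) = fun n => ∏ k ∈ U,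
      ψ (n - a k) ^ ((if k = j then 1 else 0) + ((if k ∈ Tc σ then 1 else 0) +
        (if k ∈ Tc σ' then 1 else 0))) := by
    funext n
    unfold Ps
    rw [momu_ext hs1 (fun j => ψ (n - a j)), momu_ext hs2 (fun j => ψ (n - a j)),
      ← Finset.prod_mul_distrib, momu_single hj (fun j => ψ (n - a j)),
      ← Finset.prod_mul_distrib]
    refine Finset.prod_congr rfl fun k _ => ?_
    rw [pow_add, pow_add]
  rw [h2]
  refine h1.trans ?_
  have h3 := h.pi_le_one U.card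
  linarith

theorem SS.sq_low (h : SS Q1 ψ Wψ Pi V1 K a) (σ : ι → Option κ) (hσ : (Tc σ).card ≤ K) :
    Pi (Tc σ).card ≤ mean Q1 (fun n => Ps ψ a σ n ^ 2) := by
  have h1 := h.low (Tc σ) hσ
  have h2 : (fun n => Ps ψ a σ n ^ 2) = fun n => ∏ j ∈ Tc σ, ψ (n - a j) ^ 2 := by
    funext n
    unfold Ps
    rw [Finset.prod_pow]
  rw [h2]
  exact h1

theorem SS.sq_in (h : SS Q1 ψ Wψ Pi V1 K a) (σ : ι → Option κ) (hσ : (Tc σ).card ≤ K) (j : κ)
    (hj : j ∈ Tc σ) :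
    mean Q1 (fun n => ψ (n - a j) * Ps ψ a σ n ^ 2) ≤ 2 * Pi (Tc σ).card := by
  have h1 := h.up (Tc σ) (fun k => (if k = j then 1 else 0) + 2) hσ (by
    intro k _
    split_ifs <;> omega)
  have h2 : (fun n => ψ (n - a j) * Ps ψ a σ n ^ 2) = fun n => ∏ k ∈ Tc σ,
      ψ (n - a k) ^ ((if k = j then 1 else 0) + 2) := by
    funext n
    unfold Ps
    rw [← Finset.prod_pow, momu_single hj (fun j => ψ (n - a j)), ← Finset.prod_mul_distrib]
    refine Finset.prod_congr rfl fun k _ => ?_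
    rw [pow_add]
  rw [h2]
  exact h1

theorem SS.sq_out (h : SS Q1 ψ Wψ Pi V1 K a) (σ : ι → Option κ) (hσ : (Tc σ).card + 1 ≤ K) (j : κ)
    (hj : j ∉ Tc σ) :
    mean Q1 (fun n => ψ (n - a j) * Ps ψ a σ n ^ 2) ≤ 2 * (V1 * Pi (Tc σ).card) := by
  have hc : (insert j (Tc σ)).card = (Tc σ).card + 1 := Finset.card_insert_of_notMem hj
  have h1 := h.up (insert j (Tc σ)) (fun k => if k = j then 1 else 2) (by omega) (by
    intro k _
    split_ifs <;> omega)
  have h2 : (fun n => ψ (n - a j) * Ps ψ a σ n ^ 2) = fun n => ∏ k ∈ insert j (Tc σ),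
      ψ (n - a k) ^ (if k = j then 1 else 2) := by
    funext n
    unfold Ps
    rw [Finset.prod_insert hj, if_pos rfl, pow_one, ← Finset.prod_pow]
    congr 1
    refine Finset.prod_congr rfl fun k hk => ?_
    have hkj : k ≠ j := fun e => hj (e ▸ hk)
    rw [if_neg hkj]
  rw [h2]
  refine h1.trans ?_
  rw [hc]
  have h3 := h.pi_step (Tc σ).card
  linarith

end Pool.Agent.VOID
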