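import Pool.Agent.VOID.Off
import Pool.Agent.VOID.MomU

/-! VOID/MomA.  Lower bound for the mean of the square of the weight.

`quad` with `F0 = 1`, `Z = Yd p y D`, `U = 2` (`SS.mix`; `Z σ ≠ 0` gives `PP p (supp σ) ≤ D`, so
`(Tc σ).card ≤ (supp σ).card ≤ N` by `card_Tc_le` and `hN`), `off` (`|Yd| ≤ 1`), and for the diagonal
terms `SS.sq_low`. -/

set_option autoImplicit false

open Finset Pool.Agent.RS

namespace Pool.Agent.VOID

variable {ι κ : Type} [Fintype ι] [DecidableEq ι] [DecidableEq κ] [Fintype κ]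

theorem Yd_abs {p : ι → ℕ} {y : Finset ι → ℝ} (hy1 : ∀ S, |y S| ≤ 1) (D : ℝ)
    (σ : ι → Option κ) : |Yd p y D σ| ≤ 1 := by
  unfold Yd
  split_ifs
  · unfold Yt
    rw [Finset.abs_prod]
    exact Finset.prod_le_one (fun _ _ => abs_nonneg _) fun _ _ => hy1 _
  · rw [abs_zero]
    exact zero_le_one

theorem Yd_supp {p : ι → ℕ} {y : Finset ι → ℝ} {D : ℝ} {σ : ι → Option κ}
    (h : Yd p y D σ ≠ 0) : PP p (supp σ) ≤ D := by
  by_contra h1
  apply h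
  unfold Yd
  rw [if_neg h1]

omit [DecidableEq ι] in
private theorem moma_PH {p : ι → ℕ} (hp : ∀ i, 2 ≤ p i) (S : Finset ι) : 0 < PH p S := by
  unfold PH
  refine Finset.prod_pos fun i _ => ?_
  have h1 : (2 : ℝ) ≤ (p i : ℝ) := by exact_mod_cast hp i
  linarith

theorem ZZ_ge_one (p : ι → ℕ) (y : Finset ι → ℝ) (hp : ∀ i, 2 ≤ p i) (hy0 : y ∅ = 1) {D : ℝ}
    (hD : 1 ≤ D) {Pi : ℕ → ℝ} (hPi : ∀ r, 0 ≤ Pi r) (hPi0 : Pi 0 = 1) : 1 ≤ ZZ κ p y D Pi := by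
  have h1 : ∀ σ : ι → Option κ, 0 ≤ Yd p y D σ ^ 2 / PH p (supp σ) * Pi (Tc σ).card := fun σ =>
    mul_nonneg (div_nonneg (sq_nonneg _) (moma_PH hp _).le) (hPi _)
  unfold ZZ
  refine le_trans ?_ (Finset.single_le_sum (f := fun σ : ι → Option κ =>
    Yd p y D σ ^ 2 / PH p (supp σ) * Pi (Tc σ).card) (fun σ _ => h1 σ)
    (mem_univ (fun _ => none : ι → Option κ)))
  have e1 : supp (fun _ => none : ι → Option κ) = ∅ := by
    ext i
    simp [mem_supp]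
  have e2 : ∀ j : κ, cell (fun _ => none : ι → Option κ) j = ∅ := by
    intro j
    ext i
    simp [mem_cell]
  have e3 : Tc (fun _ => none : ι → Option κ) = ∅ := by
    unfold Tc
    rw [Finset.filter_eq_empty_iff]
    intro j _ h
    exact h (e2 j)
  have e4 : Yd p y D (fun _ => none : ι → Option κ) = 1 := by
    unfold Yd
    rw [if_pos (by rw [e1, PP_empty]; exact hD)]
    unfold Yt
    refine Finset.prod_eq_one fun j _ => ?_
    rw [e2, hy0]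
  rw [e4, e1, e3, PH_empty, card_empty, hPi0]
  norm_num

theorem mom0 {p : ι → ℕ} {Q1 : ℕ} {a : κ → ℤ} {z : ℝ} (h : Hy p Q1 a z) {ψ : ℤ → ℝ} {Wψ : ℝ}
    {Pi : ℕ → ℝ} {V1 : ℝ} {N : ℕ} (hs : SS Q1 ψ Wψ Pi V1 (2 * N + 2) a) {D : ℝ}
    (hN : ∀ S : Finset ι, PP p S ≤ D → S.card ≤ N) {y : Finset ι → ℝ} (hy1 : ∀ S, |y S| ≤ 1) :
    ZZ κ p y D Pi - 2 * offB κ p N z ≤
      mean (Q1 * ∏ i, p i) (fun n => GZ p a ψ (Yd p y D) n ^ 2) := by
  have hN' : ∀ σ : ι → Option κ, Yd p y D σ ≠ 0 → (supp σ).card ≤ N := fun σ hσ =>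
    hN _ (Yd_supp hσ)
  have hT : ∀ σ : ι → Option κ, Yd p y D σ ≠ 0 → (Tc σ).card ≤ N := fun σ hσ =>
    (card_Tc_le σ).trans (hN' σ hσ)
  have h1 := quad h.two h.cop h.Q1pos h.copQ h.sep hs.per (F0 := fun _ => 1)
    (fun _ => rfl) (Yd p y D) (U := 2) (by norm_num) (by
      intro σ σ' hσ hσ'
      simp only [one_mul]
      exact hs.mix (by omega) σ σ' (hT σ hσ) (hT σ' hσ'))
  simp only [one_mul] at h1
  have h2 := off h.two h.zpos h.zle (Yd p y D) (Yd_abs hy1 D) hN'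
  have h3 : ZZ κ p y D Pi ≤
      ∑ σ, Yd p y D σ ^ 2 / PH p (supp σ) * mean Q1 (fun n => Ps ψ a σ n ^ 2) := by
    unfold ZZ
    refine Finset.sum_le_sum fun σ _ => ?_
    by_cases hσ : Yd p y D σ = 0
    · rw [hσ]
      simp
    · refine mul_le_mul_of_nonneg_left ?_ (div_nonneg (sq_nonneg _) (moma_PH h.two _).le)
      exact hs.sq_low σ (by have := hT σ hσ; omega)
  have h4 := (abs_le.1 h1).1
  linarith

end Pool.Agent.VOID
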