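import Pool.Agent.VOID.MomA
import Pool.Agent.RS.Rough

/-! VOID/MomC.  The weights `Zm`.

`mom2`: the mean of `ψ (n - a m) * F_m ^ 2`; `zm_sumV`: the diagonal sum for the weights `Zm`. -/

set_option autoImplicit false

open Finset Pool.Agent.RS

namespace Pool.Agent.VOID

variable {ι κ : Type} [Fintype ι] [DecidableEq ι] [DecidableEq κ] [Fintype κ]

theorem mom2 {p : ι → ℕ} {Q1 : ℕ} {a : κ → ℤ} {z : ℝ} (h : Hy p Q1 a z) {ψ : ℤ → ℝ} {Wψ : ℝ}
    {Pi : ℕ → ℝ} {V1 : ℝ} {N : ℕ} (hs : SS Q1 ψ Wψ Pi V1 (2 * N + 2) a) {D : ℝ}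
    (hN : ∀ S : Finset ι, PP p S ≤ D → S.card ≤ N) {y : Finset ι → ℝ} (hy1 : ∀ S, |y S| ≤ 1)
    (hc1 : ∀ U, |cc p y D U| ≤ 1) (m : κ) :
    mean (Q1 * ∏ i, p i) (fun n => ψ (n - a m) * GZ p a ψ (Zm p y D m) n ^ 2) ≤
      2 * V1 * (∑ σ, Zm p y D m σ ^ 2 / PH p (supp σ) * Pi (Tc σ).card) +
        2 * offB κ p N z := by
  classical
  have hPH : ∀ σ : ι → Option κ, 0 < PH p (supp σ) := fun σ =>
    lt_of_lt_of_le one_pos (one_le_PH h.two _)
  have hcard : ∀ σ, Zm p y D m σ ≠ 0 → (supp σ).card ≤ N := fun σ hσ =>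
    hN _ (Zm_supp h.two y m σ hσ)
  have hTc : ∀ σ, Zm p y D m σ ≠ 0 → (Tc σ).card ≤ N := fun σ hσ =>
    (card_Tc_le σ).trans (hcard σ hσ)
  have hF0 : Per Q1 (fun n => ψ (n - a m)) := by
    intro n
    have h1 := hs.per (n - a m)
    have h2 : n + (Q1 : ℤ) - a m = n - a m + (Q1 : ℤ) := by ring
    show ψ (n + (Q1 : ℤ) - a m) = ψ (n - a m)
    rw [h2]
    exact h1
  have h1 := quad h.two h.cop h.Q1pos h.copQ h.sep hs.per hF0 (Zm p y D m)
    (U := 2) (by norm_num) fun σ σ' hσ hσ' =>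
      hs.mix1 (by omega) m σ σ' (hTc σ hσ) (hTc σ' hσ')
  have h2 := off h.two h.zpos h.zle (Zm p y D m) (Zm_abs y hy1 hc1 m) hcard
  have h3 : ∑ σ, Zm p y D m σ ^ 2 / PH p (supp σ) *
      mean Q1 (fun n => ψ (n - a m) * Ps ψ a σ n ^ 2) ≤
      2 * V1 * (∑ σ, Zm p y D m σ ^ 2 / PH p (supp σ) * Pi (Tc σ).card) := by
    rw [Finset.mul_sum]
    refine Finset.sum_le_sum fun σ _ => ?_
    by_cases hz : Zm p y D m σ = 0
    · rw [hz]
      simp
    · have hm : m ∉ Tc σ := by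
        intro hm
        apply hz
        unfold Zm
        rw [if_neg]
        exact (Finset.mem_filter.1 hm).2
      have h4 := hs.sq_out σ (by have := hTc σ hz; omega) m hm
      have hq : 0 ≤ Zm p y D m σ ^ 2 / PH p (supp σ) := div_nonneg (sq_nonneg _) (hPH σ).le
      calc Zm p y D m σ ^ 2 / PH p (supp σ) *
            mean Q1 (fun n => ψ (n - a m) * Ps ψ a σ n ^ 2)
          ≤ Zm p y D m σ ^ 2 / PH p (supp σ) * (2 * (V1 * Pi (Tc σ).card)) :=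
            mul_le_mul_of_nonneg_left h4 hq
        _ = 2 * V1 * (Zm p y D m σ ^ 2 / PH p (supp σ) * Pi (Tc σ).card) := by ring
  have h5 := (abs_le.1 h1).2
  linarith

open Classical in
theorem zm_sumV {p : ι → ℕ} (hp : ∀ i, 2 ≤ p i) (y : Finset ι → ℝ) {D D2 δ τ : ℝ}
    {Pi : ℕ → ℝ} (hPi : ∀ r, 0 ≤ Pi r)
    (hc1 : ∀ U, |cc p y D U| ≤ 1) (hc2 : ∀ U, PP p U ≤ D2 → |cc p y D U| ≤ δ)
    (htail : ∑ σ ∈ (univ : Finset (ι → Option κ)).filter (fun σ => D2 < PP p (supp σ)),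
        Yd p y D σ ^ 2 / PH p (supp σ) * Pi (Tc σ).card ≤ τ * ZZ κ p y D Pi) (m : κ) :
    ∑ σ, Zm p y D m σ ^ 2 / PH p (supp σ) * Pi (Tc σ).card ≤
      (δ ^ 2 + τ) * ZZ κ p y D Pi := by
  have hPH : ∀ σ : ι → Option κ, 0 < PH p (supp σ) := fun σ =>
    lt_of_lt_of_le one_pos (one_le_PH hp _)
  have key : ∀ σ : ι → Option κ, Zm p y D m σ ^ 2 ≤ Yd p y D σ ^ 2 * cc p y D (supp σ) ^ 2 := by
    intro σ
    unfold Zm
    by_cases hc : cell σ m = ∅
    · rw [if_pos hc]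
      by_cases hD : PP p (supp σ) ≤ D
      · unfold Yd
        rw [if_pos hD, mul_pow]
      · rw [cc_eq_zero hp y (lt_of_not_ge hD)]
        simp
    · rw [if_neg hc]
      have h0 : 0 ≤ Yd p y D σ ^ 2 * cc p y D (supp σ) ^ 2 :=
        mul_nonneg (sq_nonneg _) (sq_nonneg _)
      simpa using h0
  have hterm : ∀ σ : ι → Option κ, Zm p y D m σ ^ 2 / PH p (supp σ) * Pi (Tc σ).card ≤
      δ ^ 2 * (Yd p y D σ ^ 2 / PH p (supp σ) * Pi (Tc σ).card) +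
        (if D2 < PP p (supp σ) then Yd p y D σ ^ 2 / PH p (supp σ) * Pi (Tc σ).card else 0) := by
    intro σ
    have hq : 0 ≤ Yd p y D σ ^ 2 / PH p (supp σ) * Pi (Tc σ).card :=
      mul_nonneg (div_nonneg (sq_nonneg _) (hPH σ).le) (hPi _)
    have h1 : Zm p y D m σ ^ 2 / PH p (supp σ) * Pi (Tc σ).card ≤
        (Yd p y D σ ^ 2 / PH p (supp σ) * Pi (Tc σ).card) * cc p y D (supp σ) ^ 2 := by
      have h2 : Zm p y D m σ ^ 2 / PH p (supp σ) ≤
          (Yd p y D σ ^ 2 / PH p (supp σ)) * cc p y D (supp σ) ^ 2 := by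
        rw [div_mul_eq_mul_div]
        exact div_le_div_of_nonneg_right (key σ) (hPH σ).le
      calc Zm p y D m σ ^ 2 / PH p (supp σ) * Pi (Tc σ).card
          ≤ (Yd p y D σ ^ 2 / PH p (supp σ)) * cc p y D (supp σ) ^ 2 * Pi (Tc σ).card :=
            mul_le_mul_of_nonneg_right h2 (hPi _)
        _ = _ := by ring
    by_cases h : D2 < PP p (supp σ)
    · rw [if_pos h]
      have h2 : cc p y D (supp σ) ^ 2 ≤ 1 := by
        have := hc1 (supp σ)
        rw [← sq_abs]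
        exact pow_le_one₀ (abs_nonneg _) this
      have h3 := mul_le_of_le_one_right hq h2
      have h4 : 0 ≤ δ ^ 2 * (Yd p y D σ ^ 2 / PH p (supp σ) * Pi (Tc σ).card) :=
        mul_nonneg (sq_nonneg _) hq
      linarith
    · rw [if_neg h]
      have h2 : cc p y D (supp σ) ^ 2 ≤ δ ^ 2 := by
        have := hc2 (supp σ) (not_lt.mp h)
        rw [← sq_abs]
        exact pow_le_pow_left₀ (abs_nonneg _) this 2
      have h3 := mul_le_mul_of_nonneg_left h2 hq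
      linarith
  unfold ZZ
  calc ∑ σ, Zm p y D m σ ^ 2 / PH p (supp σ) * Pi (Tc σ).card ≤
      ∑ σ : ι → Option κ, (δ ^ 2 * (Yd p y D σ ^ 2 / PH p (supp σ) * Pi (Tc σ).card) +
        (if D2 < PP p (supp σ) then Yd p y D σ ^ 2 / PH p (supp σ) * Pi (Tc σ).card else 0)) :=
        Finset.sum_le_sum (fun σ _ => hterm σ)
    _ = δ ^ 2 * ∑ σ : ι → Option κ, Yd p y D σ ^ 2 / PH p (supp σ) * Pi (Tc σ).card +
        ∑ σ ∈ (univ : Finset (ι → Option κ)).filter (fun σ => D2 < PP p (supp σ)),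
          Yd p y D σ ^ 2 / PH p (supp σ) * Pi (Tc σ).card := by
        rw [Finset.sum_add_distrib, ← Finset.mul_sum, Finset.sum_filter]
    _ ≤ δ ^ 2 * ∑ σ : ι → Option κ, Yd p y D σ ^ 2 / PH p (supp σ) * Pi (Tc σ).card +
        τ * ∑ σ : ι → Option κ, Yd p y D σ ^ 2 / PH p (supp σ) * Pi (Tc σ).card := by
        refine add_le_add le_rfl ?_
        exact htail
    _ = _ := by ring

end Pool.Agent.VOID
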