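import Pool.Agent.VOID.RepA

/-! VOID/RepAvg.  The average along an arithmetic progression with difference prime to `Q`.

For the indicator of the class `c` modulo `D ∣ Q` (so `D` is prime to `M`): the `t < T` with
`D ∣ n0 + M t - c` are those in one residue class modulo `D` (the inverse of `M`), so their number
is within `1` of `T / D`; and `mean Q` of the indicator is exactly `1 / D` (`range Q` consists of
`Q / D` full periods).  Then induction on the derivation (`mean` is linear: unfold and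
`Finset.sum_add_distrib`, `Finset.mul_sum`).  `RW.sum_period` (Pool/Agent/RW/Avg.lean, imported by
`Pool.Agent.RS.Avg`) may help. -/

set_option autoImplicit false

open Finset Pool.Agent.RS

namespace Pool.Agent.VOID

private theorem repavg_res {D M : ℕ} (hD : 0 < D) (hM : Nat.Coprime M D) (e : ℤ) :
    ∃ v : ℕ, ∀ t : ℕ, (D : ℤ) ∣ e + M * (t : ℤ) ↔ t ≡ v [MOD D] := by
  have : NeZero D := ⟨hD.ne'⟩
  obtain ⟨u, hu⟩ : ∃ u : ZMod D, (M : ZMod D) * u = 1 := by
    have h1 : IsUnit (M : ZMod D) := (ZMod.isUnit_iff_coprime M D).2 hM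
    obtain ⟨w, hw⟩ := h1
    exact ⟨((w⁻¹ : (ZMod D)ˣ) : ZMod D), by rw [← hw]; simp⟩
  refine ⟨(-(e : ZMod D) * u).val, fun t => ?_⟩
  rw [← ZMod.natCast_eq_natCast_iff, ZMod.natCast_val, ZMod.cast_id', id_eq,
    ← ZMod.intCast_zmod_eq_zero_iff_dvd]
  push_cast
  constructor
  · intro h
    have h2 : (M : ZMod D) * (t : ZMod D) = -(e : ZMod D) := by
      linear_combination h
    calc (t : ZMod D) = ((M : ZMod D) * u) * t := by rw [hu, one_mul]
      _ = (M : ZMod D) * (t : ZMod D) * u := by ring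
      _ = -(e : ZMod D) * u := by rw [h2]
  · intro h
    rw [h]
    calc (e : ZMod D) + (M : ZMod D) * (-(e : ZMod D) * u)
        = (e : ZMod D) - e * ((M : ZMod D) * u) := by ring
      _ = 0 := by rw [hu, mul_one, sub_self]

private theorem repavg_count {D : ℕ} (hD : 0 < D) (v T : ℕ) :
    |(((range T).filter (fun t => t ≡ v [MOD D])).card : ℝ) - (T : ℝ) / D| ≤ 1 := by
  have h1 : ((range T).filter (fun t => t ≡ v [MOD D])).card = Nat.count (· ≡ v [MOD D]) T :=
    (Nat.count_eq_card_filter_range _ _).symm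
  rw [h1, Nat.count_modEq_card T hD v]
  have hDr : (0 : ℝ) < D := by exact_mod_cast hD
  have h2 : (T : ℝ) = D * ((T / D : ℕ) : ℝ) + ((T % D : ℕ) : ℝ) := by
    exact_mod_cast (Nat.div_add_mod T D).symm
  have h3 : ((T % D : ℕ) : ℝ) < D := by exact_mod_cast Nat.mod_lt T hD
  have h4 : (0 : ℝ) ≤ ((T % D : ℕ) : ℝ) := by positivity
  have h5 : (T : ℝ) / D = ((T / D : ℕ) : ℝ) + ((T % D : ℕ) : ℝ) / D := by
    rw [h2]
    field_simp
  have h6 : ((T % D : ℕ) : ℝ) / D < 1 := by
    rw [div_lt_one hDr]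
    exact h3
  have h7 : 0 ≤ ((T % D : ℕ) : ℝ) / D := by positivity
  rw [h5]
  split_ifs with h
  · push_cast
    rw [abs_le]
    constructor <;> linarith
  · push_cast
    rw [abs_le]
    constructor <;> linarith

private theorem repavg_mean {D Q : ℕ} (hQ : 0 < Q) (hD : 0 < D) (hDQ : D ∣ Q) (v : ℕ) :
    (((range Q).filter (fun t => t ≡ v [MOD D])).card : ℝ) / Q = 1 / D := by
  have h1 : ((range Q).filter (fun t => t ≡ v [MOD D])).card = Nat.count (· ≡ v [MOD D]) Q :=
    (Nat.count_eq_card_filter_range _ _).symm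
  rw [h1, Nat.count_modEq_card Q hD v, Nat.mod_eq_zero_of_dvd hDQ]
  obtain ⟨k, rfl⟩ := hDQ
  have hk : 0 < k := Nat.pos_of_mul_pos_left hQ |> fun h => by
    rcases Nat.eq_zero_or_pos k with h0 | h0
    · subst h0
      simp at hQ
    · exact h0
  rw [Nat.mul_div_cancel_left k hD]
  have hDr : (D : ℝ) ≠ 0 := by exact_mod_cast hD.ne'
  have hkr : (k : ℝ) ≠ 0 := by exact_mod_cast hk.ne'
  simp only [Nat.not_lt_zero, if_false, add_zero]
  push_cast
  field_simp

theorem Rep.avg {Q M : ℕ} {f : ℤ → ℝ} {W : ℝ} (hQ : 0 < Q) (hM : Nat.Coprime M Q)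
    (h : Rep Q f W) (T : ℕ) (n0 : ℤ) :
    |∑ t ∈ range T, f (n0 + M * (t : ℤ)) - T * mean Q f| ≤ 2 * W := by
  induction h with
  | zero => simp [mean]
  | cls hf =>
    rcases hf with hf | ⟨D, c, hDQ, hD, hf⟩
    · simp only [hf, mean]
      simp
    · have hMD : Nat.Coprime M D := Nat.Coprime.coprime_dvd_right hDQ hM
      obtain ⟨v, hv⟩ := repavg_res hD hMD (n0 - c)
      obtain ⟨v', hv'⟩ := repavg_res hD (Nat.coprime_one_left D) (-c)
      have e1 : ∑ t ∈ range T, (if (D : ℤ) ∣ n0 + M * (t : ℤ) - c then (1 : ℝ) else 0) =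
          (((range T).filter (fun t => t ≡ v [MOD D])).card : ℝ) := by
        rw [Finset.card_filter]
        push_cast
        apply Finset.sum_congr rfl
        intro t _
        have : (D : ℤ) ∣ n0 + M * (t : ℤ) - c ↔ t ≡ v [MOD D] := by
          rw [← hv t]
          rw [show n0 + (M : ℤ) * (t : ℤ) - c = n0 - c + M * (t : ℤ) by ring]
        simp only [this]
      have e2 : mean Q (fun n => if (D : ℤ) ∣ n - c then (1 : ℝ) else 0) = 1 / D := by
        rw [← repavg_mean hQ hD hDQ v']
        unfold mean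
        congr 1
        rw [Finset.card_filter]
        push_cast
        apply Finset.sum_congr rfl
        intro t _
        have : (D : ℤ) ∣ (t : ℤ) - c ↔ t ≡ v' [MOD D] := by
          rw [← hv' t]
          rw [show (t : ℤ) - c = -c + ((1 : ℕ) : ℤ) * (t : ℤ) by push_cast; ring]
        simp only [this]
      have hfe : ∀ g : ℤ → ℝ, (∀ n, g n = if (D : ℤ) ∣ n - c then 1 else 0) →
          g = fun n => if (D : ℤ) ∣ n - c then (1 : ℝ) else 0 := fun g hg => funext hg
      rw [hfe _ hf, e2]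
      have e3 : ∑ t ∈ range T, (fun n : ℤ => if (D : ℤ) ∣ n - c then (1 : ℝ) else 0)
          (n0 + M * (t : ℤ)) = (((range T).filter (fun t => t ≡ v [MOD D])).card : ℝ) := e1
      rw [e3]
      have h5 := repavg_count hD v T
      rw [show (T : ℝ) * (1 / D) = (T : ℝ) / D by ring]
      linarith
  | @add f g W V _ _ ihf ihg =>
    have hm : mean Q (fun n => f n + g n) = mean Q f + mean Q g := by
      unfold mean
      rw [Finset.sum_add_distrib, add_div]
    rw [hm, Finset.sum_add_distrib]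
    have e : ∑ t ∈ range T, f (n0 + M * (t : ℤ)) + ∑ t ∈ range T, g (n0 + M * (t : ℤ)) -
        T * (mean Q f + mean Q g) = (∑ t ∈ range T, f (n0 + M * (t : ℤ)) - T * mean Q f) +
        (∑ t ∈ range T, g (n0 + M * (t : ℤ)) - T * mean Q g) := by ring
    rw [e]
    calc _ ≤ |∑ t ∈ range T, f (n0 + M * (t : ℤ)) - T * mean Q f| +
          |∑ t ∈ range T, g (n0 + M * (t : ℤ)) - T * mean Q g| := abs_add_le _ _
      _ ≤ 2 * W + 2 * V := add_le_add ihf ihg
      _ = 2 * (W + V) := by ring
  | @smul c f W _ ih =>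
    have hm : mean Q (fun n => c * f n) = c * mean Q f := by
      unfold mean
      rw [← Finset.mul_sum, mul_div_assoc]
    rw [hm, ← Finset.mul_sum]
    have e : c * ∑ t ∈ range T, f (n0 + M * (t : ℤ)) - T * (c * mean Q f) =
        c * (∑ t ∈ range T, f (n0 + M * (t : ℤ)) - T * mean Q f) := by ring
    rw [e, abs_mul]
    calc _ ≤ |c| * (2 * W) := mul_le_mul_of_nonneg_left ih (abs_nonneg _)
      _ = 2 * (|c| * W) := by ring
  | mono _ hWV ih => linarith

end Pool.Agent.VOID
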