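import Pool.Agent.VOID.MomB
import Pool.Agent.VOID.MomC
import Pool.Agent.VOID.RepAvg

/-! VOID/AbsT.  Transfer of the mean values to the average along the progression `n0 + M t`, `t < T`.

`Wg = C * (3 * Wψ) ^ N` bounds the `Rep`-weight of `GZ p a ψ (Yd p y D)` and of
`GZ p a ψ (Zm p y D m)` (`rep_GZ`; the `σ` with `Yd σ ≠ 0` or `Zm σ ≠ 0` have `PP p (supp σ) ≤ D`).
`Rep.mul`/`Rep.pow`: the squares have weight `Wg ^ 2`, times `ψ (n - a j)` (`Rep.shift`,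
`Rep.dvd_mono`): `Wψ * Wg ^ 2`.  Then `Rep.avg` with `Q = Q1 * ∏ p i` and `mom0`, `mom1sum`,
`mom2` + `zm_sumV`. -/

set_option autoImplicit false

open Finset Pool.Agent.RS

namespace Pool.Agent.VOID

variable {ι κ : Type} [Fintype ι] [DecidableEq ι] [DecidableEq κ] [Fintype κ]

omit [DecidableEq ι] [DecidableEq κ] [Fintype κ] [Fintype ι] in
private theorem abst_pp {p : ι → ℕ} (hp : ∀ i, 2 ≤ p i) (S : Finset ι) : 1 ≤ PP p S := by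
  classical
  unfold PP
  refine Finset.induction_on S (by simp) fun i S hi ih => ?_
  rw [Finset.prod_insert hi]
  have h1 : (2 : ℝ) ≤ (p i : ℝ) := by exact_mod_cast hp i
  nlinarith

private theorem abst_zm {p : ι → ℕ} {y : Finset ι → ℝ} (hy1 : ∀ S, |y S| ≤ 1)
    {D : ℝ} (hc1 : ∀ U, |cc p y D U| ≤ 1) (m : κ) (σ : ι → Option κ) :
    |Zm p y D m σ| ≤ 1 := by
  unfold Zm
  split_ifs
  · rw [abs_mul, Yt, Finset.abs_prod]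
    exact mul_le_one₀ (Finset.prod_le_one (fun j _ => abs_nonneg _) fun j _ => hy1 _)
      (abs_nonneg _) (hc1 _)
  · rw [abs_zero]
    exact zero_le_one

private theorem abst_zm_supp {p : ι → ℕ} (hp : ∀ i, 2 ≤ p i) {y : Finset ι → ℝ}
    {D : ℝ} {m : κ} {σ : ι → Option κ} (h : Zm p y D m σ ≠ 0) : PP p (supp σ) ≤ D := by
  unfold Zm at h
  have h1 : cc p y D (supp σ) ≠ 0 := by
    intro h0
    rw [h0, mul_zero] at h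
    simp at h
  unfold cc at h1
  obtain ⟨S, _, hS⟩ := Finset.exists_ne_zero_of_sum_ne_zero h1
  have h2 : PP p S * PP p (supp σ) ≤ D := by
    by_contra h3
    rw [if_neg h3] at hS
    exact hS rfl
  have h3 := abst_pp hp S
  have h4 := abst_pp hp (supp σ)
  nlinarith

open Classical in
private theorem abst_card {P : (ι → Option κ) → Prop} {Z : (ι → Option κ) → ℝ}
    (hZ : ∀ σ, Z σ ≠ 0 → P σ) {C : ℝ}
    (hC : (((univ : Finset (ι → Option κ)).filter P).card : ℝ) ≤ C) :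
    (((univ : Finset (ι → Option κ)).filter (fun σ => Z σ ≠ 0)).card : ℝ) ≤ C := by
  refine le_trans ?_ hC
  exact_mod_cast Finset.card_le_card fun σ hσ =>
    Finset.mem_filter.2 ⟨Finset.mem_univ _, hZ σ (Finset.mem_filter.1 hσ).2⟩

open Classical in
private theorem abst_repY {p : ι → ℕ} (hp : ∀ i, 2 ≤ p i) {Q1 : ℕ} {a : κ → ℤ}
    {ψ : ℤ → ℝ} {Wψ : ℝ}
    {Pi : ℕ → ℝ} {V1 : ℝ} {N : ℕ} (hs : SS Q1 ψ Wψ Pi V1 (2 * N + 2) a) {D : ℝ}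
    (hN : ∀ S : Finset ι, PP p S ≤ D → S.card ≤ N) {y : Finset ι → ℝ} (hy1 : ∀ S, |y S| ≤ 1)
    {C : ℝ} (hC : (((univ : Finset (ι → Option κ)).filter
      (fun σ => PP p (supp σ) ≤ D)).card : ℝ) ≤ C) :
    Rep (Q1 * ∏ i, p i) (GZ p a ψ (Yd p y D)) (C * (3 * Wψ) ^ N) :=
  rep_GZ hp hs.rep hs.one_le_W a (Yd p y D) (Yd_abs hy1 D)
    (fun _ hσ => hN _ (Yd_supp hσ)) (abst_card (fun _ hσ => Yd_supp hσ) hC)

open Classical in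
private theorem abst_repZ {p : ι → ℕ} (hp : ∀ i, 2 ≤ p i) {Q1 : ℕ} {a : κ → ℤ}
    {ψ : ℤ → ℝ} {Wψ : ℝ}
    {Pi : ℕ → ℝ} {V1 : ℝ} {N : ℕ} (hs : SS Q1 ψ Wψ Pi V1 (2 * N + 2) a) {D : ℝ}
    (hN : ∀ S : Finset ι, PP p S ≤ D → S.card ≤ N) {y : Finset ι → ℝ} (hy1 : ∀ S, |y S| ≤ 1)
    (hc1 : ∀ U, |cc p y D U| ≤ 1)
    {C : ℝ} (hC : (((univ : Finset (ι → Option κ)).filter
      (fun σ => PP p (supp σ) ≤ D)).card : ℝ) ≤ C) (m : κ) :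
    Rep (Q1 * ∏ i, p i) (GZ p a ψ (Zm p y D m)) (C * (3 * Wψ) ^ N) :=
  rep_GZ hp hs.rep hs.one_le_W a (Zm p y D m) (abst_zm hy1 hc1 m)
    (fun _ hσ => hN _ (abst_zm_supp hp hσ)) (abst_card (fun _ hσ => abst_zm_supp hp hσ) hC)

private theorem abst_sq {Q : ℕ} {f : ℤ → ℝ} {W : ℝ} (h : Rep Q f W) :
    Rep Q (fun n => f n ^ 2) (W ^ 2) := by
  have h1 := Rep.mul h h
  have e : (fun n => f n * f n) = fun n => f n ^ 2 := by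
    funext n
    ring
  rwa [e, ← pow_two] at h1

private theorem abst_ps {Q1 R : ℕ} {ψ f : ℤ → ℝ} {W Wψ : ℝ} (hψ : Rep Q1 ψ Wψ) (c : ℤ)
    (h : Rep (Q1 * R) f W) : Rep (Q1 * R) (fun n => ψ (n - c) * f n ^ 2) (W ^ 2 * Wψ) := by
  have h1 := Rep.mul (Rep.dvd_mono (Dvd.intro R rfl) (Rep.shift hψ c)) (abst_sq h)
  rwa [mul_comm Wψ] at h1

private theorem abst_Qpos {p : ι → ℕ} {Q1 : ℕ} {a : κ → ℤ} {z : ℝ} (h : Hy p Q1 a z) :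
    0 < Q1 * ∏ i, p i :=
  Nat.mul_pos h.Q1pos (Finset.prod_pos fun i _ => by have := h.two i; omega)

open Classical in
theorem tr0 {p : ι → ℕ} {Q1 M : ℕ} {a : κ → ℤ} {z : ℝ} (h : Hy p Q1 a z)
    (hM : Nat.Coprime M (Q1 * ∏ i, p i)) {ψ : ℤ → ℝ} {Wψ : ℝ}
    {Pi : ℕ → ℝ} {V1 : ℝ} {N : ℕ} (hs : SS Q1 ψ Wψ Pi V1 (2 * N + 2) a) {D : ℝ}
    (hN : ∀ S : Finset ι, PP p S ≤ D → S.card ≤ N) {y : Finset ι → ℝ} (hy1 : ∀ S, |y S| ≤ 1)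
    {C : ℝ} (hC : (((univ : Finset (ι → Option κ)).filter
      (fun σ => PP p (supp σ) ≤ D)).card : ℝ) ≤ C) (n0 : ℤ) (T : ℕ) :
    (T : ℝ) * (ZZ κ p y D Pi - 2 * offB κ p N z) - 2 * (C * (3 * Wψ) ^ N) ^ 2 ≤
      ∑ t ∈ range T, GZ p a ψ (Yd p y D) (n0 + M * (t : ℤ)) ^ 2 := by
  have h1 := Rep.avg (abst_Qpos h) hM (abst_sq (abst_repY h.two hs hN hy1 hC)) T n0
  have h2 := mom0 h hs hN hy1
  have h3 := mul_le_mul_of_nonneg_left h2 (Nat.cast_nonneg (α := ℝ) T)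
  have h4 := (abs_le.1 h1).1
  linarith

open Classical in
theorem tr1 {p : ι → ℕ} {Q1 M : ℕ} {a : κ → ℤ} {z : ℝ} (h : Hy p Q1 a z)
    (hM : Nat.Coprime M (Q1 * ∏ i, p i)) {ψ : ℤ → ℝ} {Wψ : ℝ}
    {Pi : ℕ → ℝ} {V1 : ℝ} {N : ℕ} (hs : SS Q1 ψ Wψ Pi V1 (2 * N + 2) a) {D : ℝ}
    (hN : ∀ S : Finset ι, PP p S ≤ D → S.card ≤ N) {y : Finset ι → ℝ} (hy1 : ∀ S, |y S| ≤ 1)
    {C : ℝ} (hC : (((univ : Finset (ι → Option κ)).filter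
      (fun σ => PP p (supp σ) ≤ D)).card : ℝ) ≤ C) (n0 : ℤ) (T : ℕ) :
    ∑ t ∈ range T, (∑ j, ψ (n0 + M * (t : ℤ) - a j)) *
        GZ p a ψ (Yd p y D) (n0 + M * (t : ℤ)) ^ 2 ≤
      (T : ℝ) * ((2 * (Fintype.card κ : ℝ) * V1 + 2 * N) * ZZ κ p y D Pi +
        2 * (Fintype.card κ : ℝ) * offB κ p N z) +
        2 * (Fintype.card κ : ℝ) * ((C * (3 * Wψ) ^ N) ^ 2 * Wψ) := by
  have h1 : ∀ j, ∑ t ∈ range T, ψ (n0 + M * (t : ℤ) - a j) *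
      GZ p a ψ (Yd p y D) (n0 + M * (t : ℤ)) ^ 2 ≤
      (T : ℝ) * mean (Q1 * ∏ i, p i) (fun n => ψ (n - a j) * GZ p a ψ (Yd p y D) n ^ 2) +
        2 * ((C * (3 * Wψ) ^ N) ^ 2 * Wψ) := by
    intro j
    have h2 := Rep.avg (abst_Qpos h) hM
      (abst_ps hs.rep (a j) (abst_repY h.two hs hN hy1 hC)) T n0
    have h3 := (abs_le.1 h2).2
    linarith
  have h2 := mom1sum h hs hN hy1
  have h3 := mul_le_mul_of_nonneg_left h2 (Nat.cast_nonneg (α := ℝ) T)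
  calc ∑ t ∈ range T, (∑ j, ψ (n0 + M * (t : ℤ) - a j)) *
        GZ p a ψ (Yd p y D) (n0 + M * (t : ℤ)) ^ 2
      = ∑ j, ∑ t ∈ range T, ψ (n0 + M * (t : ℤ) - a j) *
          GZ p a ψ (Yd p y D) (n0 + M * (t : ℤ)) ^ 2 := by
        rw [Finset.sum_comm]
        exact Finset.sum_congr rfl fun t _ => Finset.sum_mul _ _ _
    _ ≤ ∑ j, ((T : ℝ) * mean (Q1 * ∏ i, p i)
          (fun n => ψ (n - a j) * GZ p a ψ (Yd p y D) n ^ 2) +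
          2 * ((C * (3 * Wψ) ^ N) ^ 2 * Wψ)) := Finset.sum_le_sum fun j _ => h1 j
    _ = (T : ℝ) * ∑ j, mean (Q1 * ∏ i, p i)
          (fun n => ψ (n - a j) * GZ p a ψ (Yd p y D) n ^ 2) +
          2 * (Fintype.card κ : ℝ) * ((C * (3 * Wψ) ^ N) ^ 2 * Wψ) := by
        rw [Finset.sum_add_distrib, ← Finset.mul_sum, Finset.sum_const, Finset.card_univ,
          nsmul_eq_mul]
        ring
    _ ≤ _ := by linarith

open Classical in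
theorem tr2 {p : ι → ℕ} {Q1 M : ℕ} {a : κ → ℤ} {z : ℝ} (h : Hy p Q1 a z)
    (hM : Nat.Coprime M (Q1 * ∏ i, p i)) {ψ : ℤ → ℝ} {Wψ : ℝ}
    {Pi : ℕ → ℝ} {V1 : ℝ} {N : ℕ} (hs : SS Q1 ψ Wψ Pi V1 (2 * N + 2) a) {D D2 : ℝ}
    (hN : ∀ S : Finset ι, PP p S ≤ D → S.card ≤ N) {y : Finset ι → ℝ} (hy1 : ∀ S, |y S| ≤ 1)
    {δ τ : ℝ} (hc1 : ∀ U, |cc p y D U| ≤ 1) (hc2 : ∀ U, PP p U ≤ D2 → |cc p y D U| ≤ δ)
    (htail : ∑ σ ∈ (univ : Finset (ι → Option κ)).filter (fun σ => D2 < PP p (supp σ)),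
        Yd p y D σ ^ 2 / PH p (supp σ) * Pi (Tc σ).card ≤ τ * ZZ κ p y D Pi)
    {C : ℝ} (hC : (((univ : Finset (ι → Option κ)).filter
      (fun σ => PP p (supp σ) ≤ D)).card : ℝ) ≤ C) (n0 : ℤ) (T : ℕ) (m : κ) :
    ∑ t ∈ range T, ψ (n0 + M * (t : ℤ) - a m) *
        GZ p a ψ (Zm p y D m) (n0 + M * (t : ℤ)) ^ 2 ≤
      (T : ℝ) * (2 * V1 * (δ ^ 2 + τ) * ZZ κ p y D Pi + 2 * offB κ p N z) +
        2 * ((C * (3 * Wψ) ^ N) ^ 2 * Wψ) := by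
  have h1 := Rep.avg (abst_Qpos h) hM
    (abst_ps hs.rep (a m) (abst_repZ h.two hs hN hy1 hc1 hC m)) T n0
  have h2 := (abs_le.1 h1).2
  have h3 := mom2 h hs hN hy1 hc1 m
  have h4 := zm_sumV h.two y hs.pi_nonneg hc1 hc2 htail m
  have h5 := mul_le_mul_of_nonneg_left h4 (mul_nonneg zero_le_two hs.V1_nonneg)
  have h6 : mean (Q1 * ∏ i, p i) (fun n => ψ (n - a m) * GZ p a ψ (Zm p y D m) n ^ 2) ≤
      2 * V1 * (δ ^ 2 + τ) * ZZ κ p y D Pi + 2 * offB κ p N z := by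
    refine h3.trans ?_
    have h7 : 2 * V1 * ((δ ^ 2 + τ) * ZZ κ p y D Pi) =
        2 * V1 * (δ ^ 2 + τ) * ZZ κ p y D Pi := by ring
    linarith
  have h7 := mul_le_mul_of_nonneg_left h6 (Nat.cast_nonneg (α := ℝ) T)
  linarith

open Classical in
/-- the trivial bound for the weight -/
theorem trW {p : ι → ℕ} (hp : ∀ i, 2 ≤ p i) {Q1 : ℕ} {a : κ → ℤ} {ψ : ℤ → ℝ} {Wψ : ℝ}
    {Pi : ℕ → ℝ} {V1 : ℝ} {N : ℕ} (hs : SS Q1 ψ Wψ Pi V1 (2 * N + 2) a) {D : ℝ}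
    (hN : ∀ S : Finset ι, PP p S ≤ D → S.card ≤ N) {y : Finset ι → ℝ} (hy1 : ∀ S, |y S| ≤ 1)
    {C : ℝ} (hC : (((univ : Finset (ι → Option κ)).filter
      (fun σ => PP p (supp σ) ≤ D)).card : ℝ) ≤ C) (n : ℤ) :
    GZ p a ψ (Yd p y D) n ^ 2 ≤ (C * (3 * Wψ) ^ N) ^ 2 := by
  have h1 := Rep.abs_le (abst_repY hp hs hN hy1 hC) n
  rw [← sq_abs]
  exact pow_le_pow_left₀ (abs_nonneg _) h1 2

end Pool.Agent.VOID
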