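import Pool.Agent.VOID.Defs
import Pool.Agent.RS.Rough

/-! VOID/Rough.  If `n - a m` has no large prime factor `p i` and `ψ (n - a m) = 1` then
`GZ (Yd) n = GZ (Zm m) n`.

Copy of `RS.rough_id` (Pool/Agent/RS/Rough.lean), with the extra factor `Ps`:
`Ps ψ a σ n = Ps ψ a (era σ m) n`, because `Tc (era σ m) = (Tc σ).erase m`
(`cell_era_self`, `cell_era_of_ne`) and the factor of `m` is `ψ (n - a m) = 1`. -/

set_option autoImplicit false

open Finset Pool.Agent.RS

namespace Pool.Agent.VOID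

variable {ι κ : Type} [Fintype ι] [DecidableEq ι] [DecidableEq κ] [Fintype κ]

private theorem rough_Ps (ψ : ℤ → ℝ) (a : κ → ℤ) (m : κ) (n : ℤ) (hψ : ψ (n - a m) = 1)
    (σ : ι → Option κ) : Ps ψ a σ n = Ps ψ a (era σ m) n := by
  classical
  unfold Ps
  have h1 : Tc (era σ m) = (Tc σ).erase m := by
    ext j
    unfold Tc
    rw [mem_erase, mem_filter, mem_filter]
    by_cases hj : j = m
    · subst hj
      rw [cell_era_self]
      simp
    · rw [cell_era_of_ne σ hj]
      simp [hj]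
  rw [h1]
  by_cases hm : m ∈ Tc σ
  · rw [← mul_prod_erase _ _ hm, hψ, one_mul]
  · rw [erase_eq_of_notMem hm]

theorem rough_idV {p : ι → ℕ} (hp : ∀ i, 2 ≤ p i) (a : κ → ℤ) (ψ : ℤ → ℝ) (y : Finset ι → ℝ)
    (hy0 : y ∅ = 1) {D : ℝ} (m : κ) (n : ℤ) (hn : ∀ i, ¬ (p i : ℤ) ∣ n - a m)
    (hψ : ψ (n - a m) = 1) :
    GZ p a ψ (Yd p y D) n = GZ p a ψ (Zm p y D m) n := by
  classical
  have hee : ∀ S : Finset ι, ∏ i ∈ S, ee (p i) (n - a m) = 1 / PH p S := by
    intro S
    have h1 : ∀ i ∈ S, ee (p i) (n - a m) = 1 / ((p i : ℝ) - 1) := by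
      intro i _
      unfold ee
      rw [if_neg (hn i)]
    rw [Finset.prod_congr rfl h1, PH, Finset.prod_div_distrib]
    simp
  unfold GZ
  have hL : ∑ σ, Yd p y D σ * (Ps ψ a σ n * EE p a σ n) =
      ∑ σ : ι → Option κ, (fun (s : ι → Option κ) (S : Finset ι) =>
        if PP p S * PP p (supp s) ≤ D then
          y S * Yt y s * (Ps ψ a s n * (1 / PH p S * EE p a s n)) else 0)
          (era σ m) (cell σ m) := by
    apply Finset.sum_congr rfl
    intro σ _
    unfold Yd
    simp only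
    rw [PP_supp_split p σ m]
    by_cases h : PP p (cell σ m) * PP p (supp (era σ m)) ≤ D
    · rw [if_pos h, if_pos h, Yt_split y hy0 σ m, EE_split p a σ m n, hee,
        rough_Ps ψ a m n hψ σ]
    · rw [if_neg h, if_neg h, zero_mul]
  rw [hL]
  refine (decomp m (fun (s : ι → Option κ) (S : Finset ι) =>
        if PP p S * PP p (supp s) ≤ D then
          y S * Yt y s * (Ps ψ a s n * (1 / PH p S * EE p a s n)) else 0)).trans ?_
  rw [Finset.sum_filter]
  apply Finset.sum_congr rfl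
  intro σ _
  unfold Zm
  by_cases hc : cell σ m = ∅
  · rw [if_pos hc, if_pos hc]
    unfold cc
    rw [Finset.mul_sum, Finset.sum_mul]
    apply Finset.sum_congr rfl
    intro S _
    by_cases h : PP p S * PP p (supp σ) ≤ D
    · simp only [if_pos h]
      ring
    · simp only [if_neg h]
      ring
  · rw [if_neg hc, if_neg hc, zero_mul]

end Pool.Agent.VOID
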