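import Pool.Agent.VOID.Defs

/-! VOID/Sup.  Pointwise bound for the weight.

`|GZ (Yd) n| ≤ ∑_σ ∏_j w j (cell σ j)` with `w j ∅ = 1`,
`w j S = |y S| * ψ (n - a j) * ∏_{i ∈ S} |ee (p i) (n - a j)|` for `S ≠ ∅` (drop the condition
`PP p (supp σ) ≤ D`; `EE p a σ n = ∏_j ∏_{i ∈ cell σ j} ee (p i) (n - a j)`, see `RS.EE_split` or
`Finset.prod_comm`).  The map `σ ↦ (cell σ j)_j` is injective and `w ≥ 0`, so the sum is
`≤ ∑_{(S_j)} ∏_j w j (S_j) = ∏_j ∑_S w j S ≤ ∏_j (1 + B ψ (n - a j)) ≤ exp (B ∑_j ψ (n - a j))`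
(`Finset.prod_univ_sum`, `Real.add_one_le_exp`, `Real.exp_sum`). -/

set_option autoImplicit false

open Finset Pool.Agent.RS

namespace Pool.Agent.VOID

variable {ι κ : Type} [Fintype ι] [DecidableEq ι] [DecidableEq κ] [Fintype κ]

open Classical in
private theorem sup_term {p : ι → ℕ} (a : κ → ℤ) {ψ : ℤ → ℝ} (y : Finset ι → ℝ) (hy0 : y ∅ = 1)
    (D : ℝ) (n : ℤ) (hψ : ∀ m, 0 ≤ ψ m) (σ : ι → Option κ) :
    |Yd p y D σ * (Ps ψ a σ n * EE p a σ n)| ≤
      ∏ j, (if cell σ j = ∅ then 1 else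
        |y (cell σ j)| * ψ (n - a j) * ∏ i ∈ cell σ j, |ee (p i) (n - a j)|) := by
  have h1 : |Yd p y D σ| ≤ ∏ j, |y (cell σ j)| := by
    rw [← abs_prod]
    unfold Yd
    split_ifs
    · exact le_rfl
    · rw [abs_zero]
      exact abs_nonneg _
  have h2 : |Ps ψ a σ n| = ∏ j, (if cell σ j = ∅ then 1 else ψ (n - a j)) := by
    have h2' : Ps ψ a σ n = ∏ j, (if cell σ j = ∅ then 1 else ψ (n - a j)) := by
      unfold Ps Tc
      rw [prod_filter]
      refine prod_congr rfl fun j _ => ?_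
      by_cases h : cell σ j = ∅
      · simp [h]
      · simp [h]
    rw [h2', abs_of_nonneg]
    refine prod_nonneg fun j _ => ?_
    split_ifs
    · exact zero_le_one
    · exact hψ _
  have h3 : |EE p a σ n| = ∏ j, ∏ i ∈ cell σ j, |ee (p i) (n - a j)| := by
    unfold EE cell
    rw [abs_prod]
    simp only [prod_filter]
    rw [prod_comm]
    refine prod_congr rfl fun i _ => ?_
    cases h : σ i with
    | none => simp [eo]
    | some j0 =>
      rw [prod_eq_single j0]
      · simp [eo]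
      · intro b _ hb
        rw [if_neg]
        intro h'
        exact hb (Option.some.inj h').symm
      · intro h'
        exact absurd (mem_univ _) h'
  rw [abs_mul, abs_mul, h2, h3]
  have h4 : ∏ j, (if cell σ j = ∅ then (1 : ℝ) else
        |y (cell σ j)| * ψ (n - a j) * ∏ i ∈ cell σ j, |ee (p i) (n - a j)|) =
      (∏ j, |y (cell σ j)|) * ((∏ j, (if cell σ j = ∅ then 1 else ψ (n - a j))) *
        ∏ j, ∏ i ∈ cell σ j, |ee (p i) (n - a j)|) := by
    rw [← prod_mul_distrib, ← prod_mul_distrib]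
    refine prod_congr rfl fun j _ => ?_
    by_cases h : cell σ j = ∅
    · simp [h, hy0]
    · rw [if_neg h, if_neg h]
      ring
  rw [h4]
  refine mul_le_mul_of_nonneg_right h1 (mul_nonneg ?_ ?_)
  · refine prod_nonneg fun j _ => ?_
    split_ifs
    · exact zero_le_one
    · exact hψ _
  · exact prod_nonneg fun j _ => prod_nonneg fun i _ => abs_nonneg _

omit [DecidableEq ι] [Fintype κ] in
private theorem sup_inj : Function.Injective (fun (σ : ι → Option κ) (j : κ) => cell σ j) := by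
  intro σ τ h
  funext i
  have h1 : ∀ j, σ i = some j ↔ τ i = some j := by
    intro j
    have h2 := congrFun h j
    simp only at h2
    rw [← mem_cell, ← mem_cell, h2]
  cases hs : σ i with
  | none =>
    cases ht : τ i with
    | none => rfl
    | some j =>
      have := (h1 j).2 ht
      rw [hs] at this
      exact absurd this (by simp)
  | some j => exact ((h1 j).1 hs).symm

open Classical in
theorem supV {p : ι → ℕ} (a : κ → ℤ) {ψ : ℤ → ℝ} (y : Finset ι → ℝ) (hy0 : y ∅ = 1) (D : ℝ)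
    {B : ℝ} (n : ℤ) (hψ : ∀ m, 0 ≤ ψ m)
    (hB : ∀ j, ∑ S ∈ (univ : Finset (Finset ι)).filter (fun S => S ≠ ∅),
      |y S| * ∏ i ∈ S, |ee (p i) (n - a j)| ≤ B) :
    |GZ p a ψ (Yd p y D) n| ≤ Real.exp (B * ∑ j, ψ (n - a j)) := by
  set w : κ → Finset ι → ℝ := fun j S => if S = ∅ then 1 else
    |y S| * ψ (n - a j) * ∏ i ∈ S, |ee (p i) (n - a j)| with hw
  have hw0 : ∀ j S, 0 ≤ w j S := by
    intro j S
    simp only [hw]
    split_ifs
    · exact zero_le_one
    · exact mul_nonneg (mul_nonneg (abs_nonneg _) (hψ _)) (prod_nonneg fun i _ => abs_nonneg _)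
  have h1 : |GZ p a ψ (Yd p y D) n| ≤ ∑ σ : ι → Option κ, ∏ j, w j (cell σ j) := by
    unfold GZ
    refine (abs_sum_le_sum_abs _ _).trans (sum_le_sum fun σ _ => ?_)
    exact sup_term a y hy0 D n hψ σ
  have h2 : ∑ σ : ι → Option κ, ∏ j, w j (cell σ j) ≤
      ∑ f : κ → Finset ι, ∏ j, w j (f j) := by
    have h3 : ∑ σ : ι → Option κ, ∏ j, w j (cell σ j) =
        ∑ f ∈ (univ : Finset (ι → Option κ)).map ⟨_, sup_inj⟩, ∏ j, w j (f j) := by
      rw [sum_map]
      rfl
    rw [h3]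
    exact sum_le_sum_of_subset_of_nonneg (subset_univ _)
      fun f _ _ => prod_nonneg fun j _ => hw0 j _
  have h3 : ∑ f : κ → Finset ι, ∏ j, w j (f j) = ∏ j, ∑ S, w j S := by
    rw [prod_univ_sum, Fintype.piFinset_univ]
  have h4 : ∀ j, ∑ S, w j S ≤ Real.exp (B * ψ (n - a j)) := by
    intro j
    have h5 : ∑ S, w j S = 1 + ψ (n - a j) *
        ∑ S ∈ (univ : Finset (Finset ι)).filter (fun S => S ≠ ∅),
          |y S| * ∏ i ∈ S, |ee (p i) (n - a j)| := by
      rw [← add_sum_erase (univ : Finset (Finset ι)) (w j) (mem_univ ∅), mul_sum]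
      have hw1 : w j ∅ = 1 := by simp [hw]
      have hw2 : ∑ S ∈ univ.erase ∅, w j S =
          ∑ S ∈ (univ : Finset (Finset ι)).filter (fun S => S ≠ ∅),
            ψ (n - a j) * (|y S| * ∏ i ∈ S, |ee (p i) (n - a j)|) := by
        refine sum_congr ?_ fun S hS => ?_
        · ext S
          simp
        · have hS' : S ≠ ∅ := (mem_filter.1 hS).2
          simp only [hw]
          rw [if_neg hS']
          ring
      rw [hw1, hw2]
    rw [h5]
    have h6 := mul_le_mul_of_nonneg_left (hB j) (hψ (n - a j))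
    have h7 := Real.add_one_le_exp (B * ψ (n - a j))
    linarith
  calc |GZ p a ψ (Yd p y D) n| ≤ ∏ j, ∑ S, w j S := h1.trans (h2.trans_eq h3)
    _ ≤ ∏ j, Real.exp (B * ψ (n - a j)) :=
        prod_le_prod (fun j _ => sum_nonneg fun S _ => hw0 j S) fun j _ => h4 j
    _ = Real.exp (B * ∑ j, ψ (n - a j)) := by
        rw [← Real.exp_sum, mul_sum]

end Pool.Agent.VOID
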