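import Pool.Agent.VOID.AbsT
import Pool.Agent.VOID.Rough
import Pool.Agent.VOID.Sup

/-! VOID/AbsV.  The abstract theorem.

Let `g t = GZ p a ψ (Yd p y D) (n0 + M t)`, `k = card κ`, `W2 = (C (3 Wψ)^N)^2`,
`Q t = ∑_j ψ (n0 + M t - a j)` and `G` the set on the right hand side.  For every `t < T`:
`g t ^ 2 ≤ exp (2 B K') 1_{t ∈ G} + (1/K') Q t g t ^ 2 + ∑_m ψ_m GZ(Zm m) ^ 2 + W2 1_{t ∈ Ex}`,
`Ex = {t : ∃ j, n0 + M t = a j}` (at most `k` elements because `M ≠ 0`):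
* `t ∉ G`: there is `m` with `ψ (n - a m) = 1` and no `p i ∣ n - a m`, so
  `g t = GZ (Zm m)` by `rough_idV`, and `ψ_m = 1`;
* `t ∈ G`, `Q t > K'` (`K' ≥ 8 > 0`): second term;
* `t ∈ G`, `Q t ≤ K'`, `t ∉ Ex`: `supV` with `hB` gives `|g t| ≤ exp (B K')`;
* `t ∈ Ex`: `trW`.
Summing, with `tr0`, `tr1`, `tr2` (sum over `m`):
`T (ZZ - 2 o) - 2 W2 ≤ exp(2BK') #G + (1/K') (T ((2kV1+2N) ZZ + 2 k o) + 2 k W2 Wψ)
  + k (T (2 V1 (δ²+τ) ZZ + 2 o) + 2 W2 Wψ) + k W2`, `o = offB ≥ 0`.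
By `h1`, `h2`: `(2kV1+2N)/K' ≤ 1/8`, `1/K' ≤ 1`; `ZZ ≥ 1` (`ZZ_ge_one`), `Wψ ≥ 1`; so
`exp(2BK') #G ≥ T (3/4) ZZ - T (2 + 4 k) o - (2 + 5 k) W2 Wψ ≥ T (3/4 - 1/8 - 1/16)`. -/

set_option autoImplicit false

open Finset Pool.Agent.RS

namespace Pool.Agent.VOID

variable {ι κ : Type} [Fintype ι] [DecidableEq ι] [DecidableEq κ] [Fintype κ]

omit [DecidableEq ι] [DecidableEq κ] in
private theorem absv_off {p : ι → ℕ} (hp : ∀ i, 2 ≤ p i) {z : ℝ} (hz : 0 < z) (N : ℕ) :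
    0 ≤ offB κ p N z := by
  unfold offB
  have h1 : 0 ≤ ∏ i, (1 + 1 / ((p i : ℝ) - 1)) := by
    refine Finset.prod_nonneg fun i _ => ?_
    have h2 : (2 : ℝ) ≤ (p i : ℝ) := by exact_mod_cast hp i
    have h3 : 0 ≤ 1 / ((p i : ℝ) - 1) := one_div_nonneg.2 (by linarith)
    linarith
  positivity

open Classical in
omit [DecidableEq κ] in
private theorem absv_ex {M : ℕ} (hM : 0 < M) (a : κ → ℤ) (n0 : ℤ) (T : ℕ) :
    ((range T).filter (fun t : ℕ => ∃ j, n0 + M * (t : ℤ) = a j)).card ≤ Fintype.card κ := by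
  have h1 : (range T).filter (fun t : ℕ => ∃ j, n0 + M * (t : ℤ) = a j) ⊆
      (univ : Finset κ).biUnion
        (fun j => (range T).filter (fun t : ℕ => n0 + M * (t : ℤ) = a j)) := by
    intro t ht
    obtain ⟨h2, j, hj⟩ := Finset.mem_filter.1 ht
    exact Finset.mem_biUnion.2 ⟨j, Finset.mem_univ _, Finset.mem_filter.2 ⟨h2, hj⟩⟩
  refine (Finset.card_le_card h1).trans (Finset.card_biUnion_le.trans ?_)
  refine (Finset.sum_le_card_nsmul univ _ 1 fun j _ => ?_).trans (le_of_eq (by simp))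
  rw [Finset.card_le_one]
  intro t ht t' ht'
  have h2 := (Finset.mem_filter.1 ht).2
  have h3 := (Finset.mem_filter.1 ht').2
  have h4 : (M : ℤ) * (t : ℤ) = M * (t' : ℤ) := by linarith
  have h5 : (M : ℤ) ≠ 0 := by exact_mod_cast hM.ne'
  exact_mod_cast mul_left_cancel₀ h5 h4

open Classical in
/-- the abstract theorem, with the filter on the natural numbers -/
theorem absV_nat {p : ι → ℕ} {Q1 M : ℕ} {a : κ → ℤ} {z : ℝ} (h : Hy p Q1 a z) (hM0 : 0 < M)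
    (hM : Nat.Coprime M (Q1 * ∏ i, p i)) {ψ : ℤ → ℝ} {Wψ : ℝ}
    {Pi : ℕ → ℝ} {V1 : ℝ} {N : ℕ} (hs : SS Q1 ψ Wψ Pi V1 (2 * N + 2) a) {D D2 : ℝ} (hD : 1 ≤ D)
    (hN : ∀ S : Finset ι, PP p S ≤ D → S.card ≤ N) {y : Finset ι → ℝ} (hy0 : y ∅ = 1)
    (hy1 : ∀ S, |y S| ≤ 1)
    {δ τ : ℝ} (hc1 : ∀ U, |cc p y D U| ≤ 1) (hc2 : ∀ U, PP p U ≤ D2 → |cc p y D U| ≤ δ)
    (htail : ∑ σ ∈ (univ : Finset (ι → Option κ)).filter (fun σ => D2 < PP p (supp σ)),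
        Yd p y D σ ^ 2 / PH p (supp σ) * Pi (Tc σ).card ≤ τ * ZZ κ p y D Pi)
    {C : ℝ} (hC : (((univ : Finset (ι → Option κ)).filter
      (fun σ => PP p (supp σ) ≤ D)).card : ℝ) ≤ C) {n0 : ℤ} {T : ℕ} {B K' : ℝ} (hB0 : 0 ≤ B)
    (hB : ∀ t < T, (∀ j, n0 + M * (t : ℤ) ≠ a j) → ∀ j,
      ∑ S ∈ (univ : Finset (Finset ι)).filter (fun S => S ≠ ∅),
        |y S| * ∏ i ∈ S, |ee (p i) (n0 + M * (t : ℤ) - a j)| ≤ B)
    (h1 : 2 * (Fintype.card κ : ℝ) * V1 * (δ ^ 2 + τ) ≤ 1 / 8)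
    (h2 : 8 * (2 * (Fintype.card κ : ℝ) * V1 + 2 * N + 1) ≤ K')
    (h3 : (2 + 4 * (Fintype.card κ : ℝ)) * offB κ p N z ≤ 1 / 8)
    (h4 : (2 + 5 * (Fintype.card κ : ℝ)) * ((C * (3 * Wψ) ^ N) ^ 2 * Wψ) ≤ T / 16) :
    (T : ℝ) ≤ 2 * Real.exp (2 * B * K') *
      (((range T).filter (fun t : ℕ => ∀ j, ψ (n0 + M * (t : ℤ) - a j) ≠ 1 ∨
        ∃ i, (p i : ℤ) ∣ n0 + M * (t : ℤ) - a j)).card : ℝ) := by
  set k : ℝ := (Fintype.card κ : ℝ) with hk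
  set o : ℝ := offB κ p N z with ho
  set W2 : ℝ := (C * (3 * Wψ) ^ N) ^ 2 with hW2
  set E1 : ℝ := Real.exp (2 * B * K') with hE1
  set Z : ℝ := ZZ κ p y D Pi with hZ
  set g : ℕ → ℝ := fun t => GZ p a ψ (Yd p y D) (n0 + M * (t : ℤ)) with hg
  set gz : κ → ℕ → ℝ := fun m t => GZ p a ψ (Zm p y D m) (n0 + M * (t : ℤ)) with hgz
  set G : Finset ℕ := (range T).filter (fun t => ∀ j, ψ (n0 + M * (t : ℤ) - a j) ≠ 1 ∨
        ∃ i, (p i : ℤ) ∣ n0 + M * (t : ℤ) - a j) with hG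
  set Ex : Finset ℕ := (range T).filter (fun t => ∃ j, n0 + M * (t : ℤ) = a j) with hEx
  have hk0 : 0 ≤ k := Nat.cast_nonneg _
  have hN0 : (0 : ℝ) ≤ N := Nat.cast_nonneg _
  have hT0 : (0 : ℝ) ≤ T := Nat.cast_nonneg _
  have hV0 : 0 ≤ V1 := hs.V1_nonneg
  have hkV : 0 ≤ k * V1 := mul_nonneg hk0 hV0
  have hK8 : 8 ≤ K' := by
    refine le_trans ?_ h2
    nlinarith
  have hK0 : 0 < K' := by linarith
  have hW20 : 0 ≤ W2 := sq_nonneg _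
  have hE0 : 0 < E1 := Real.exp_pos _
  have hψ0 : ∀ m, 0 ≤ ψ m := hs.nonneg
  have hZ1 : 1 ≤ Z := ZZ_ge_one p y h.two hy0 hD hs.pi_nonneg hs.pi_zero
  have ho0 : 0 ≤ o := by
    rw [ho]
    exact absv_off h.two h.zpos N
  have hpt : ∀ t ∈ range T, g t ^ 2 ≤ E1 * (if t ∈ G then 1 else 0) +
      K'⁻¹ * ((∑ j, ψ (n0 + M * (t : ℤ) - a j)) * g t ^ 2) +
      ∑ m, ψ (n0 + M * (t : ℤ) - a m) * gz m t ^ 2 + W2 * (if t ∈ Ex then 1 else 0) := by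
    intro t ht
    have e1 : 0 ≤ E1 * (if t ∈ G then 1 else 0) := by
      split_ifs <;> simp [hE0.le]
    have e2 : 0 ≤ K'⁻¹ * ((∑ j, ψ (n0 + M * (t : ℤ) - a j)) * g t ^ 2) :=
      mul_nonneg (inv_nonneg.2 hK0.le)
        (mul_nonneg (Finset.sum_nonneg fun j _ => hψ0 _) (sq_nonneg _))
    have e3 : 0 ≤ ∑ m, ψ (n0 + M * (t : ℤ) - a m) * gz m t ^ 2 :=
      Finset.sum_nonneg fun j _ => mul_nonneg (hψ0 _) (sq_nonneg _)
    have e4 : 0 ≤ W2 * (if t ∈ Ex then 1 else 0) := by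
      split_ifs <;> simp [hW20]
    by_cases htG : t ∈ G
    · by_cases htE : t ∈ Ex
      · have e5 : g t ^ 2 ≤ W2 := trW h.two hs hN hy1 hC _
        rw [if_pos htE, mul_one]
        linarith
      · by_cases hQ : (∑ j, ψ (n0 + M * (t : ℤ) - a j)) ≤ K'
        · have hne : ∀ j, n0 + M * (t : ℤ) ≠ a j := by
            intro j hj
            exact htE (Finset.mem_filter.2 ⟨ht, j, hj⟩)
          have e5 : |g t| ≤ Real.exp (B * K') :=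
            (supV a y hy0 D (n0 + M * (t : ℤ)) hψ0
              (hB t (Finset.mem_range.1 ht) hne)).trans
              (Real.exp_le_exp.2 (mul_le_mul_of_nonneg_left hQ hB0))
          have e6 : g t ^ 2 ≤ E1 := by
            rw [← sq_abs]
            refine (pow_le_pow_left₀ (abs_nonneg _) e5 2).trans (le_of_eq ?_)
            rw [hE1, ← Real.exp_nat_mul]
            congr 1
            push_cast
            ring
          rw [if_pos htG, mul_one]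
          linarith
        · have e5 : g t ^ 2 ≤ K'⁻¹ * ((∑ j, ψ (n0 + M * (t : ℤ) - a j)) * g t ^ 2) := by
            rw [← mul_assoc]
            have e6 : 1 ≤ K'⁻¹ * (∑ j, ψ (n0 + M * (t : ℤ) - a j)) := by
              rw [inv_mul_eq_div, le_div_iff₀ hK0, one_mul]
              exact (not_le.1 hQ).le
            nlinarith [sq_nonneg (g t)]
          linarith
    · have e5 : ∃ j, ψ (n0 + M * (t : ℤ) - a j) = 1 ∧
          ∀ i, ¬ (p i : ℤ) ∣ n0 + M * (t : ℤ) - a j := by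
        by_contra hcon
        apply htG
        refine Finset.mem_filter.2 ⟨ht, fun j => ?_⟩
        by_contra hj
        rw [not_or] at hj
        exact hcon ⟨j, not_not.1 hj.1, fun i hi => hj.2 ⟨i, hi⟩⟩
      obtain ⟨j, hj1, hj2⟩ := e5
      have e6 : g t = gz j t := rough_idV h.two a ψ y hy0 j _ hj2 hj1
      have e7 : ψ (n0 + M * (t : ℤ) - a j) * gz j t ^ 2 ≤
          ∑ m, ψ (n0 + M * (t : ℤ) - a m) * gz m t ^ 2 :=
        Finset.single_le_sum (f := fun m => ψ (n0 + M * (t : ℤ) - a m) * gz m t ^ 2)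
          (fun m _ => mul_nonneg (hψ0 _) (sq_nonneg _)) (Finset.mem_univ j)
      rw [hj1, one_mul, ← e6] at e7
      linarith
  have hsum := Finset.sum_le_sum hpt
  rw [Finset.sum_add_distrib, Finset.sum_add_distrib, Finset.sum_add_distrib,
    ← Finset.mul_sum, ← Finset.mul_sum, ← Finset.mul_sum] at hsum
  have s1 : ∑ t ∈ range T, (if t ∈ G then (1 : ℝ) else 0) = (G.card : ℝ) := by
    have hGs : G ⊆ range T := Finset.filter_subset _ _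
    rw [Finset.sum_ite_mem, Finset.inter_eq_right.2 hGs, Finset.sum_const, nsmul_eq_mul, mul_one]
  have s2 : ∑ t ∈ range T, (if t ∈ Ex then (1 : ℝ) else 0) ≤ k := by
    rw [Finset.sum_ite_mem, Finset.inter_eq_right.2 (Finset.filter_subset _ _)]
    simp only [Finset.sum_const, nsmul_eq_mul, mul_one]
    rw [hk]
    exact_mod_cast absv_ex hM0 a n0 T
  have s3 : ∑ t ∈ range T, ∑ m, ψ (n0 + M * (t : ℤ) - a m) * gz m t ^ 2 ≤
      k * (T * (2 * V1 * (δ ^ 2 + τ) * Z + 2 * o) + 2 * (W2 * Wψ)) := by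
    rw [Finset.sum_comm]
    refine (Finset.sum_le_sum fun m _ =>
      tr2 h hM hs hN hy1 hc1 hc2 htail hC n0 T m).trans (le_of_eq ?_)
    rw [Finset.sum_const, Finset.card_univ, nsmul_eq_mul]
  have t0 := tr0 h hM hs hN hy1 hC n0 T
  have t1 := tr1 h hM hs hN hy1 hC n0 T
  have hcard0 : (0 : ℝ) ≤ (G.card : ℝ) := Nat.cast_nonneg _
  have hx0 : 0 ≤ K'⁻¹ := inv_nonneg.2 hK0.le
  have hx1 : K'⁻¹ ≤ 1 := inv_le_one_of_one_le₀ (by linarith)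
  have hxA : K'⁻¹ * (2 * k * V1 + 2 * N) ≤ 1 / 8 := by
    rw [inv_mul_eq_div, div_le_iff₀ hK0]
    linarith
  have hWW : W2 ≤ W2 * Wψ := le_mul_of_one_le_right hW20 hs.one_le_W
  have hTZ : 0 ≤ (T : ℝ) * Z := mul_nonneg hT0 (by linarith)
  have hTo : 0 ≤ (T : ℝ) * o := mul_nonneg hT0 ho0
  have u1 : K'⁻¹ * ∑ t ∈ range T, (∑ j, ψ (n0 + M * (t : ℤ) - a j)) * g t ^ 2 ≤
      T * Z / 8 + 2 * k * (T * o) + 2 * k * (W2 * Wψ) := by
    refine (mul_le_mul_of_nonneg_left t1 hx0).trans ?_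
    have v1 : K'⁻¹ * (T * ((2 * k * V1 + 2 * N) * Z + 2 * k * o) + 2 * k * (W2 * Wψ)) =
        (K'⁻¹ * (2 * k * V1 + 2 * N)) * (T * Z) + K'⁻¹ * (2 * k * (T * o)) +
          K'⁻¹ * (2 * k * (W2 * Wψ)) := by ring
    rw [v1]
    have v2 := mul_le_mul_of_nonneg_right hxA hTZ
    have v3 := mul_le_mul_of_nonneg_right hx1 (mul_nonneg (mul_nonneg zero_le_two hk0) hTo)
    have v4 := mul_le_mul_of_nonneg_right hx1
      (mul_nonneg (mul_nonneg zero_le_two hk0) (hW20.trans hWW))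
    linarith
  have u2 : k * (T * (2 * V1 * (δ ^ 2 + τ) * Z + 2 * o) + 2 * (W2 * Wψ)) ≤
      T * Z / 8 + 2 * k * (T * o) + 2 * k * (W2 * Wψ) := by
    have v1 : k * (T * (2 * V1 * (δ ^ 2 + τ) * Z + 2 * o) + 2 * (W2 * Wψ)) =
        (2 * k * V1 * (δ ^ 2 + τ)) * (T * Z) + 2 * k * (T * o) + 2 * k * (W2 * Wψ) := by ring
    rw [v1]
    have v2 := mul_le_mul_of_nonneg_right h1 hTZ
    linarith
  have u3 : W2 * ∑ t ∈ range T, (if t ∈ Ex then (1 : ℝ) else 0) ≤ k * (W2 * Wψ) := by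
    refine (mul_le_mul_of_nonneg_left s2 hW20).trans ?_
    rw [mul_comm]
    exact mul_le_mul_of_nonneg_left hWW hk0
  rw [s1] at hsum
  have w1 : (T : ℝ) * (Z - 2 * o) - 2 * W2 ≤ E1 * G.card +
      (T * Z / 8 + 2 * k * (T * o) + 2 * k * (W2 * Wψ)) +
      (T * Z / 8 + 2 * k * (T * o) + 2 * k * (W2 * Wψ)) + k * (W2 * Wψ) :=
    t0.trans (hsum.trans (by linarith))
  have w2 : (2 + 4 * k) * (T * o) ≤ T / 8 := by
    have v := mul_le_mul_of_nonneg_left h3 hT0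
    calc (2 + 4 * k) * (T * o) = T * ((2 + 4 * k) * o) := by ring
      _ ≤ T * (1 / 8) := v
      _ = T / 8 := by ring
  have w3 : (T : ℝ) ≤ T * Z := le_mul_of_one_le_right hT0 hZ1
  have w4 : 0 ≤ E1 * G.card := mul_nonneg hE0.le hcard0
  have w5 : (T : ℝ) ≤ 2 * (E1 * G.card) := by
    nlinarith
  rw [mul_assoc]
  exact w5

open Classical in
theorem absV {p : ι → ℕ} {Q1 M : ℕ} {a : κ → ℤ} {z : ℝ} (h : Hy p Q1 a z) (hM0 : 0 < M)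
    (hM : Nat.Coprime M (Q1 * ∏ i, p i)) {ψ : ℤ → ℝ} {Wψ : ℝ}
    {Pi : ℕ → ℝ} {V1 : ℝ} {N : ℕ} (hs : SS Q1 ψ Wψ Pi V1 (2 * N + 2) a) {D D2 : ℝ} (hD : 1 ≤ D)
    (hN : ∀ S : Finset ι, PP p S ≤ D → S.card ≤ N) {y : Finset ι → ℝ} (hy0 : y ∅ = 1)
    (hy1 : ∀ S, |y S| ≤ 1)
    {δ τ : ℝ} (hc1 : ∀ U, |cc p y D U| ≤ 1) (hc2 : ∀ U, PP p U ≤ D2 → |cc p y D U| ≤ δ)
    (htail : ∑ σ ∈ (univ : Finset (ι → Option κ)).filter (fun σ => D2 < PP p (supp σ)),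
        Yd p y D σ ^ 2 / PH p (supp σ) * Pi (Tc σ).card ≤ τ * ZZ κ p y D Pi)
    {C : ℝ} (hC : (((univ : Finset (ι → Option κ)).filter
      (fun σ => PP p (supp σ) ≤ D)).card : ℝ) ≤ C) {n0 : ℤ} {T : ℕ} {B K' : ℝ} (hB0 : 0 ≤ B)
    (hB : ∀ t < T, (∀ j, n0 + M * (t : ℤ) ≠ a j) → ∀ j,
      ∑ S ∈ (univ : Finset (Finset ι)).filter (fun S => S ≠ ∅),
        |y S| * ∏ i ∈ S, |ee (p i) (n0 + M * (t : ℤ) - a j)| ≤ B)
    (h1 : 2 * (Fintype.card κ : ℝ) * V1 * (δ ^ 2 + τ) ≤ 1 / 8)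
    (h2 : 8 * (2 * (Fintype.card κ : ℝ) * V1 + 2 * N + 1) ≤ K')
    (h3 : (2 + 4 * (Fintype.card κ : ℝ)) * offB κ p N z ≤ 1 / 8)
    (h4 : (2 + 5 * (Fintype.card κ : ℝ)) * ((C * (3 * Wψ) ^ N) ^ 2 * Wψ) ≤ T / 16) :
    (T : ℝ) ≤ 2 * Real.exp (2 * B * K') *
      (((range T).filter (fun t => ∀ j, ψ (n0 + M * (t : ℤ) - a j) ≠ 1 ∨
        ∃ i, (p i : ℤ) ∣ n0 + M * (t : ℤ) - a j)).card : ℝ) := by
  refine (absV_nat h hM0 hM hs hD hN hy0 hy1 hc1 hc2 htail hC hB0 hB h1 h2 h3 h4).trans ?_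
  refine mul_le_mul_of_nonneg_left ?_ (mul_nonneg zero_le_two (Real.exp_pos _).le)
  refine Nat.cast_le.2 ?_
  refine Finset.card_le_card_of_injOn (fun t : ℕ => (t : ℤ)) ?_ ?_
  · intro t ht
    have h5 := Finset.mem_filter.1 (Finset.mem_coe.1 ht)
    refine Finset.mem_coe.2 (Finset.mem_filter.2 ⟨?_, h5.2⟩)
    exact (@Finset.mem_sup ℤ ℕ (fun a b => Classical.propDecidable (a = b)) (range T)
      (fun a : ℕ => ({(a : ℤ)} : Finset ℤ)) (t : ℤ)).2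
      ⟨t, h5.1, Finset.mem_singleton_self _⟩
  · intro t _ t' _ htt
    exact Nat.cast_injective htt

end Pool.Agent.VOID
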