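import Pool.Agent.VOID.BfMom

/-! VOID/EpsV.  The error of a block is small (Rankin's trick).

For `l ≥ 1`: if `2 r < U.card` then `1 ≤ l ^ (U.card) / l ^ (2 r)`, so
`epsS S r ≤ (l ^ (2 r))⁻¹ ∑_{U ⊆ S} ∏_{q ∈ U} (16 l / q) = (l ^ (2 r))⁻¹ ∏_{q∈S} (1 + 16 l / q)
≤ (l ^ (2 r))⁻¹ exp (16 l ∑ 1/q)` (`Finset.prod_add_one`/`Finset.prod_one_add`,
`Real.add_one_le_exp`, `Real.exp_sum`).

`eps_total`: `∏_{i<I} (1 + epsS (Bl i) (r + i)) ≤ exp (∑_i epsS ..)`, and
`∑_i (l ^ (2 (r + i)))⁻¹ ≤ 2 (l ^ (2 r))⁻¹` for `l ≥ 2` (geometric series with ratio `≤ 1/4`). -/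

set_option autoImplicit false

open Finset Pool.Agent.RS

namespace Pool.Agent.VOID

theorem epsS_le (S : Finset ℕ) (r : ℕ) {l s : ℝ} (hl : 1 ≤ l)
    (hs : ∑ q ∈ S, 1 / (q : ℝ) ≤ s) : epsS S r ≤ (l ^ (2 * r))⁻¹ * Real.exp (16 * l * s) := by
  have hl0 : 0 < l := lt_of_lt_of_le one_pos hl
  have h1 : epsS S r ≤ ∑ U ∈ S.powerset, (l ^ (2 * r))⁻¹ * ∏ q ∈ U, (16 * l / (q : ℝ)) := by
    unfold epsS
    calc ∑ U ∈ S.powerset.filter (fun U => 2 * r < U.card), ∏ q ∈ U, (16 : ℝ) / q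
        ≤ ∑ U ∈ S.powerset.filter (fun U => 2 * r < U.card),
          (l ^ (2 * r))⁻¹ * ∏ q ∈ U, (16 * l / (q : ℝ)) := by
          refine sum_le_sum fun U hU => ?_
          have hc := (mem_filter.1 hU).2
          have e1 : ∏ q ∈ U, (16 * l / (q : ℝ)) = l ^ U.card * ∏ q ∈ U, (16 : ℝ) / q := by
            rw [← prod_const, ← prod_mul_distrib]
            refine prod_congr rfl fun q _ => ?_
            ring
          have e2 : 0 ≤ ∏ q ∈ U, (16 : ℝ) / q := prod_nonneg fun q _ => by positivity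
          have e3 : 1 ≤ (l ^ (2 * r))⁻¹ * l ^ U.card := by
            rw [inv_mul_eq_div, one_le_div (by positivity)]
            exact pow_le_pow_right₀ hl hc.le
          rw [e1, ← mul_assoc]
          exact le_mul_of_one_le_left e2 e3
      _ ≤ _ := sum_le_sum_of_subset_of_nonneg (filter_subset _ _) fun U _ _ =>
          mul_nonneg (by positivity) (prod_nonneg fun q _ => by positivity)
  rw [← mul_sum, ← prod_one_add] at h1
  refine h1.trans (mul_le_mul_of_nonneg_left ?_ (by positivity))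
  have h2 : ∏ q ∈ S, (1 + 16 * l / (q : ℝ)) ≤ ∏ q ∈ S, Real.exp (16 * l / (q : ℝ)) := by
    refine prod_le_prod (fun q _ => by positivity) fun q _ => ?_
    rw [add_comm]
    exact Real.add_one_le_exp _
  refine h2.trans ?_
  rw [← Real.exp_sum]
  refine Real.exp_le_exp.2 ?_
  have h3 : ∑ q ∈ S, 16 * l / (q : ℝ) = 16 * l * ∑ q ∈ S, 1 / (q : ℝ) := by
    rw [mul_sum]
    refine sum_congr rfl fun q _ => ?_
    ring
  rw [h3]
  exact mul_le_mul_of_nonneg_left hs (by positivity)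

private theorem epsv_geom (I : ℕ) : ∑ i ∈ range I, ((1 : ℝ) / 4) ^ i ≤ 2 := by
  have h : ∑ i ∈ range I, ((1 : ℝ) / 4) ^ i = 4 / 3 * (1 - (1 / 4) ^ I) := by
    induction I with
    | zero => simp
    | succ I ih =>
      rw [sum_range_succ, ih, pow_succ]
      ring
  rw [h]
  have : (0 : ℝ) ≤ (1 / 4) ^ I := by positivity
  linarith

theorem eps_total (Bl : ℕ → Finset ℕ) (r I : ℕ) {l s : ℝ} (hl : 2 ≤ l)
    (hs : ∀ i < I, ∑ q ∈ Bl i, 1 / (q : ℝ) ≤ s) :
    ∏ i ∈ range I, (1 + epsS (Bl i) (r + i)) ≤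
      Real.exp (2 * (l ^ (2 * r))⁻¹ * Real.exp (16 * l * s)) := by
  have hl0 : 0 < l := by linarith
  have h1 : ∏ i ∈ range I, (1 + epsS (Bl i) (r + i)) ≤
      ∏ i ∈ range I, Real.exp (epsS (Bl i) (r + i)) := by
    refine prod_le_prod (fun i _ => by have := epsS_nonneg (Bl i) (r + i); linarith) fun i _ => ?_
    rw [add_comm]
    exact Real.add_one_le_exp _
  refine h1.trans ?_
  rw [← Real.exp_sum]
  refine Real.exp_le_exp.2 ?_
  have h2 : ∑ i ∈ range I, epsS (Bl i) (r + i) ≤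
      ∑ i ∈ range I, ((1 : ℝ) / 4) ^ i * ((l ^ (2 * r))⁻¹ * Real.exp (16 * l * s)) := by
    refine sum_le_sum fun i hi => ?_
    refine (epsS_le (l := l) (Bl i) (r + i) (by linarith) (hs i (mem_range.1 hi))).trans ?_
    rw [← mul_assoc]
    refine mul_le_mul_of_nonneg_right ?_ (Real.exp_pos _).le
    have e1 : l ^ (2 * (r + i)) = (l ^ 2) ^ i * l ^ (2 * r) := by
      rw [← pow_mul, ← pow_add]
      congr 1
      ring
    rw [e1, mul_inv]
    refine mul_le_mul_of_nonneg_right ?_ (by positivity)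
    have e2 : (4 : ℝ) ≤ l ^ 2 := by nlinarith
    have e3 : (4 : ℝ) ^ i ≤ (l ^ 2) ^ i := pow_le_pow_left₀ (by norm_num) e2 i
    rw [one_div, inv_pow]
    exact inv_anti₀ (by positivity) e3
  rw [← sum_mul] at h2
  refine h2.trans ?_
  have h3 := mul_le_mul_of_nonneg_right (epsv_geom I)
    (by positivity : 0 ≤ (l ^ (2 * r))⁻¹ * Real.exp (16 * l * s))
  linarith

end Pool.Agent.VOID
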