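import Pool.Agent.VOID.Defs

/-! VOID/SumE.  `∑_S ∏_{i∈S} |ee (p i) m| = ∏_i (1 + |ee (p i) m|)`, where the factor is `2` if
`p i ∣ m` (at most `R` of the `i`) and `1 + 1/(p i - 1)` otherwise; all factors are `≥ 1`.

`card_dvd`: distinct primes `p i > 2^z` dividing `m ≠ 0`: their product divides `m`, so
`2 ^ (z * card) ≤ |m| ≤ 2 ^ A` (`Finset.prod_primes_dvd` or `Finset.prod_dvd_of_coprime`). -/

set_option autoImplicit false

open Finset Pool.Agent.RS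

namespace Pool.Agent.VOID

variable {ι : Type} [Fintype ι] [DecidableEq ι]

private theorem sume_factor {q : ℕ} (hq : 2 ≤ q) (m : ℤ) :
    1 + |ee q m| ≤ (if (q : ℤ) ∣ m then 2 else 1) * (1 + 1 / ((q : ℝ) - 1)) := by
  have h1 : (1 : ℝ) ≤ (q : ℝ) - 1 := by
    have : (2 : ℝ) ≤ q := by exact_mod_cast hq
    linarith
  have h2 : (0 : ℝ) ≤ 1 / ((q : ℝ) - 1) := by positivity
  unfold ee
  split_ifs with h
  · rw [abs_neg, abs_one]
    linarith
  · rw [abs_of_nonneg (by simpa using h2)]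
    simp

theorem sumE {p : ι → ℕ} (hp : ∀ i, 2 ≤ p i) (m : ℤ) {R : ℕ}
    (hR : ∀ U : Finset ι, (∀ i ∈ U, (p i : ℤ) ∣ m) → U.card ≤ R) :
    ∑ S : Finset ι, ∏ i ∈ S, |ee (p i) m| ≤ 2 ^ R * ∏ i, (1 + 1 / ((p i : ℝ) - 1)) := by
  have h1 : ∑ S : Finset ι, ∏ i ∈ S, |ee (p i) m| = ∏ i, (1 + |ee (p i) m|) := by
    rw [Finset.prod_one_add]
    simp
  have h2 : ∏ i, (1 + |ee (p i) m|) ≤
      ∏ i, (if (p i : ℤ) ∣ m then (2 : ℝ) else 1) * (1 + 1 / ((p i : ℝ) - 1)) :=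
    Finset.prod_le_prod (fun i _ => by positivity) fun i _ => sume_factor (hp i) m
  rw [h1]
  refine h2.trans ?_
  rw [Finset.prod_mul_distrib]
  have h3 : ∏ i, (if (p i : ℤ) ∣ m then (2 : ℝ) else 1) ≤ 2 ^ R := by
    rw [Finset.prod_ite, Finset.prod_const, Finset.prod_const_one, mul_one]
    refine pow_le_pow_right₀ (by norm_num) (hR _ fun i hi => ?_)
    simpa using hi
  refine mul_le_mul_of_nonneg_right h3 (Finset.prod_nonneg fun i _ => ?_)
  have h4 : (1 : ℝ) ≤ (p i : ℝ) - 1 := by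
    have : (2 : ℝ) ≤ p i := by exact_mod_cast hp i
    linarith
  positivity

theorem card_dvd {p : ι → ℕ} (hp : ∀ i, (p i).Prime) (hinj : Function.Injective p) {z A : ℕ}
    (hz : ∀ i, 2 ^ z ≤ p i) {m : ℤ} (hm0 : m ≠ 0) (hm : |m| ≤ 2 ^ A) (U : Finset ι)
    (hU : ∀ i ∈ U, (p i : ℤ) ∣ m) : z * U.card ≤ A := by
  have h1 : ∏ i ∈ U, p i ∣ m.natAbs := by
    have h0 : ∏ i ∈ U, (p i : ℤ) ∣ m := by
      refine Finset.prod_dvd_of_coprime ?_ fun i hi => hU i hi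
      intro i _ j _ hij
      exact Nat.isCoprime_iff_coprime.2
        ((Nat.coprime_primes (hp i) (hp j)).2 fun h => hij (hinj h))
    rw [← Int.natCast_dvd]
    push_cast
    exact h0
  have h2 : (2 ^ z) ^ U.card ≤ ∏ i ∈ U, p i := by
    rw [← Finset.prod_const]
    exact Finset.prod_le_prod (fun _ _ => Nat.zero_le _) fun i _ => hz i
  have h3 : ∏ i ∈ U, p i ≤ m.natAbs := Nat.le_of_dvd (Int.natAbs_pos.2 hm0) h1
  have h4 : m.natAbs ≤ 2 ^ A := by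
    have h5 : ((m.natAbs : ℕ) : ℤ) ≤ ((2 ^ A : ℕ) : ℤ) := by
      rw [Int.natCast_natAbs]
      push_cast
      exact hm
    exact_mod_cast h5
  rw [← pow_mul] at h2
  exact (Nat.pow_le_pow_iff_right (by norm_num : 1 < 2)).1 (h2.trans (h3.trans h4))

end Pool.Agent.VOID
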