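import Pool.Agent.VOID.Quad

/-! VOID/Off.  The off-diagonal sum is small because all large primes exceed `z`.

`∏ i, GG (p i) (σ i) (σ' i) = 0` unless `supp σ = supp σ'`.  If `supp σ = supp σ' = U` and
`σ ≠ σ'`, every factor is `1` (outside `U`) or at most `1/(p i - 1)` in absolute value (inside), and
at least one factor is `1/(p i - 1)^2 ≤ (1/z) (1/(p i - 1))`, so the product is
`≤ 1 / (z PH p U)`.  For given `U` with `U.card ≤ N` there are at most `k ^ U.card ≤ (k+1)^N`
assignments with support `U` (`k = card κ`), so the sum is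
`≤ (k+1)^(2N) / z * ∑_U 1 / PH p U = (k+1)^(2N) / z * ∏ i, (1 + 1/(p i - 1))`
(`Finset.prod_one_add`, `Fintype.piFinset`/`Finset.card_le_card_of_injOn` for the count: an
assignment with support `U` is determined by its values in `κ` on `U`). -/

set_option autoImplicit false

open Finset Pool.Agent.RS

namespace Pool.Agent.VOID

variable {ι κ : Type} [Fintype ι] [DecidableEq ι] [DecidableEq κ] [Fintype κ]

/-- upper bound for the off-diagonal sum -/
noncomputable def offB (κ : Type) [Fintype κ] (p : ι → ℕ) (N : ℕ) (z : ℝ) : ℝ :=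
  ((Fintype.card κ : ℝ) + 1) ^ (2 * N) * (∏ i, (1 + 1 / ((p i : ℝ) - 1))) / z

omit [DecidableEq ι] [DecidableEq κ] in
private theorem off_p1 {p : ι → ℕ} (hp : ∀ i, 2 ≤ p i) (i : ι) : (1 : ℝ) ≤ (p i : ℝ) - 1 := by
  have h1 : (2 : ℝ) ≤ (p i : ℝ) := by exact_mod_cast hp i
  linarith

omit [DecidableEq ι] in
/-- a local factor with different entries -/
private theorem off_ne {p : ι → ℕ} (hp : ∀ i, 2 ≤ p i) {z : ℝ} (hz0 : 0 < z)
    (hz : ∀ i, z ≤ (p i : ℝ) - 1) (i : ι) (a b : κ) (hab : a ≠ b) :
    |GG (p i) (some a) (some b)| ≤ 1 / z * (1 / ((p i : ℝ) - 1)) := by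
  have h1 := off_p1 hp i
  have h2 : (0 : ℝ) < (p i : ℝ) - 1 := by linarith
  have e : |GG (p i) (some a) (some b)| = 1 / ((p i : ℝ) - 1) ^ 2 := by
    simp only [GG]
    rw [if_neg hab, neg_div, abs_neg, abs_of_nonneg (by positivity)]
  rw [e, pow_two, one_div_mul_one_div]
  exact one_div_le_one_div_of_le (by positivity) (mul_le_mul_of_nonneg_right (hz i) h2.le)

omit [DecidableEq ι] in
private theorem off_le {p : ι → ℕ} (hp : ∀ i, 2 ≤ p i) (i : ι) (a b : κ) :
    |GG (p i) (some a) (some b)| ≤ 1 / ((p i : ℝ) - 1) := by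
  have h1 := off_p1 hp i
  have h2 : (0 : ℝ) < (p i : ℝ) - 1 := by linarith
  by_cases hab : a = b
  · simp only [GG]
    rw [if_pos hab, abs_of_nonneg (by positivity)]
  · have h3 := off_ne hp zero_lt_one (off_p1 hp) i a b hab
    rwa [div_one, one_mul] at h3

/-- the off-diagonal entries of the Gram matrix -/
private theorem off_gram {p : ι → ℕ} (hp : ∀ i, 2 ≤ p i) {z : ℝ} (hz0 : 0 < z)
    (hz : ∀ i, z ≤ (p i : ℝ) - 1) {σ σ' : ι → Option κ} (hne : σ ≠ σ')
    (hs : supp σ' = supp σ) :
    |∏ i, GG (p i) (σ i) (σ' i)| ≤ 1 / z * (1 / PH p (supp σ)) := by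
  obtain ⟨i0, hi0⟩ := Function.ne_iff.1 hne
  set g : ι → ℝ := fun i => if i ∈ supp σ then 1 / ((p i : ℝ) - 1) else 1 with hg
  have hss : ∀ i, σ i = none ↔ σ' i = none := by
    intro i
    have h1 : i ∈ supp σ' ↔ i ∈ supp σ := by rw [hs]
    rw [mem_supp, mem_supp] at h1
    tauto
  have h1 : ∀ i, |GG (p i) (σ i) (σ' i)| ≤ g i := by
    intro i
    rw [hg]
    dsimp only
    rcases h2 : σ i with _ | a
    · have h3 := (hss i).1 h2
      rw [h3, if_neg (by rw [mem_supp, not_not]; exact h2)]
      simp [GG]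
    · rcases h4 : σ' i with _ | b
      · rw [(hss i).2 h4] at h2
        cases h2
      · rw [if_pos (by rw [mem_supp, h2]; simp)]
        exact off_le hp i a b
  have h2 : |GG (p i0) (σ i0) (σ' i0)| ≤ 1 / z * g i0 := by
    rw [hg]
    dsimp only
    rcases h2 : σ i0 with _ | a
    · have h3 := (hss i0).1 h2
      exact absurd (h2.trans h3.symm) hi0
    · rcases h4 : σ' i0 with _ | b
      · rw [(hss i0).2 h4] at h2
        cases h2
      · rw [if_pos (by rw [mem_supp, h2]; simp)]
        refine off_ne hp hz0 hz i0 a b ?_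
        rintro rfl
        exact hi0 (h2.trans h4.symm)
  have h3 : ∏ i, g i = 1 / PH p (supp σ) := by
    rw [hg, Finset.prod_ite_mem, Finset.univ_inter, PH, Finset.prod_div_distrib,
      Finset.prod_const_one]
  have hg0 : ∀ i, 0 ≤ g i := fun i => (abs_nonneg _).trans (h1 i)
  rw [Finset.abs_prod, ← h3, ← Finset.mul_prod_erase univ _ (mem_univ i0),
    ← Finset.mul_prod_erase univ g (mem_univ i0), ← mul_assoc]
  exact mul_le_mul h2 (Finset.prod_le_prod (fun i _ => abs_nonneg _) fun i _ => h1 i)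
    (Finset.prod_nonneg fun i _ => abs_nonneg _)
    (mul_nonneg (by positivity) (hg0 i0))

/-- the number of assignments with a given support -/
private theorem off_count (U : Finset ι) {N : ℕ} (hU : U.card ≤ N) :
    (((univ : Finset (ι → Option κ)).filter (fun σ => supp σ = U)).card : ℝ) ≤
      ((Fintype.card κ : ℝ) + 1) ^ N := by
  have h1 : ((univ : Finset (ι → Option κ)).filter (fun σ => supp σ = U)).card ≤
      (univ : Finset (U → Option κ)).card := by
    refine Finset.card_le_card_of_injOn (fun σ i => σ i) (fun _ _ => mem_coe.2 (mem_univ _)) ?_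
    intro σ hσ σ' hσ' he
    have hσ1 := (mem_filter.1 (mem_coe.1 hσ)).2
    have hσ2 := (mem_filter.1 (mem_coe.1 hσ')).2
    funext i
    by_cases hi : i ∈ U
    · exact congrFun he ⟨i, hi⟩
    · have h2 : i ∉ supp σ := by rw [hσ1]; exact hi
      have h3 : i ∉ supp σ' := by rw [hσ2]; exact hi
      rw [mem_supp, not_not] at h2 h3
      rw [h2, h3]
  have h2 : (univ : Finset (U → Option κ)).card = (Fintype.card κ + 1) ^ U.card := by
    rw [Finset.card_univ, Fintype.card_fun, Fintype.card_option, Fintype.card_coe]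
  have h3 : (Fintype.card κ + 1) ^ U.card ≤ (Fintype.card κ + 1) ^ N :=
    Nat.pow_le_pow_right (by omega) hU
  have h4 := h1.trans (h2.le.trans h3)
  exact_mod_cast h4

theorem off {p : ι → ℕ} (hp : ∀ i, 2 ≤ p i) {z : ℝ} (hz0 : 0 < z)
    (hz : ∀ i, z ≤ (p i : ℝ) - 1) (Z : (ι → Option κ) → ℝ) (hZ1 : ∀ σ, |Z σ| ≤ 1) {N : ℕ}
    (hN : ∀ σ, Z σ ≠ 0 → (supp σ).card ≤ N) : offs p Z ≤ offB κ p N z := by
  classical
  have hPH : ∀ U : Finset ι, 0 < PH p U := fun U =>
    Finset.prod_pos fun i _ => by linarith [off_p1 hp i]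
  set b : Finset ι → ℝ := fun U => if U.card ≤ N then 1 / z * (1 / PH p U) else 0 with hb
  have hb0 : ∀ U, 0 ≤ b U := by
    intro U
    rw [hb]
    dsimp only
    split_ifs
    · have := hPH U
      positivity
    · exact le_rfl
  set kN : ℝ := ((Fintype.card κ : ℝ) + 1) ^ N with hkN
  have hkN0 : 0 ≤ kN := by positivity
  -- the count against the weight
  have hcnt : ∀ U : Finset ι,
      (((univ : Finset (ι → Option κ)).filter (fun σ => supp σ = U)).card : ℝ) * b U ≤
        kN * b U := by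
    intro U
    by_cases hU : U.card ≤ N
    · exact mul_le_mul_of_nonneg_right (off_count U hU) (hb0 U)
    · have h1 : b U = 0 := by
        rw [hb]
        exact if_neg hU
      rw [h1, mul_zero, mul_zero]
  -- the terms
  have hterm : ∀ σ σ' : ι → Option κ, σ' ≠ σ →
      |Z σ * Z σ'| * |∏ i, GG (p i) (σ i) (σ' i)| ≤ if supp σ' = supp σ then b (supp σ) else 0 := by
    intro σ σ' hne
    by_cases hs : supp σ' = supp σ
    · rw [if_pos hs]
      by_cases hc : (supp σ).card ≤ N
      · have h1 : b (supp σ) = 1 / z * (1 / PH p (supp σ)) := by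
          rw [hb]
          exact if_pos hc
        rw [h1]
        have h2 : |Z σ * Z σ'| ≤ 1 := by
          rw [abs_mul]
          exact mul_le_one₀ (hZ1 σ) (abs_nonneg _) (hZ1 σ')
        have h3 := off_gram hp hz0 hz hne.symm hs
        exact (mul_le_mul_of_nonneg_right h2 (abs_nonneg _)).trans (by rwa [one_mul])
      · have h1 : Z σ = 0 := by
          by_contra h2
          exact hc (hN σ h2)
        rw [h1, zero_mul, abs_zero, zero_mul]
        exact hb0 _
    · rw [if_neg hs]
      have h1 : ∏ i, GG (p i) (σ i) (σ' i) = 0 := by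
        have h2 : ∃ i, ¬ (i ∈ supp σ' ↔ i ∈ supp σ) := by
          by_contra h3
          push Not at h3
          exact hs (Finset.ext h3)
        obtain ⟨i, hi⟩ := h2
        refine Finset.prod_eq_zero (mem_univ i) ?_
        rw [mem_supp, mem_supp] at hi
        rcases h4 : σ i with _ | a
        · rcases h5 : σ' i with _ | c
          · exact absurd (by rw [h4, h5]) hi
          · simp [GG]
        · rcases h5 : σ' i with _ | c
          · simp [GG]
          · exact absurd (by rw [h4, h5]; simp) hi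
      rw [h1, abs_zero, mul_zero]
  have hrow : ∀ σ : ι → Option κ, ∑ σ' ∈ (univ : Finset (ι → Option κ)).erase σ,
      |Z σ * Z σ'| * |∏ i, GG (p i) (σ i) (σ' i)| ≤ kN * b (supp σ) := by
    intro σ
    calc ∑ σ' ∈ (univ : Finset (ι → Option κ)).erase σ,
          |Z σ * Z σ'| * |∏ i, GG (p i) (σ i) (σ' i)|
        ≤ ∑ σ' ∈ (univ : Finset (ι → Option κ)).erase σ,
            (if supp σ' = supp σ then b (supp σ) else 0) :=
          Finset.sum_le_sum fun σ' hσ' => hterm σ σ' (Finset.ne_of_mem_erase hσ')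
      _ ≤ ∑ σ' : ι → Option κ, (if supp σ' = supp σ then b (supp σ) else 0) := by
          refine Finset.sum_le_sum_of_subset_of_nonneg (Finset.erase_subset _ _) fun σ' _ _ => ?_
          split_ifs
          · exact hb0 _
          · exact le_rfl
      _ = (((univ : Finset (ι → Option κ)).filter (fun σ' => supp σ' = supp σ)).card : ℝ) *
            b (supp σ) := by
          rw [← Finset.sum_filter, Finset.sum_const, nsmul_eq_mul]
      _ ≤ kN * b (supp σ) := hcnt _
  have hsum : ∑ σ : ι → Option κ, b (supp σ) ≤ ∑ U : Finset ι, kN * b U := by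
    rw [← Finset.sum_fiberwise (univ : Finset (ι → Option κ)) supp]
    refine Finset.sum_le_sum fun U _ => ?_
    rw [Finset.sum_congr rfl fun σ hσ => by rw [(mem_filter.1 hσ).2], Finset.sum_const,
      nsmul_eq_mul]
    exact hcnt U
  have hprod : ∑ U : Finset ι, b U ≤ 1 / z * ∏ i, (1 + 1 / ((p i : ℝ) - 1)) := by
    have h1 : ∀ U : Finset ι, b U ≤ 1 / z * ∏ i ∈ U, (1 / ((p i : ℝ) - 1)) := by
      intro U
      have h2 : ∏ i ∈ U, (1 / ((p i : ℝ) - 1)) = 1 / PH p U := by
        rw [PH, Finset.prod_div_distrib, Finset.prod_const_one]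
      rw [h2, hb]
      dsimp only
      split_ifs
      · exact le_rfl
      · have := hPH U
        positivity
    refine (Finset.sum_le_sum fun U _ => h1 U).trans ?_
    rw [← Finset.mul_sum, Finset.prod_one_add, Finset.powerset_univ]
  unfold offs offB
  calc ∑ σ, ∑ σ' ∈ (univ : Finset (ι → Option κ)).erase σ,
        |Z σ * Z σ'| * |∏ i, GG (p i) (σ i) (σ' i)|
      ≤ ∑ σ : ι → Option κ, kN * b (supp σ) := Finset.sum_le_sum fun σ _ => hrow σ
    _ = kN * ∑ σ : ι → Option κ, b (supp σ) := by rw [Finset.mul_sum]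
    _ ≤ kN * (kN * (1 / z * ∏ i, (1 + 1 / ((p i : ℝ) - 1)))) := by
        refine mul_le_mul_of_nonneg_left (hsum.trans ?_) hkN0
        rw [← Finset.mul_sum]
        exact mul_le_mul_of_nonneg_left hprod hkN0
    _ = ((Fintype.card κ : ℝ) + 1) ^ (2 * N) * (∏ i, (1 + 1 / ((p i : ℝ) - 1))) / z := by
        rw [hkN, two_mul, pow_add]
        ring

end Pool.Agent.VOID
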