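import Mathlib

/-! VOID/ClsSum.  Summation over residue classes in the interval `(x, x + y]`.

`M1` and `W` coprime, `M = W * M1`.  For `b ∈ G` let `n0 b` be the integer in `(x, x + M]` with
`n0 ≡ r [MOD W]`, `n0 ≡ b [MOD M1]` (`Nat.chineseRemainder`, then shift by a multiple of `M`).
For `t < T`, `T = y / M`: `x < n0 + M t ≤ x + M + M (T - 1) ≤ x + y`.  The map
`(b, t) ↦ n0 b + M t` is injective on `G × range T` (`b = n % M1` because `b < M1`, then `t`), and
maps the good pairs to the set on the right. -/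

set_option autoImplicit false

open Finset

namespace Pool.Agent.VOID

private theorem clssum_exists {W M1 : ℕ} (hW : 0 < W) (hM1 : 0 < M1) (hc : Nat.Coprime W M1)
    (a r b : ℕ) : ∃ n0 : ℕ, a < n0 ∧ n0 ≤ a + W * M1 ∧ n0 ≡ r [MOD W] ∧ n0 ≡ b [MOD M1] := by
  obtain ⟨k, hk1, hk2⟩ := Nat.chineseRemainder hc r b
  have hM : 0 < W * M1 := Nat.mul_pos hW hM1
  obtain ⟨L, hL⟩ := Nat.exists_eq_add_of_lt hM
  rw [zero_add] at hL
  have h1 : a + 1 + (k + L * (a + 1)) % (W * M1) ≡ k [MOD W * M1] := by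
    have h2 : a + 1 + (k + L * (a + 1)) % (W * M1) ≡ a + 1 + (k + L * (a + 1)) [MOD W * M1] :=
      (Nat.mod_modEq _ _).add_left _
    have h3 : a + 1 + (k + L * (a + 1)) = k + (W * M1) * (a + 1) := by
      rw [hL]
      ring
    rw [h3] at h2
    refine h2.trans ?_
    have h4 : k + (W * M1) * (a + 1) ≡ k + 0 [MOD W * M1] :=
      Nat.ModEq.add_left _ ((Nat.modEq_zero_iff_dvd).2 (dvd_mul_right _ _))
    rwa [add_zero] at h4
  refine ⟨a + 1 + (k + L * (a + 1)) % (W * M1), by omega, ?_, ?_, ?_⟩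
  · have := Nat.mod_lt (k + L * (a + 1)) hM
    omega
  · exact (h1.of_dvd (dvd_mul_right _ _)).trans hk1
  · exact (h1.of_dvd (dvd_mul_left _ _)).trans hk2

open Classical in
theorem cls_sum {W M1 : ℕ} (hW : 0 < W) (hM1 : 0 < M1) (hc : Nat.Coprime W M1) (x y r : ℕ)
    (G : Finset ℕ) (hG : G ⊆ range M1) (P : ℕ → Prop) {v : ℝ}
    (h : ∀ b ∈ G, ∀ n0 : ℕ, x < n0 → n0 ≤ x + W * M1 → n0 ≡ r [MOD W] →
      n0 ≡ b [MOD M1] →
      v ≤ (((range (y / (W * M1))).filter (fun t => P (n0 + W * M1 * t))).card : ℝ)) :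
    (G.card : ℝ) * v ≤ (((Ioc x (x + y)).filter (fun n => n ≡ r [MOD W] ∧ P n)).card : ℝ) := by
  choose n0 h1 h2 h3 h4 using fun b => clssum_exists hW hM1 hc x r b
  have hM : 0 < W * M1 := Nat.mul_pos hW hM1
  have e1 : (G.card : ℝ) * v ≤ ((∑ b ∈ G, ((range (y / (W * M1))).filter
      (fun t => P (n0 b + W * M1 * t))).card : ℕ) : ℝ) := by
    push_cast
    rw [← nsmul_eq_mul, ← sum_const]
    exact sum_le_sum fun b hb => h b hb (n0 b) (h1 b) (h2 b) (h3 b) (h4 b)
  refine e1.trans ?_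
  rw [← card_sigma]
  have e2 : (G.sigma fun b => (range (y / (W * M1))).filter
      (fun t => P (n0 b + W * M1 * t))).card ≤
      ((Ioc x (x + y)).filter (fun n => n ≡ r [MOD W] ∧ P n)).card := by
    apply card_le_card_of_injOn (fun z : (_ : ℕ) × ℕ => n0 z.1 + W * M1 * z.2)
    · rintro ⟨b, t⟩ hz
      rw [mem_coe, mem_sigma, mem_filter, mem_range] at hz
      obtain ⟨hb, ht, hP⟩ := hz
      simp only at hb ht hP
      rw [mem_coe, mem_filter, mem_Ioc]
      have h5 : W * M1 * (t + 1) ≤ y :=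
        (Nat.mul_le_mul_left _ ht).trans (Nat.mul_div_le _ _)
      have h6 := h2 b
      have h7 : W * M1 * (t + 1) = W * M1 * t + W * M1 := by ring
      refine ⟨⟨?_, ?_⟩, ?_, hP⟩
      · exact lt_of_lt_of_le (h1 b) (Nat.le_add_right _ _)
      · show n0 b + W * M1 * t ≤ x + y
        omega
      · show n0 b + W * M1 * t ≡ r [MOD W]
        have h8 : n0 b + W * M1 * t ≡ r + 0 [MOD W] :=
          (h3 b).add ((Nat.modEq_zero_iff_dvd).2 ((dvd_mul_right W M1).mul_right t))
        rwa [add_zero] at h8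
    · rintro ⟨b, t⟩ hz ⟨b', t'⟩ hz' he
      rw [mem_coe, mem_sigma, mem_filter, mem_range] at hz hz'
      simp only at hz hz' he
      have h5 : ∀ b t, n0 b + W * M1 * t ≡ b [MOD M1] := by
        intro b t
        have h8 : n0 b + W * M1 * t ≡ b + 0 [MOD M1] :=
          (h4 b).add ((Nat.modEq_zero_iff_dvd).2 ((dvd_mul_left M1 W).mul_right t))
        rwa [add_zero] at h8
      have h6 : b ≡ b' [MOD M1] := by
        have h7 := h5 b' t'
        rw [← he] at h7
        exact (h5 b t).symm.trans h7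
      have h7 : b = b' := Nat.ModEq.eq_of_lt_of_lt h6 (mem_range.1 (hG hz.1))
        (mem_range.1 (hG hz'.1))
      subst h7
      have h8 : W * M1 * t = W * M1 * t' := Nat.add_left_cancel he
      have h9 : t = t' := Nat.eq_of_mul_eq_mul_left hM h8
      subst h9
      rfl
  exact_mod_cast e2

end Pool.Agent.VOID
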