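import Pool.Agent.VOID.Mean
import Pool.Agent.RS.Gram

/-! VOID/Orth.  Exact orthogonality over the full period.

`mean_prod` with `S = univ` and `f i n = eo (p i) a n (σ i) * eo (p i) a n (σ' i)`, which is
`p i`-periodic (`ee q (z + q) = ee q z`); the local mean is `RS.gram_avg` with `M = 1`, `n0 = 0`.
`prod_GG_self`: `GG q none none = 1`, `GG q (some j) (some j) = 1 / (q - 1)`. -/

set_option autoImplicit false

open Finset Pool.Agent.RS

namespace Pool.Agent.VOID

variable {ι κ : Type} [Fintype ι] [DecidableEq ι] [DecidableEq κ] [Fintype κ]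

omit [Fintype κ] in
private theorem orth_eo_per (q : ℕ) (a : κ → ℤ) (n : ℤ) (o : Option κ) :
    eo q a (n + q) o = eo q a n o := by
  cases o with
  | none => rfl
  | some j =>
    show ee q (n + q - a j) = ee q (n - a j)
    have e : n + q - a j = (n - a j) + q := by ring
    rw [e]
    unfold ee
    have h : ((q : ℤ) ∣ (n - a j) + q) ↔ ((q : ℤ) ∣ n - a j) := by
      rw [dvd_add_self_right]
    by_cases hd : (q : ℤ) ∣ n - a j
    · rw [if_pos hd, if_pos (h.2 hd)]
    · rw [if_neg hd, if_neg (fun h' => hd (h.1 h'))]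

theorem orth {p : ι → ℕ} (hp : ∀ i, 2 ≤ p i) (hc : ∀ i j, i ≠ j → Nat.Coprime (p i) (p j))
    {Q1 : ℕ} (hQ1 : 0 < Q1) (hcQ : ∀ i, Nat.Coprime Q1 (p i)) {a : κ → ℤ}
    (hd : ∀ i j j', j ≠ j' → ¬ (p i : ℤ) ∣ a j - a j') {F : ℤ → ℝ} (hF : Per Q1 F)
    (σ σ' : ι → Option κ) :
    mean (Q1 * ∏ i, p i) (fun n => F n * (EE p a σ n * EE p a σ' n)) =
      mean Q1 F * ∏ i, GG (p i) (σ i) (σ' i) := by
  have h1 := mean_prod (univ : Finset ι) p (fun i _ => by have := hp i; omega)
    (fun i _ j _ hij => hc i j hij) hQ1 (fun i _ => hcQ i) hF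
    (fun i n => eo (p i) a n (σ i) * eo (p i) a n (σ' i)) (fun i _ n => by
      simp only [orth_eo_per])
  have h2 : (fun n => F n * (EE p a σ n * EE p a σ' n)) =
      fun n => F n * ∏ i, (eo (p i) a n (σ i) * eo (p i) a n (σ' i)) := by
    funext n
    unfold EE
    rw [prod_mul_distrib]
  have h3 : ∀ i, mean (p i) (fun n => eo (p i) a n (σ i) * eo (p i) a n (σ' i)) =
      GG (p i) (σ i) (σ' i) := by
    intro i
    have h4 := gram_avg (M := 1) (hp i) (Nat.coprime_one_left (p i)) 0 a (hd i) (σ i) (σ' i)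
    rw [← h4]
    unfold mean
    congr 1
    refine sum_congr rfl fun u _ => ?_
    simp
  rw [h2, h1]
  congr 1
  exact prod_congr rfl fun i _ => h3 i

theorem prod_GG_self (p : ι → ℕ) (σ : ι → Option κ) :
    ∏ i, GG (p i) (σ i) (σ i) = 1 / PH p (supp σ) := by
  unfold PH
  have h1 : ∏ i, GG (p i) (σ i) (σ i) = ∏ i ∈ supp σ, GG (p i) (σ i) (σ i) := by
    symm
    refine prod_subset (subset_univ _) ?_
    intro i _ hi
    rw [mem_supp, not_not] at hi
    rw [hi]
    rfl
  rw [h1, one_div, ← prod_inv_distrib]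
  refine prod_congr rfl fun i hi => ?_
  rw [mem_supp] at hi
  obtain ⟨j, hj⟩ := Option.ne_none_iff_exists'.1 hi
  rw [hj]
  show (if j = j then 1 / ((p i : ℝ) - 1) else -1 / ((p i : ℝ) - 1) ^ 2) = ((p i : ℝ) - 1)⁻¹
  rw [if_pos rfl, one_div]

end Pool.Agent.VOID
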