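import Mathlib

/-! VOID/ParA.  Choice of the constants `G`, `r` (depending on `CV`, `N0`, `N1` only).

Choose `G` first (a natural number `≥ 6400 N1 exp(9) CV / log 2` and `≥ 8 exp(9) / log 2`), then `r`
large: `RR G r = 2 (r+1)^3 2^(G(r+1)+16)`.
In (4) `((2^(G+1))^(2r))⁻¹ RR = 2^(17+G) (r+1)^3 2^(-(G+2) r) → 0`, the other factor is constant.
In (5) `RR exp(1-(r+1)^2/(400 N1)) = 2^17 exp 1 (r+1)^3 exp(G (r+1) log 2 - (r+1)^2/(400 N1)) → 0`.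
Use `tendsto` statements at `atTop` (`Real.tendsto_pow_mul_exp_neg_atTop_nhds_zero`,
`tendsto_pow_const_div_const_pow_of_one_lt`) and `Filter.Eventually.exists`. -/

set_option autoImplicit false

namespace Pool.Agent.VOID

/-- the constant bounding `L / m1` -/
def RR (G r : ℕ) : ℕ := 2 * (r + 1) ^ 3 * 2 ^ (G * (r + 1) + 16)

private theorem para_four (G n : ℕ) (hn : 1 ≤ n) (K : ℝ) (hK : 0 ≤ K) :
    16 * (RR G (n - 1) : ℝ) * (((2 : ℝ) ^ (G + 1)) ^ (2 * (n - 1)))⁻¹ * K ≤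
      64 * 2 ^ (G + 16) * K * ((n : ℝ) ^ 3 / 2 ^ n) := by
  obtain ⟨r, rfl⟩ := Nat.exists_eq_add_of_le' hn
  rw [Nat.add_sub_cancel]
  have h1 : ((2 : ℝ) ^ (G + 1)) ^ (2 * r) = 2 ^ (G * r) * (2 ^ r * 2 ^ (G * r + r)) := by
    rw [← pow_mul, ← pow_add, ← pow_add]
    congr 1
    ring
  have h2 : (RR G r : ℝ) = 2 * ((r + 1 : ℕ) : ℝ) ^ 3 * (2 ^ (G * r) * 2 ^ (G + 16)) := by
    have h3 : G * (r + 1) + 16 = G * r + (G + 16) := by ring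
    unfold RR
    rw [h3]
    push_cast
    rw [pow_add]
  have h3 : (1 : ℝ) ≤ 2 ^ (G * r + r) := one_le_pow₀ (by norm_num)
  have h4 : (0 : ℝ) < 2 ^ (G * r) := by positivity
  have h5 : (0 : ℝ) < 2 ^ r := by positivity
  rw [h1, h2]
  have h6 : 16 * (2 * ((r + 1 : ℕ) : ℝ) ^ 3 * (2 ^ (G * r) * 2 ^ (G + 16))) *
      (2 ^ (G * r) * (2 ^ r * 2 ^ (G * r + r)))⁻¹ * K =
      32 * 2 ^ (G + 16) * K * (((r + 1 : ℕ) : ℝ) ^ 3 / 2 ^ r) * (2 ^ (G * r + r))⁻¹ := by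
    field_simp
    ring
  rw [h6]
  have h7 : 64 * 2 ^ (G + 16) * K * (((r + 1 : ℕ) : ℝ) ^ 3 / 2 ^ (r + 1)) =
      32 * 2 ^ (G + 16) * K * (((r + 1 : ℕ) : ℝ) ^ 3 / 2 ^ r) := by
    rw [pow_succ (2 : ℝ) r]
    field_simp
    ring
  rw [h7]
  have h8 : ((2 : ℝ) ^ (G * r + r))⁻¹ ≤ 1 := inv_le_one_of_one_le₀ h3
  exact mul_le_of_le_one_right (by positivity) h8

private theorem para_five (G n N1 : ℕ) (hn : 1 ≤ n) (hN1 : 1 ≤ N1)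
    (h : 400 * N1 * ((G : ℝ) * Real.log 2 + 1) ≤ n) :
    (RR G (n - 1) : ℝ) * Real.exp (1 - (((n - 1 : ℕ) : ℝ) + 1) ^ 2 / (400 * N1)) ≤
      2 ^ 17 * Real.exp 1 * ((n : ℝ) ^ 3 * Real.exp (-(n : ℝ))) := by
  obtain ⟨r, rfl⟩ := Nat.exists_eq_add_of_le' hn
  rw [Nat.add_sub_cancel]
  have h1 : ((2 : ℝ) ^ (G * (r + 1))) = Real.exp (G * Real.log 2 * ((r + 1 : ℕ) : ℝ)) := by
    have h2 : (2 : ℝ) = Real.exp (Real.log 2) := (Real.exp_log (by norm_num)).symm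
    conv_lhs => rw [h2]
    rw [← Real.exp_nat_mul]
    congr 1
    push_cast
    ring
  have h2 : (RR G r : ℝ) = 2 ^ 17 * ((r + 1 : ℕ) : ℝ) ^ 3 *
      Real.exp (G * Real.log 2 * ((r + 1 : ℕ) : ℝ)) := by
    unfold RR
    rw [← h1]
    push_cast
    rw [pow_add]
    ring
  rw [h2]
  have h3 : Real.exp (G * Real.log 2 * ((r + 1 : ℕ) : ℝ)) *
      Real.exp (1 - ((r : ℝ) + 1) ^ 2 / (400 * N1)) ≤ Real.exp 1 * Real.exp (-((r + 1 : ℕ) : ℝ)) := by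
    rw [← Real.exp_add, ← Real.exp_add]
    apply Real.exp_le_exp.2
    push_cast at h ⊢
    have h4 : (0 : ℝ) ≤ (r : ℝ) + 1 := by positivity
    have hNr : (0 : ℝ) < 400 * (N1 : ℝ) := by
      have : (1 : ℝ) ≤ N1 := by exact_mod_cast hN1
      linarith
    have h5 : ((G : ℝ) * Real.log 2 + 1) * ((r : ℝ) + 1) ≤ ((r : ℝ) + 1) ^ 2 / (400 * N1) := by
      rw [le_div_iff₀ hNr]
      have := mul_le_mul_of_nonneg_right h h4
      nlinarith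
    linarith
  calc 2 ^ 17 * ((r + 1 : ℕ) : ℝ) ^ 3 * Real.exp (G * Real.log 2 * ((r + 1 : ℕ) : ℝ)) *
        Real.exp (1 - ((r : ℝ) + 1) ^ 2 / (400 * N1))
      = 2 ^ 17 * ((r + 1 : ℕ) : ℝ) ^ 3 * (Real.exp (G * Real.log 2 * ((r + 1 : ℕ) : ℝ)) *
        Real.exp (1 - ((r : ℝ) + 1) ^ 2 / (400 * N1))) := by ring
    _ ≤ 2 ^ 17 * ((r + 1 : ℕ) : ℝ) ^ 3 * (Real.exp 1 * Real.exp (-((r + 1 : ℕ) : ℝ))) :=
        mul_le_mul_of_nonneg_left h3 (by positivity)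
    _ = _ := by ring

theorem parA (CV : ℝ) (hCV : 0 < CV) (N0 N1 : ℕ) (hN1 : 1 ≤ N1) :
    ∃ G r : ℕ, 1 ≤ G ∧ N0 ≤ r ∧ 10 * N1 ≤ r ∧
    6400 * (N1 : ℝ) * Real.exp 9 * CV / Real.log 2 ≤ G ∧ 8 * Real.exp 9 / Real.log 2 ≤ G ∧
    16 * (RR G r : ℝ) * (((2 : ℝ) ^ (G + 1)) ^ (2 * r))⁻¹ * Real.exp (16 * 2 ^ (G + 1) * 8) ≤
      Real.log 2 ∧
    32 * CV * (RR G r : ℝ) * Real.exp (1 - ((r : ℝ) + 1) ^ 2 / (400 * N1)) ≤ 1 := by
  obtain ⟨G, hG⟩ := exists_nat_ge (max 1 (max (6400 * (N1 : ℝ) * Real.exp 9 * CV / Real.log 2)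
    (8 * Real.exp 9 / Real.log 2)))
  have hG1 : (1 : ℝ) ≤ G := (le_max_left _ _).trans hG
  have hG2 : 6400 * (N1 : ℝ) * Real.exp 9 * CV / Real.log 2 ≤ G :=
    ((le_max_left _ _).trans (le_max_right _ _)).trans hG
  have hG3 : 8 * Real.exp 9 / Real.log 2 ≤ G :=
    ((le_max_right _ _).trans (le_max_right _ _)).trans hG
  have hl2 : 0 < Real.log 2 := Real.log_pos (by norm_num)
  set K := Real.exp (16 * 2 ^ (G + 1) * 8) with hK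
  have t1 : Filter.Tendsto (fun n : ℕ => 64 * 2 ^ (G + 16) * K * ((n : ℝ) ^ 3 / 2 ^ n))
      Filter.atTop (nhds (64 * 2 ^ (G + 16) * K * 0)) :=
    (tendsto_pow_const_div_const_pow_of_one_lt 3 (by norm_num : (1 : ℝ) < 2)).const_mul _
  rw [mul_zero] at t1
  have t2 : Filter.Tendsto (fun n : ℕ => 32 * CV * (2 ^ 17 * Real.exp 1 *
      ((n : ℝ) ^ 3 * Real.exp (-(n : ℝ))))) Filter.atTop
      (nhds (32 * CV * (2 ^ 17 * Real.exp 1 * 0))) :=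
    (((Real.tendsto_pow_mul_exp_neg_atTop_nhds_zero 3).comp
      tendsto_natCast_atTop_atTop).const_mul _).const_mul _
  rw [mul_zero, mul_zero] at t2
  have e1 := t1.eventually (gt_mem_nhds hl2)
  have e2 := t2.eventually (gt_mem_nhds one_pos)
  have e3 := (tendsto_natCast_atTop_atTop (R := ℝ)).eventually
    (Filter.eventually_ge_atTop (400 * (N1 : ℝ) * ((G : ℝ) * Real.log 2 + 1)))
  obtain ⟨n, ⟨⟨h1, h2⟩, h3⟩, h4⟩ := (((e1.and e2).and e3).and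
    (Filter.eventually_ge_atTop (N0 + 10 * N1 + 1))).exists
  have hn : 1 ≤ n := by omega
  refine ⟨G, n - 1, by exact_mod_cast hG1, by omega, by omega, hG2, hG3, ?_, ?_⟩
  · exact (para_four G n hn K (Real.exp_pos _).le).trans h1.le
  · have h5 := para_five G n N1 hn hN1 h3
    have h6 : 32 * CV * ((RR G (n - 1) : ℝ) *
        Real.exp (1 - (((n - 1 : ℕ) : ℝ) + 1) ^ 2 / (400 * N1))) ≤
        32 * CV * (2 ^ 17 * Real.exp 1 * ((n : ℝ) ^ 3 * Real.exp (-(n : ℝ)))) :=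
      mul_le_mul_of_nonneg_left h5 (by positivity)
    calc 32 * CV * (RR G (n - 1) : ℝ) * Real.exp (1 - (((n - 1 : ℕ) : ℝ) + 1) ^ 2 / (400 * N1))
        = 32 * CV * ((RR G (n - 1) : ℝ) *
          Real.exp (1 - (((n - 1 : ℕ) : ℝ) + 1) ^ 2 / (400 * N1))) := by ring
      _ ≤ _ := h6
      _ ≤ 1 := h2.le

end Pool.Agent.VOID
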