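import Pool.Agent.VOID.RepMul

/-! VOID/BfA.  One block of the Brun sieve.

`bf r ω = 1` if `ω = 0` and `C(ω-1, 2r)` otherwise; for a finite set `S` of primes
`psiB S r m = bf r (om S m)`, `om S m = #{q ∈ S : q ∣ m}`.

`bf_eq_sum`: `bf r ω = ∑_{j ≤ 2r} (-1)^j C(ω, j)` (Mathlib: `Int.alternating_sum_range_choose...`,
or induction on `r`/`m` for `∑_{j ≤ m} (-1)^j C(ω+1, j) = (-1)^m C(ω, m)`).
`bf_vanish`: `C(ω-1, 2r) = 0` for `ω ≤ 2r`.  `bf_pow_le`: `C(ω-1,2r) ≤ 2^ω`, to the power `e ≤ 3`.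
`psiB_rep`: `psiB S r m = ∑_{U ⊆ S, U.card ≤ 2r} (-1)^(U.card) 1_{∏_{q∈U} q ∣ m}`
(the `U` with `∏ U ∣ m` are the subsets of `{q ∈ S : q ∣ m}`: distinct primes are coprime;
`Finset.powersetCard`, `Finset.card_powersetCard`), so the weight is at most
`∑_{j ≤ 2r} C(S.card, j) ≤ (S.card + 1)^(2r)`; `∏_{q∈U} q` divides `∏_{q∈S} q`. -/

set_option autoImplicit false

open Finset Pool.Agent.RS

namespace Pool.Agent.VOID

/-- the local weight of a block -/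
noncomputable def bf (r ω : ℕ) : ℝ := if ω = 0 then 1 else ((ω - 1).choose (2 * r) : ℝ)

open Classical in
/-- the number of elements of `S` dividing `m` -/
noncomputable def om (S : Finset ℕ) (m : ℤ) : ℕ := (S.filter (fun q : ℕ => (q : ℤ) ∣ m)).card

/-- the Brun weight of the block `S` -/
noncomputable def psiB (S : Finset ℕ) (r : ℕ) (m : ℤ) : ℝ := bf r (om S m)

theorem bf_nonneg (r ω : ℕ) : 0 ≤ bf r ω := by
  unfold bf
  split_ifs
  · exact zero_le_one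
  · exact Nat.cast_nonneg _

theorem bf_zero (r : ℕ) : bf r 0 = 1 := by simp [bf]

private theorem bfa_alt (m n : ℕ) :
    ∑ j ∈ range (n + 1), (-1 : ℝ) ^ j * ((m + 1).choose j : ℝ) = (-1) ^ n * (m.choose n : ℝ) := by
  induction n with
  | zero => simp
  | succ n ih =>
    rw [Finset.sum_range_succ, ih, Nat.choose_succ_succ]
    push_cast
    ring

theorem bf_eq_sum (r ω : ℕ) :
    bf r ω = ∑ j ∈ range (2 * r + 1), (-1 : ℝ) ^ j * (ω.choose j : ℝ) := by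
  unfold bf
  cases ω with
  | zero =>
    rw [if_pos rfl, Finset.sum_range_succ']
    simp
  | succ m =>
    rw [if_neg (Nat.succ_ne_zero m), bfa_alt, pow_mul]
    simp

theorem bf_vanish {r ω : ℕ} (h0 : ω ≠ 0) (h : ω ≤ 2 * r) : bf r ω = 0 := by
  unfold bf
  rw [if_neg h0, Nat.choose_eq_zero_of_lt (by omega), Nat.cast_zero]

theorem bf_pow_le {e : ℕ} (he : e ≤ 3) (r ω : ℕ) : bf r ω ^ e ≤ 8 ^ ω := by
  have h1 : bf r ω ≤ 2 ^ ω := by
    unfold bf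
    split_ifs with h
    · rw [h, pow_zero]
    · have h2 : (ω - 1).choose (2 * r) ≤ 2 ^ ω :=
        (Nat.choose_le_two_pow _ _).trans (Nat.pow_le_pow_right (by norm_num) (Nat.sub_le _ _))
      exact_mod_cast h2
  have h3 : (1 : ℝ) ≤ 2 ^ ω := one_le_pow₀ (by norm_num)
  calc bf r ω ^ e ≤ (2 ^ ω) ^ e := pow_le_pow_left₀ (bf_nonneg r ω) h1 e
    _ ≤ (2 ^ ω) ^ 3 := pow_le_pow_right₀ h3 he
    _ = 8 ^ ω := by
      rw [← pow_mul, mul_comm, pow_mul]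
      norm_num

private theorem bfa_choose (N k : ℕ) : ∑ j ∈ range (k + 1), (N.choose j : ℝ) ≤ ((N : ℝ) + 1) ^ k := by
  induction k with
  | zero => simp
  | succ k ih =>
    rw [Finset.sum_range_succ]
    have h1 : (N.choose (k + 1) : ℝ) ≤ (N : ℝ) ^ (k + 1) := by
      exact_mod_cast Nat.choose_le_pow N (k + 1)
    have h2 : (N : ℝ) ^ (k + 1) ≤ N * ((N : ℝ) + 1) ^ k := by
      rw [pow_succ, mul_comm]
      apply mul_le_mul_of_nonneg_left _ (Nat.cast_nonneg N)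
      exact pow_le_pow_left₀ (Nat.cast_nonneg N) (by linarith) k
    calc ∑ j ∈ range (k + 1), (N.choose j : ℝ) + (N.choose (k + 1) : ℝ)
        ≤ ((N : ℝ) + 1) ^ k + N * ((N : ℝ) + 1) ^ k := add_le_add ih (h1.trans h2)
      _ = ((N : ℝ) + 1) ^ (k + 1) := by ring

private theorem bfa_dvd {S U : Finset ℕ} (hS : ∀ q ∈ S, q.Prime) (hU : U ⊆ S) (m : ℤ) :
    ((∏ q ∈ U, q : ℕ) : ℤ) ∣ m ↔ ∀ q ∈ U, (q : ℤ) ∣ m := by
  constructor
  · intro h q hq
    exact (Int.natCast_dvd_natCast.mpr (Finset.dvd_prod_of_mem _ hq)).trans h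
  · intro h
    rw [Int.natCast_dvd]
    apply Finset.prod_primes_dvd
    · intro q hq
      exact (hS q (hU hq)).prime
    · intro q hq
      exact Int.natCast_dvd.mp (h q hq)

open Classical in
private theorem bfa_count {S : Finset ℕ} (hS : ∀ q ∈ S, q.Prime) (m : ℤ) (j : ℕ) :
    ((om S m).choose j : ℝ) =
      ∑ U ∈ S.powersetCard j, (if ((∏ q ∈ U, q : ℕ) : ℤ) ∣ m - 0 then (1 : ℝ) else 0) := by
  rw [← Finset.sum_filter, Finset.sum_const, nsmul_eq_mul, mul_one]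
  unfold om
  rw [← Finset.card_powersetCard]
  congr 2
  ext U
  rw [Finset.mem_filter, Finset.mem_powersetCard, Finset.mem_powersetCard, sub_zero]
  constructor
  · rintro ⟨h1, h2⟩
    have hU : U ⊆ S := h1.trans (Finset.filter_subset _ _)
    refine ⟨⟨hU, h2⟩, ?_⟩
    rw [bfa_dvd hS hU]
    intro q hq
    exact (Finset.mem_filter.mp (h1 hq)).2
  · rintro ⟨⟨h1, h2⟩, h3⟩
    rw [bfa_dvd hS h1] at h3
    refine ⟨?_, h2⟩
    intro q hq
    rw [Finset.mem_filter]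
    exact ⟨h1 hq, h3 q hq⟩

theorem psiB_rep {S : Finset ℕ} (hS : ∀ q ∈ S, q.Prime) (r : ℕ) :
    Rep (∏ q ∈ S, q) (psiB S r) (((S.card : ℝ) + 1) ^ (2 * r)) := by
  classical
  have h1 : psiB S r = fun m => ∑ j ∈ range (2 * r + 1),
      ((-1 : ℝ) ^ j * ∑ U ∈ S.powersetCard j,
        (if ((∏ q ∈ U, q : ℕ) : ℤ) ∣ m - 0 then (1 : ℝ) else 0)) := by
    funext m
    unfold psiB
    rw [bf_eq_sum]
    apply Finset.sum_congr rfl
    intro j _
    rw [bfa_count hS]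
  rw [h1]
  have h2 : Rep (∏ q ∈ S, q) (fun m => ∑ j ∈ range (2 * r + 1),
      ((-1 : ℝ) ^ j * ∑ U ∈ S.powersetCard j,
        (if ((∏ q ∈ U, q : ℕ) : ℤ) ∣ m - 0 then (1 : ℝ) else 0)))
      (∑ j ∈ range (2 * r + 1), |(-1 : ℝ) ^ j| * ∑ U ∈ S.powersetCard j, (1 : ℝ)) := by
    apply Rep.sum (range (2 * r + 1)) (fun j m => ((-1 : ℝ) ^ j * ∑ U ∈ S.powersetCard j,
        (if ((∏ q ∈ U, q : ℕ) : ℤ) ∣ m - 0 then (1 : ℝ) else 0)))
      (fun j => |(-1 : ℝ) ^ j| * ∑ U ∈ S.powersetCard j, (1 : ℝ))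
    intro j _
    apply Rep.smul ((-1 : ℝ) ^ j)
    apply Rep.sum (S.powersetCard j) (fun U m =>
      (if ((∏ q ∈ U, q : ℕ) : ℤ) ∣ m - 0 then (1 : ℝ) else 0)) (fun _ => 1)
    intro U hU
    rw [Finset.mem_powersetCard] at hU
    refine Rep.cls (Or.inr ⟨∏ q ∈ U, q, 0, ?_, ?_, fun n => rfl⟩)
    · exact Finset.prod_dvd_prod_of_subset _ _ _ hU.1
    · exact Finset.prod_pos (fun q hq => (hS q (hU.1 hq)).pos)
  refine Rep.mono h2 ?_
  have h3 : ∑ j ∈ range (2 * r + 1), |(-1 : ℝ) ^ j| * ∑ U ∈ S.powersetCard j, (1 : ℝ) =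
      ∑ j ∈ range (2 * r + 1), (S.card.choose j : ℝ) := by
    apply Finset.sum_congr rfl
    intro j _
    rw [abs_pow, abs_neg, abs_one, one_pow, one_mul, Finset.sum_const, Finset.card_powersetCard,
      nsmul_eq_mul, mul_one]
  rw [h3]
  exact bfa_choose S.card (2 * r)

end Pool.Agent.VOID
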