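import Pool.Agent.VOID.Mean

/-! VOID/BfAsg.  The joint distribution of the divisibilities `p i ∣ n - a j`.

`asg p a n i = some j` if `p i ∣ n - a j` (at most one `j`, by `hd`), `none` if there is no such `j`.
`asg_eq`: uniqueness of `j`.
`mean_asg`: `F (asg n) = ∑_σ F σ ∏_i 1_{asg n i = σ i}`; `mean_sum`, `mean_const_mul`, `mean_prod`
(`Q1 = 1`, `F = 1`); the local mean of `1_{asg n i = some j}` over the period `p i` is `1 / p i` (one
residue class), that of `1_{asg n i = none}` is `1 - k / p i` (the classes of the `a j` are distinct).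
`n ↦ asg n i` is `p i`-periodic. -/

set_option autoImplicit false

open Finset Pool.Agent.RS

namespace Pool.Agent.VOID

variable {ι κ : Type} [Fintype ι] [DecidableEq ι] [DecidableEq κ] [Fintype κ]

open Classical in
/-- the assignment defined by `n` -/
noncomputable def asg (p : ι → ℕ) (a : κ → ℤ) (n : ℤ) (i : ι) : Option κ :=
  if h : ∃ j, (p i : ℤ) ∣ n - a j then some h.choose else none

/-- the probability of a value at the modulus `q` -/
noncomputable def wq (κ : Type) [Fintype κ] (q : ℕ) : Option κ → ℝ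
  | none => 1 - (Fintype.card κ : ℝ) / q
  | some _ => 1 / q

theorem asg_eq {p : ι → ℕ} {a : κ → ℤ} (hd : ∀ i j j', j ≠ j' → ¬ (p i : ℤ) ∣ a j - a j')
    (n : ℤ) (i : ι) (j : κ) : asg p a n i = some j ↔ (p i : ℤ) ∣ n - a j := by
  unfold asg
  constructor
  · intro h
    by_cases h1 : ∃ j, (p i : ℤ) ∣ n - a j
    · rw [dif_pos h1] at h
      have h2 := h1.choose_spec
      have h3 : h1.choose = j := Option.some.inj h
      rw [h3] at h2
      exact h2
    · rw [dif_neg h1] at h
      exact absurd h (by simp)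
  · intro h
    have h1 : ∃ j, (p i : ℤ) ∣ n - a j := ⟨j, h⟩
    rw [dif_pos h1]
    congr 1
    by_contra h2
    have h3 := h1.choose_spec
    apply hd i j h1.choose (fun h4 => h2 h4.symm)
    have h5 : a j - a h1.choose = (n - a h1.choose) - (n - a j) := by ring
    rw [h5]
    exact dvd_sub h3 h

/-- one residue class has one representative in a period -/
private theorem bfasg_count {q : ℕ} (hq : 0 < q) (b : ℤ) :
    ∑ y ∈ range q, (if (q : ℤ) ∣ (y : ℤ) - b then (1 : ℝ) else 0) = 1 := by
  have hq0 : (q : ℤ) ≠ 0 := by exact_mod_cast hq.ne'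
  have hqpos : (0 : ℤ) < q := by exact_mod_cast hq
  obtain ⟨r, hr⟩ := Int.eq_ofNat_of_zero_le (Int.emod_nonneg b hq0)
  have hrlt : (r : ℤ) < q := by
    rw [← hr]
    exact Int.emod_lt_of_pos b hqpos
  have hrb : (q : ℤ) ∣ (r : ℤ) - b := by
    have h1 := Int.emod_add_mul_ediv b q
    rw [hr] at h1
    exact ⟨-(b / q), by linarith⟩
  rw [Finset.sum_eq_single r]
  · rw [if_pos hrb]
  · intro y hy hyr
    rw [if_neg]
    intro h
    apply hyr
    have h1 : (q : ℤ) ∣ (y : ℤ) - r := by
      have h2 : (y : ℤ) - r = ((y : ℤ) - b) - (r - b) := by ring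
      rw [h2]
      exact dvd_sub h hrb
    have h2 : (y : ℤ) - r = 0 := by
      apply Int.eq_zero_of_abs_lt_dvd h1
      have h3 := mem_range.mp hy
      rw [abs_lt]
      constructor <;> omega
    omega
  · intro h
    exfalso
    apply h
    rw [mem_range]
    exact_mod_cast hrlt

theorem mean_asg {p : ι → ℕ} (hp : ∀ i, 2 ≤ p i) (hc : ∀ i j, i ≠ j → Nat.Coprime (p i) (p j))
    {a : κ → ℤ} (hd : ∀ i j j', j ≠ j' → ¬ (p i : ℤ) ∣ a j - a j')
    (F : (ι → Option κ) → ℝ) :
    mean (∏ i, p i) (fun n => F (asg p a n)) = ∑ σ, F σ * ∏ i, wq κ (p i) (σ i) := by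
  have hp0 : ∀ i, 0 < p i := fun i => by have := hp i; omega
  have h1 : (fun n => F (asg p a n)) =
      fun n => ∑ σ : ι → Option κ, F σ * (1 * ∏ i, if asg p a n i = σ i then (1 : ℝ) else 0) := by
    funext n
    rw [Finset.sum_eq_single (asg p a n)]
    · simp
    · intro σ _ hσ
      have h2 : ∃ i, asg p a n i ≠ σ i := by
        by_contra h3
        push Not at h3
        exact hσ (funext fun i => (h3 i).symm)
      obtain ⟨i, hi⟩ := h2
      rw [Finset.prod_eq_zero (mem_univ i) (if_neg hi), mul_zero, mul_zero]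
    · intro h
      exact absurd (mem_univ _) h
  rw [h1, mean_sum]
  refine sum_congr rfl fun σ _ => ?_
  rw [mean_const_mul]
  congr 1
  have hper : ∀ i, Per (p i) (fun n => if asg p a n i = σ i then (1 : ℝ) else 0) := by
    intro i n
    have h2 : asg p a (n + (p i : ℤ)) i = asg p a n i := by
      have h3 : ∀ j, asg p a (n + (p i : ℤ)) i = some j ↔ asg p a n i = some j := by
        intro j
        rw [asg_eq hd, asg_eq hd]
        have h4 : n + (p i : ℤ) - a j = (n - a j) + p i := by ring
        rw [h4]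
        exact dvd_add_self_right
      exact Option.ext h3
    show (if asg p a (n + (p i : ℤ)) i = σ i then (1 : ℝ) else 0) = _
    rw [h2]
  have h2 := mean_prod (Q1 := 1) (F := fun _ => 1) univ p (fun i _ => hp0 i)
    (fun i _ j _ hij => hc i j hij) one_pos (fun i _ => Nat.coprime_one_left _) (fun _ => rfl)
    (fun i n => if asg p a n i = σ i then (1 : ℝ) else 0) (fun i _ => hper i)
  rw [one_mul, mean_const one_pos, one_mul] at h2
  rw [h2]
  refine prod_congr rfl fun i _ => ?_
  have hq : (0 : ℝ) < p i := by exact_mod_cast hp0 i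
  have hsome : ∀ j : κ, mean (p i) (fun n => if asg p a n i = some j then (1 : ℝ) else 0) =
      1 / p i := by
    intro j
    have h6 : ∑ y ∈ range (p i), (if asg p a (y : ℤ) i = some j then (1 : ℝ) else 0) = 1 := by
      refine Eq.trans (sum_congr rfl fun y _ => ?_) (bfasg_count (hp0 i) (a j))
      have h3 := asg_eq hd (y : ℤ) i j
      by_cases h4 : (p i : ℤ) ∣ (y : ℤ) - a j
      · rw [if_pos h4, if_pos (h3.mpr h4)]
      · rw [if_neg h4, if_neg (fun h5 => h4 (h3.mp h5))]
    unfold mean
    rw [h6]
  cases hσ : σ i with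
  | some j => exact hsome j
  | none =>
    show mean (p i) (fun n => if asg p a n i = none then (1 : ℝ) else 0) =
      1 - (Fintype.card κ : ℝ) / p i
    have h3 : (fun n => if asg p a n i = none then (1 : ℝ) else 0) =
        fun n => 1 + (-1) * ∑ j : κ, if asg p a n i = some j then (1 : ℝ) else 0 := by
      funext n
      cases h4 : asg p a n i with
      | none => simp
      | some j => simp
    rw [h3, mean_add, mean_const (hp0 i), mean_const_mul, mean_sum,
      sum_congr rfl fun j _ => hsome j, sum_const, card_univ, nsmul_eq_mul]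
    ring

end Pool.Agent.VOID
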