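import Pool.Agent.VOID.BfA
import Pool.Agent.VOID.BfAsg

/-! VOID/BfMom.  Mixed moments of one block of the Brun sieve.

Use `mean_asg` with `ι = {q // q ∈ S}`, `p = coe`, `κ = {j // j ∈ T}` (so `card κ = T.card`), and
`om S (n - a j) = (cell (asg p a n) j).card`.

`blk_low`: all terms of `∑_σ F σ ∏ wq` are nonnegative (`T.card ≤ q`), the term `σ = none` is
`1 * ∏_q (1 - T.card / q)`.
`blk_up`: `F σ = ∏_j bf r (cell σ j).card ^ e j ≤ ∏_j v (cell σ j)` with `v ∅ = 1`, `v D = 0` for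
`1 ≤ D.card ≤ 2r` (`bf_vanish`, `e j ≥ 1`), `v D = 8 ^ D.card` otherwise (`bf_pow_le`).  Since
`1 / q ≤ (1 - T.card / q) * (2 / q)` (because `2 T.card ≤ q`),
`∏_q wq (σ q) ≤ (∏_q (1 - T.card / q)) * ∏_j ∏_{q ∈ cell σ j} (2 / q)`.  The map `σ ↦ (cell σ j)_j` is
injective, so `∑_σ ∏_j v (cell σ j) ∏_{q ∈ cell σ j} (2 / q) ≤ ∏_j ∑_D v D ∏_{q∈D} (2 / q)
= (1 + epsS S r) ^ T.card` (`8 ^ D.card ∏ (2/q) = ∏ (16 / q)`; `Finset.prod_univ_sum`). -/

set_option autoImplicit false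

open Finset Pool.Agent.RS

namespace Pool.Agent.VOID

variable {κ : Type} [DecidableEq κ] [Fintype κ]

/-- the error of the block `S` -/
noncomputable def epsS (S : Finset ℕ) (r : ℕ) : ℝ :=
  ∑ U ∈ S.powerset.filter (fun U => 2 * r < U.card), ∏ q ∈ U, (16 : ℝ) / q

theorem epsS_nonneg (S : Finset ℕ) (r : ℕ) : 0 ≤ epsS S r := by
  unfold epsS
  exact sum_nonneg fun U _ => prod_nonneg fun q _ => by positivity

section Aux

variable {ι κ' : Type} [Fintype ι] [DecidableEq ι] [DecidableEq κ'] [Fintype κ']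

private noncomputable def bfmom_F (r : ℕ) (e : κ' → ℕ) (σ : ι → Option κ') : ℝ :=
  ∏ j, bf r (cell σ j).card ^ e j

private theorem bfmom_F_nonneg (r : ℕ) (e : κ' → ℕ) (σ : ι → Option κ') :
    0 ≤ bfmom_F r e σ :=
  prod_nonneg fun j _ => pow_nonneg (bf_nonneg r _) _

/-- the weight of a cell -/
private noncomputable def bfmom_v (r : ℕ) (D : Finset ι) : ℝ :=
  if D = ∅ then 1 else if D.card ≤ 2 * r then 0 else 8 ^ D.card

private theorem bfmom_v_nonneg (r : ℕ) (D : Finset ι) : 0 ≤ bfmom_v r D := by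
  unfold bfmom_v
  split_ifs
  · exact zero_le_one
  · exact le_rfl
  · positivity

private theorem bfmom_v_ge (r : ℕ) (D : Finset ι) {e : ℕ} (he : 1 ≤ e ∧ e ≤ 3) :
    bf r D.card ^ e ≤ bfmom_v r D := by
  unfold bfmom_v
  split_ifs with h1 h2
  · rw [h1, card_empty, bf_zero, one_pow]
  · rw [bf_vanish (by rwa [Ne, card_eq_zero]) h2, zero_pow (by omega)]
  · exact bf_pow_le he.2 r _

private theorem bfmom_w_le {q k : ℕ} (hk : 2 * k ≤ q) (hq : 0 < q) :
    (1 : ℝ) / q ≤ (1 - (k : ℝ) / q) * (2 / q) := by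
  have hq' : (0 : ℝ) < q := by exact_mod_cast hq
  have h1 : (k : ℝ) / q ≤ 1 / 2 := by
    rw [div_le_div_iff₀ hq' (by norm_num)]
    have : (2 * k : ℝ) ≤ q := by exact_mod_cast hk
    linarith
  have h2 : (0 : ℝ) < 1 / q := by positivity
  have h3 : (1 - (k : ℝ) / q) * (2 / q) = (2 * (1 - (k : ℝ) / q)) * (1 / q) := by ring
  rw [h3]
  calc (1 : ℝ) / q = 1 * (1 / q) := (one_mul _).symm
    _ ≤ (2 * (1 - (k : ℝ) / q)) * (1 / q) := by
        apply mul_le_mul_of_nonneg_right _ h2.le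
        linarith

private theorem bfmom_wq_nonneg {q : ℕ} (hk : 2 * Fintype.card κ' ≤ q) (hq : 0 < q)
    (o : Option κ') : 0 ≤ wq κ' q o := by
  have hq' : (0 : ℝ) < q := by exact_mod_cast hq
  cases o with
  | none =>
    unfold wq
    have h1 : (Fintype.card κ' : ℝ) / q ≤ 1 / 2 := by
      rw [div_le_div_iff₀ hq' (by norm_num)]
      have : (2 * Fintype.card κ' : ℝ) ≤ q := by exact_mod_cast hk
      linarith
    linarith
  | some j =>
    unfold wq
    positivity

private theorem bfmom_prod_cells (f : ι → ℝ) (σ : ι → Option κ') :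
    ∏ j, ∏ i ∈ cell σ j, f i = ∏ i, (if σ i = none then 1 else f i) := by
  have h1 : ∀ j, ∏ i ∈ cell σ j, f i = ∏ i, (if σ i = some j then f i else 1) := by
    intro j
    unfold cell
    rw [prod_filter]
  simp_rw [h1]
  rw [prod_comm]
  refine prod_congr rfl fun i _ => ?_
  cases h : σ i with
  | none => simp
  | some j0 =>
    have h2 : ∀ j, (if (some j0 : Option κ') = some j then f i else 1) =
        if j0 = j then f i else 1 := by
      intro j
      simp only [Option.some.injEq]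
    simp_rw [h2]
    rw [prod_ite_eq]
    simp

private theorem bfmom_wprod {p : ι → ℕ} (hk : ∀ i, 2 * Fintype.card κ' ≤ p i)
    (hp : ∀ i, 0 < p i) (σ : ι → Option κ') :
    ∏ i, wq κ' (p i) (σ i) ≤
      (∏ i, (1 - (Fintype.card κ' : ℝ) / p i)) * ∏ j, ∏ i ∈ cell σ j, (2 : ℝ) / p i := by
  rw [bfmom_prod_cells, ← prod_mul_distrib]
  refine prod_le_prod (fun i _ => bfmom_wq_nonneg (hk i) (hp i) _) fun i _ => ?_
  cases h : σ i with
  | none =>
    simp [wq]
  | some j =>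
    simp only [wq]
    rw [if_neg (by simp)]
    exact bfmom_w_le (hk i) (hp i)

private theorem bfmom_inj : Function.Injective (fun (σ : ι → Option κ') (j : κ') => cell σ j) := by
  intro σ τ h
  funext i
  have h1 : ∀ j, σ i = some j ↔ τ i = some j := by
    intro j
    have h2 : cell σ j = cell τ j := congrFun h j
    rw [← mem_cell, ← mem_cell, h2]
  cases h2 : σ i with
  | none =>
    cases h3 : τ i with
    | none => rfl
    | some j =>
      have h4 := (h1 j).2 h3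
      rw [h2] at h4
      exact absurd h4 (by simp)
  | some j => exact ((h1 j).1 h2).symm

private theorem bfmom_sum_le {p : ι → ℕ} (r : ℕ) (e : κ' → ℕ) (he : ∀ j, 1 ≤ e j ∧ e j ≤ 3)
    (hk : ∀ i, 2 * Fintype.card κ' ≤ p i) (hp : ∀ i, 0 < p i) :
    ∑ σ : ι → Option κ', bfmom_F r e σ * ∏ i, wq κ' (p i) (σ i) ≤
      (∑ D : Finset ι, bfmom_v r D * ∏ i ∈ D, (2 : ℝ) / p i) ^ Fintype.card κ' *
        ∏ i, (1 - (Fintype.card κ' : ℝ) / p i) := by
  set G : (κ' → Finset ι) → ℝ := fun D => ∏ j, (bfmom_v r (D j) * ∏ i ∈ D j, (2 : ℝ) / p i)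
    with hG
  have hG0 : ∀ D, 0 ≤ G D := fun D => prod_nonneg fun j _ =>
    mul_nonneg (bfmom_v_nonneg r _) (prod_nonneg fun i _ => by positivity)
  have hc0 : 0 ≤ ∏ i, (1 - (Fintype.card κ' : ℝ) / p i) := by
    refine prod_nonneg fun i _ => ?_
    exact bfmom_wq_nonneg (κ' := κ') (hk i) (hp i) none
  have h1 : ∀ σ : ι → Option κ', bfmom_F r e σ * ∏ i, wq κ' (p i) (σ i) ≤
      G (fun j => cell σ j) * ∏ i, (1 - (Fintype.card κ' : ℝ) / p i) := by
    intro σ
    have h2 : bfmom_F r e σ ≤ ∏ j, bfmom_v r (cell σ j) :=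
      prod_le_prod (fun j _ => pow_nonneg (bf_nonneg r _) _)
        fun j _ => bfmom_v_ge r (cell σ j) (he j)
    calc bfmom_F r e σ * ∏ i, wq κ' (p i) (σ i)
        ≤ (∏ j, bfmom_v r (cell σ j)) *
          ((∏ i, (1 - (Fintype.card κ' : ℝ) / p i)) * ∏ j, ∏ i ∈ cell σ j, (2 : ℝ) / p i) := by
          refine mul_le_mul h2 (bfmom_wprod hk hp σ) ?_ ?_
          · exact prod_nonneg fun i _ => bfmom_wq_nonneg (hk i) (hp i) _
          · exact prod_nonneg fun j _ => bfmom_v_nonneg r _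
      _ = G (fun j => cell σ j) * ∏ i, (1 - (Fintype.card κ' : ℝ) / p i) := by
          rw [hG]
          simp only
          rw [prod_mul_distrib]
          ring
  calc ∑ σ : ι → Option κ', bfmom_F r e σ * ∏ i, wq κ' (p i) (σ i)
      ≤ ∑ σ : ι → Option κ', G (fun j => cell σ j) *
          ∏ i, (1 - (Fintype.card κ' : ℝ) / p i) := sum_le_sum fun σ _ => h1 σ
    _ = (∑ σ : ι → Option κ', G (fun j => cell σ j)) *
          ∏ i, (1 - (Fintype.card κ' : ℝ) / p i) := (sum_mul _ _ _).symm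
    _ ≤ (∑ D, G D) * ∏ i, (1 - (Fintype.card κ' : ℝ) / p i) := by
        refine mul_le_mul_of_nonneg_right ?_ hc0
        rw [← sum_image (s := univ) (g := fun (σ : ι → Option κ') (j : κ') => cell σ j)
          (f := G) (fun σ _ τ _ h => bfmom_inj h)]
        exact sum_le_sum_of_subset_of_nonneg (subset_univ _) fun D _ _ => hG0 D
    _ = _ := by
        congr 1
        rw [hG, ← Fintype.piFinset_univ,
          ← prod_univ_sum (fun _ : κ' => (univ : Finset (Finset ι)))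
            (fun _ D => bfmom_v r D * ∏ i ∈ D, (2 : ℝ) / p i)]
        rw [prod_const, card_univ]

end Aux

private theorem bfmom_eps (S : Finset ℕ) (r : ℕ) :
    ∑ D : Finset {q // q ∈ S}, bfmom_v r D * ∏ i ∈ D, (2 : ℝ) / (i : ℕ) ≤ 1 + epsS S r := by
  classical
  set G : Finset ℕ → ℝ := fun U => ∏ q ∈ U, (16 : ℝ) / q with hG
  have h1 : ∀ D : Finset {q // q ∈ S}, bfmom_v r D * ∏ i ∈ D, (2 : ℝ) / (i : ℕ) =
      (if D = ∅ then 1 else 0) +
        if 2 * r < D.card then G (D.map (Function.Embedding.subtype _)) else 0 := by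
    intro D
    unfold bfmom_v
    by_cases h2 : D = ∅
    · subst h2
      simp
    · by_cases h3 : D.card ≤ 2 * r
      · rw [if_neg h2, if_pos h3, if_neg h2, if_neg (by omega)]
        simp
      · rw [if_neg h2, if_neg h3, if_neg h2, if_pos (by omega), zero_add, hG]
        simp only
        rw [prod_map, ← prod_const, ← prod_mul_distrib]
        refine prod_congr rfl fun i _ => ?_
        simp only [Function.Embedding.subtype_apply]
        ring
  simp_rw [h1]
  rw [sum_add_distrib, sum_ite_eq']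
  simp only [mem_univ, if_true]
  refine add_le_add le_rfl ?_
  rw [← sum_filter]
  have h4 : ∑ D ∈ univ.filter (fun D : Finset {q // q ∈ S} => 2 * r < D.card),
      G (D.map (Function.Embedding.subtype _)) =
      ∑ U ∈ (univ.filter (fun D : Finset {q // q ∈ S} => 2 * r < D.card)).image
        (fun D => D.map (Function.Embedding.subtype _)), G U := by
    rw [sum_image]
    intro D _ D' _ h
    exact map_injective _ h
  rw [h4]
  unfold epsS
  refine sum_le_sum_of_subset_of_nonneg ?_ fun U _ _ => prod_nonneg fun q _ => by positivity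
  intro U hU
  obtain ⟨D, hD, rfl⟩ := mem_image.1 hU
  rw [mem_filter] at hD
  rw [mem_filter, mem_powerset]
  refine ⟨?_, by rw [card_map]; exact hD.2⟩
  intro q hq
  obtain ⟨i, _, rfl⟩ := mem_map.1 hq
  exact i.2

open Classical in
private theorem bfmom_om (S : Finset ℕ) (m : ℤ) :
    om S m = (S.filter (fun q : ℕ => (q : ℤ) ∣ m)).card := by
  unfold om
  first
  | rfl
  | rw [← card_image_of_injective (S.filter (fun q : ℕ => (q : ℤ) ∣ m))
      (f := fun q : ℕ => (q : ℤ)) (fun a b h => Nat.cast_injective (R := ℤ) h)]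
    refine congrArg card ?_
    ext x
    simp only [mem_filter, mem_image, Finset.bind_def, Finset.pure_def, Finset.mem_sup,
      mem_singleton]
    constructor
    · rintro ⟨⟨q, hq, rfl⟩, h⟩
      exact ⟨q, ⟨hq, h⟩, rfl⟩
    · rintro ⟨q, ⟨hq, h⟩, rfl⟩
      exact ⟨⟨q, hq, rfl⟩, h⟩

private theorem bfmom_mean {S : Finset ℕ} (hS : ∀ q ∈ S, q.Prime) {a : κ → ℤ}
    (hd : ∀ q ∈ S, ∀ j j', j ≠ j' → ¬ (q : ℤ) ∣ a j - a j') (r : ℕ) (T : Finset κ)
    (e : κ → ℕ) :
    mean (∏ q ∈ S, q) (fun n => ∏ j ∈ T, psiB S r (n - a j) ^ e j) =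
      ∑ σ : {q // q ∈ S} → Option {j // j ∈ T},
        bfmom_F r (fun j : {j // j ∈ T} => e j) σ *
          ∏ i : {q // q ∈ S}, wq {j // j ∈ T} (i : ℕ) (σ i) := by
  have hd' : ∀ (i : {q // q ∈ S}) (j j' : {j // j ∈ T}), j ≠ j' →
      ¬ (((i : ℕ)) : ℤ) ∣ a j - a j' := by
    intro i j j' hj
    exact hd i i.2 j j' (fun h => hj (Subtype.ext h))
  have h1 := mean_asg (ι := {q // q ∈ S}) (κ := {j // j ∈ T}) (p := fun i => (i : ℕ))
    (fun i => (hS i i.2).two_le)
    (fun i j hij => (Nat.coprime_primes (hS i i.2) (hS j j.2)).2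
      (fun h => hij (Subtype.ext h))) (a := fun j => a j) hd' (bfmom_F r (fun j : {j // j ∈ T} => e j))
  rw [prod_coe_sort S (fun q => q)] at h1
  rw [← h1]
  congr 1
  funext n
  unfold bfmom_F
  rw [← prod_coe_sort T (fun j => psiB S r (n - a j) ^ e j)]
  refine prod_congr rfl fun j _ => ?_
  have h5 : om S (n - a j) =
      (cell (asg (fun i : {q // q ∈ S} => (i : ℕ)) (fun j : {j // j ∈ T} => a j) n) j).card := by
    rw [bfmom_om, ← card_map (Function.Embedding.subtype (fun q => q ∈ S))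
      (s := cell (asg (fun i : {q // q ∈ S} => (i : ℕ)) (fun j : {j // j ∈ T} => a j) n) j)]
    refine congrArg card ?_
    ext q
    rw [mem_filter, mem_map]
    constructor
    · rintro ⟨hq, hdvd⟩
      exact ⟨⟨q, hq⟩, mem_cell.2 ((asg_eq hd' n ⟨q, hq⟩ j).2 hdvd), rfl⟩
    · rintro ⟨i, hi, rfl⟩
      exact ⟨i.2, (asg_eq hd' n i j).1 (mem_cell.1 hi)⟩
  unfold psiB
  rw [h5]

theorem blk_low {S : Finset ℕ} (hS : ∀ q ∈ S, q.Prime) {a : κ → ℤ}
    (hd : ∀ q ∈ S, ∀ j j', j ≠ j' → ¬ (q : ℤ) ∣ a j - a j') (r : ℕ) (T : Finset κ)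
    (hT : ∀ q ∈ S, 2 * T.card ≤ q) (e : κ → ℕ) :
    ∏ q ∈ S, (1 - (T.card : ℝ) / q) ≤
      mean (∏ q ∈ S, q) (fun n => ∏ j ∈ T, psiB S r (n - a j) ^ e j) := by
  rw [bfmom_mean hS hd r T e]
  have hk : ∀ i : {q // q ∈ S}, 2 * Fintype.card {j // j ∈ T} ≤ (i : ℕ) := by
    intro i
    rw [Fintype.card_coe]
    exact hT i i.2
  have h1 := single_le_sum (s := univ)
    (f := fun σ : {q // q ∈ S} → Option {j // j ∈ T} =>
      bfmom_F r (fun j : {j // j ∈ T} => e j) σ *
        ∏ i : {q // q ∈ S}, wq {j // j ∈ T} (i : ℕ) (σ i))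
    (fun σ _ => mul_nonneg (bfmom_F_nonneg r _ σ)
      (prod_nonneg fun i _ => bfmom_wq_nonneg (hk i) (hS i i.2).pos _))
    (mem_univ (fun _ => none))
  refine le_trans (le_of_eq ?_) h1
  have h2 : bfmom_F r (fun j : {j // j ∈ T} => e j)
      (fun _ : {q // q ∈ S} => (none : Option {j // j ∈ T})) = 1 := by
    unfold bfmom_F
    refine prod_eq_one fun j _ => ?_
    have h3 : cell (fun _ : {q // q ∈ S} => (none : Option {j // j ∈ T})) j = ∅ := by
      ext i
      simp [mem_cell]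
    rw [h3, card_empty, bf_zero, one_pow]
  rw [h2, one_mul]
  simp only [wq]
  rw [Fintype.card_coe, prod_coe_sort S (fun q => 1 - (T.card : ℝ) / q)]

theorem blk_up {S : Finset ℕ} (hS : ∀ q ∈ S, q.Prime) {a : κ → ℤ}
    (hd : ∀ q ∈ S, ∀ j j', j ≠ j' → ¬ (q : ℤ) ∣ a j - a j') (r : ℕ) (T : Finset κ)
    (hT : ∀ q ∈ S, 2 * T.card ≤ q) (e : κ → ℕ) (he : ∀ j ∈ T, 1 ≤ e j ∧ e j ≤ 3) :
    mean (∏ q ∈ S, q) (fun n => ∏ j ∈ T, psiB S r (n - a j) ^ e j) ≤
      (1 + epsS S r) ^ T.card * ∏ q ∈ S, (1 - (T.card : ℝ) / q) := by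
  rw [bfmom_mean hS hd r T e]
  have hk : ∀ i : {q // q ∈ S}, 2 * Fintype.card {j // j ∈ T} ≤ (i : ℕ) := by
    intro i
    rw [Fintype.card_coe]
    exact hT i i.2
  have h1 := bfmom_sum_le (ι := {q // q ∈ S}) (κ' := {j // j ∈ T}) (p := fun i => (i : ℕ)) r
    (fun j : {j // j ∈ T} => e j) (fun j => he j j.2) hk (fun i => (hS i i.2).pos)
  refine h1.trans ?_
  rw [Fintype.card_coe, prod_coe_sort S (fun q => 1 - (T.card : ℝ) / q)]
  refine mul_le_mul_of_nonneg_right ?_ ?_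
  · refine pow_le_pow_left₀ ?_ (bfmom_eps S r) _
    exact sum_nonneg fun D _ => mul_nonneg (bfmom_v_nonneg r D)
      (prod_nonneg fun i _ => by positivity)
  · refine prod_nonneg fun q hq => ?_
    have h2 := hk ⟨q, hq⟩
    have h3 := bfmom_wq_nonneg (κ' := {j // j ∈ T}) h2 (hS q hq).pos none
    simp only [wq] at h3
    rwa [Fintype.card_coe] at h3

end Pool.Agent.VOID
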