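import Mathlib

/-! VOID/ClsM.  Most residue classes modulo `M` have few survivors (Markov).

`∑_{b < M} #{a ∈ A : gcd(b - a, M) = 1} = ∑_{a ∈ A} #{b < M : gcd(b - a, M) = 1} = A.card * φ(M)`
(for each `a` the number of `b < M` with `b - a` prime to `M` is `φ(M)`: translation by `a` modulo
`M`).  So at most half of the `b` exceed twice the average. -/

set_option autoImplicit false

open Finset

namespace Pool.Agent.VOID

open Classical in
private theorem cls_count {M : ℕ} (hM : 0 < M) (a : ℤ) :
    ((range M).filter (fun b : ℕ => IsCoprime ((b : ℤ) - a) (M : ℤ))).card = Nat.totient M := by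
  have hM0 : (M : ℤ) ≠ 0 := by exact_mod_cast hM.ne'
  obtain ⟨t, ht⟩ : ∃ t : ℕ, (t : ℤ) = (-a) % (M : ℤ) :=
    ⟨((-a) % (M : ℤ)).toNat, Int.toNat_of_nonneg (Int.emod_nonneg _ hM0)⟩
  have hiff : ∀ b : ℕ, IsCoprime ((b : ℤ) - a) (M : ℤ) ↔ Nat.Coprime M (b + t) := by
    intro b
    have h1 : (b : ℤ) - a = ((b + t : ℕ) : ℤ) + (M : ℤ) * ((-a) / (M : ℤ)) := by
      push_cast
      rw [ht]
      have := Int.emod_add_mul_ediv (-a) (M : ℤ)
      linarith
    rw [h1, IsCoprime.add_mul_left_left_iff, Nat.isCoprime_iff_coprime, Nat.coprime_comm]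
  rw [← Nat.filter_coprime_Ico_eq_totient M t]
  refine Finset.card_nbij' (fun b => b + t) (fun x => x - t) ?_ ?_ ?_ ?_
  · intro b hb
    simp only [Finset.coe_filter, Finset.mem_range, Set.mem_ofPred_eq, Finset.mem_Ico] at hb ⊢
    exact ⟨⟨by omega, by omega⟩, (hiff b).1 hb.2⟩
  · intro x hx
    simp only [Finset.coe_filter, Finset.mem_range, Set.mem_ofPred_eq, Finset.mem_Ico] at hx ⊢
    refine ⟨by omega, (hiff _).2 ?_⟩
    have : x - t + t = x := by omega
    rw [this]
    exact hx.2
  · intro b _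
    simp
  · intro x hx
    simp only [Finset.coe_filter, Set.mem_ofPred_eq, Finset.mem_Ico] at hx
    simp only
    omega

open Classical in
/-- the version with natural representatives -/
theorem cls_half_nat {M : ℕ} (hM : 0 < M) (A : Finset ℤ) :
    M ≤ 2 * ((range M).filter (fun b : ℕ =>
      ((A.filter (fun a => IsCoprime ((b : ℤ) - a) (M : ℤ))).card : ℝ) ≤
        2 * (A.card : ℝ) * ((Nat.totient M : ℝ) / M))).card := by
  by_contra hcon0
  have hcon := not_le.1 hcon0
  have hMr : (0 : ℝ) < M := by exact_mod_cast hM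
  set g : ℕ → ℝ := fun b => ((A.filter (fun a => IsCoprime ((b : ℤ) - a) (M : ℤ))).card : ℝ) with hg
  set T : ℝ := 2 * (A.card : ℝ) * ((Nat.totient M : ℝ) / M) with hT
  have hT0 : 0 ≤ T := by positivity
  have hsum : ∑ b ∈ range M, g b = (A.card : ℝ) * (Nat.totient M : ℝ) := by
    have h1 : ∀ b, g b = ∑ a ∈ A, if IsCoprime ((b : ℤ) - a) (M : ℤ) then (1 : ℝ) else 0 := by
      intro b
      simp only [hg]
      rw [Finset.card_filter]
      push_cast
      rfl
    simp only [h1]
    rw [Finset.sum_comm]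
    have h2 : ∀ a ∈ A, ∑ b ∈ range M, (if IsCoprime ((b : ℤ) - a) (M : ℤ) then (1 : ℝ) else 0) =
        (Nat.totient M : ℝ) := by
      intro a _
      rw [← cls_count hM a, Finset.card_filter]
      push_cast
      rfl
    rw [Finset.sum_congr rfl h2, Finset.sum_const, nsmul_eq_mul]
  have hsplit := Finset.card_filter_add_card_filter_not (s := range M) (fun b => g b ≤ T)
  rw [Finset.card_range] at hsplit
  set B := (range M).filter (fun b => ¬ g b ≤ T) with hB
  have hcon' : 2 * ((range M).filter (fun b => g b ≤ T)).card < M := hcon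
  have hBc : M < 2 * B.card := by omega
  have hBne : B.Nonempty := by
    rw [← Finset.card_pos]
    omega
  have h3 : (B.card : ℝ) * T < ∑ b ∈ B, g b := by
    have h4 : ∑ b ∈ B, T < ∑ b ∈ B, g b := by
      refine Finset.sum_lt_sum_of_nonempty hBne ?_
      intro b hb
      exact not_le.1 (Finset.mem_filter.1 hb).2
    rwa [Finset.sum_const, nsmul_eq_mul] at h4
  have h4 : ∑ b ∈ B, g b ≤ ∑ b ∈ range M, g b := by
    refine Finset.sum_le_sum_of_subset_of_nonneg (Finset.filter_subset _ _) ?_
    intro b _ _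
    simp only [hg]
    positivity
  have h5 : (M : ℝ) / 2 * T = (A.card : ℝ) * (Nat.totient M : ℝ) := by
    rw [hT]
    field_simp
  have h6 : (M : ℝ) / 2 * T ≤ (B.card : ℝ) * T := by
    apply mul_le_mul_of_nonneg_right _ hT0
    have : (M : ℝ) < 2 * B.card := by exact_mod_cast hBc
    linarith
  rw [hsum] at h4
  linarith

open Classical in
/-- the same with integer representatives (the filter is over the image of `range M` in `ℤ`) -/
theorem cls_half {M : ℕ} (hM : 0 < M) (A : Finset ℤ) :
    M ≤ 2 * ((range M).filter (fun b =>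
      ((A.filter (fun a => IsCoprime ((b : ℤ) - a) (M : ℤ))).card : ℝ) ≤
        2 * (A.card : ℝ) * ((Nat.totient M : ℝ) / M))).card := by
  refine (cls_half_nat hM A).trans ?_
  refine Nat.mul_le_mul_left 2 ?_
  refine Finset.card_le_card_of_injOn (fun b : ℕ => (b : ℤ)) ?_ ?_
  · intro b hb
    rw [Finset.mem_coe, Finset.mem_filter] at hb ⊢
    refine ⟨?_, hb.2⟩
    simp only [Finset.bind_def, Finset.pure_def, Finset.mem_sup]
    exact ⟨b, hb.1, Finset.mem_singleton_self _⟩
  · intro b _ b' _ h
    exact Int.ofNat_inj.1 h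

end Pool.Agent.VOID
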