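import Pool.Agent.VOID.AbsV
import Pool.Agent.VOID.ChernV
import Pool.Agent.VOID.SumE
import Pool.Agent.VOID.EpsV
import Pool.Agent.VOID.V1B
import Pool.Agent.VOID.BigP
import Pool.Agent.VOID.ParL
import Pool.Agent.RS.Count
import Pool.Agent.RS.Wt

/-! VOID/CoreV.  The core theorem (assembly, helper67). -/

set_option autoImplicit false

open Finset Pool.Agent.RS

namespace Pool.Agent.VOID

/-- the numerical inequality behind the tail estimate -/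
private theorem corev_tail {CV k V1 H G r N1 L s m1 d : ℝ} (hCV : 0 < CV)
    (hm : 1 ≤ m1) (hs : 1 ≤ s) (hr : 0 ≤ r) (hN1 : 1 ≤ N1) (hG : 0 < G) (hd : 0 ≤ d)
    (hkV : k * V1 ≤ CV * (L / m1)) (hkV0 : 0 ≤ k * V1)
    (hH : Real.exp (-9) * (G * (r + 1)) / (8 * m1) ≤ H)
    (hG2 : 6400 * N1 * Real.exp 9 * CV / Real.log 2 ≤ G)
    (hL : L ≤ 200 * N1 * (r + 1) * d) (hsd : s * (r + 1) ^ 2 ≤ 200 * N1 * d) :
    ((2 : ℝ) ^ d / 2 ^ s) ^ (-(1 / (s * Real.log 2))) *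
      Real.exp (V1 * (2 / (H * (s * Real.log 2))) * k) ≤
      Real.exp (1 - (r + 1) ^ 2 / (400 * N1)) := by
  have hl2 : 0 < Real.log 2 := Real.log_pos (by norm_num)
  have hr1 : 0 < r + 1 := by linarith
  have hs0 : 0 < s := by linarith
  have hm0 : 0 < m1 := by linarith
  have hN0 : 0 < N1 := by linarith
  have hH0 : 0 < H := lt_of_lt_of_le (by positivity) hH
  rw [← Real.rpow_sub (by norm_num : (0 : ℝ) < 2), ← Real.rpow_mul (by norm_num),
    Real.rpow_def_of_pos (by norm_num : (0 : ℝ) < 2), ← Real.exp_add]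
  apply Real.exp_le_exp.2
  have e1 : Real.log 2 * ((d - s) * -(1 / (s * Real.log 2))) = 1 - d / s := by
    field_simp
    ring
  rw [e1]
  have e2 : V1 * (2 / (H * (s * Real.log 2))) * k = (k * V1) * (2 / (H * (s * Real.log 2))) := by
    ring
  rw [e2]
  have e3 : (k * V1) * (2 / (H * (s * Real.log 2))) ≤
      (CV * (L / m1)) * (2 / ((Real.exp (-9) * (G * (r + 1)) / (8 * m1)) * (s * Real.log 2))) := by
    apply mul_le_mul hkV _ (by positivity) (le_trans hkV0 hkV)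
    apply div_le_div_of_nonneg_left (by norm_num) (by positivity)
    exact mul_le_mul_of_nonneg_right hH (by positivity)
  have e4 : (CV * (L / m1)) * (2 / ((Real.exp (-9) * (G * (r + 1)) / (8 * m1)) * (s * Real.log 2))) =
      16 * Real.exp 9 * CV * L / (G * (r + 1) * s * Real.log 2) := by
    rw [Real.exp_neg]
    have := (Real.exp_pos 9).ne'
    field_simp
    ring
  have e5 : 16 * Real.exp 9 * CV * L / (G * (r + 1) * s * Real.log 2) ≤
      16 * Real.exp 9 * CV * (200 * N1 * (r + 1) * d) / (G * (r + 1) * s * Real.log 2) := by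
    apply div_le_div_of_nonneg_right _ (by positivity)
    exact mul_le_mul_of_nonneg_left hL (by positivity)
  have e6 : 16 * Real.exp 9 * CV * (200 * N1 * (r + 1) * d) / (G * (r + 1) * s * Real.log 2) =
      (6400 * N1 * Real.exp 9 * CV / Real.log 2) / G * (d / (2 * s)) := by
    field_simp
    ring
  have e7 : (6400 * N1 * Real.exp 9 * CV / Real.log 2) / G ≤ 1 := (div_le_one hG).2 hG2
  have e8 : (6400 * N1 * Real.exp 9 * CV / Real.log 2) / G * (d / (2 * s)) ≤ d / (2 * s) :=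
    mul_le_of_le_one_left (by positivity) e7
  have e9 : (r + 1) ^ 2 / (400 * N1) ≤ d / (2 * s) := by
    rw [div_le_div_iff₀ (by positivity) (by positivity)]
    nlinarith
  have e10 : d / s = d / (2 * s) + d / (2 * s) := by
    field_simp
    ring
  rw [e4] at e3
  rw [e6] at e5
  linarith

private theorem corev_num {K ρ X Y l : ℝ} (hX : 0 ≤ X) (hY : 0 ≤ Y) (hρ : 0 ≤ ρ)
    (h3 : K ≤ 4 * ρ) (h4 : 16 * ρ * X * Y ≤ l) : K * (2 * X * Y) ≤ l := by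
  have h1 : 0 ≤ ρ * X * Y := by positivity
  have h2 : 0 ≤ 2 * X * Y := by positivity
  have h5 := mul_le_mul_of_nonneg_right h3 h2
  nlinarith

/-- the moment condition of the Brun sieve -/
private theorem corev_eps {L m1 G r N R : ℕ} {B : Finset ℤ} (hR : R = RR G r) (hN : N ≤ R)
    (hR1 : 1 ≤ R) (hG1 : 1 ≤ G)
    (h4 : 16 * (RR G r : ℝ) * (((2 : ℝ) ^ (G + 1)) ^ (2 * r))⁻¹ *
      Real.exp (16 * 2 ^ (G + 1) * 8) ≤ Real.log 2) :
    (∏ i ∈ range (Nat.log 2 m1), (1 + epsS (Bk L m1 B i) (r + i))) ^ (2 * N + 2) ≤ 2 := by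
  have hl : (2 : ℝ) ≤ 2 ^ (G + 1) := by
    calc (2 : ℝ) = 2 ^ 1 := by norm_num
      _ ≤ 2 ^ (G + 1) := pow_le_pow_right₀ (by norm_num) (by omega)
  have h1 := eps_total (Bk L m1 B) r (Nat.log 2 m1) hl (s := 8) (fun i hi => bk_sum hi)
  have h0 : 0 ≤ ∏ i ∈ range (Nat.log 2 m1), (1 + epsS (Bk L m1 B i) (r + i)) :=
    prod_nonneg fun i _ => by have := epsS_nonneg (Bk L m1 B i) (r + i); linarith
  have h2 := pow_le_pow_left₀ h0 h1 (2 * N + 2)
  refine h2.trans ?_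
  rw [← Real.exp_nat_mul]
  have h3 : ((2 * N + 2 : ℕ) : ℝ) ≤ 4 * (RR G r : ℝ) := by
    have : 2 * N + 2 ≤ 4 * RR G r := by rw [← hR]; omega
    exact_mod_cast this
  have h5 := corev_num (by positivity) (Real.exp_nonneg (16 * 2 ^ (G + 1) * 8))
    (Nat.cast_nonneg (RR G r)) h3 h4
  exact (Real.exp_le_exp.2 h5).trans (Real.exp_log (by norm_num)).le

/-- a set of large primes with small product is small -/
private theorem corev_card {ι : Type} [DecidableEq ι] {p : ι → ℕ} {m1 d : ℕ} (hm : 1 ≤ m1)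
    (hp : ∀ i, 2 ^ m1 < p i) (S : Finset ι) (h : PP p S ≤ (2 : ℝ) ^ d) : S.card ≤ d / m1 := by
  rw [Nat.le_div_iff_mul_le (by omega)]
  have h1 : ((2 : ℝ) ^ m1) ^ S.card ≤ PP p S := by
    unfold PP
    rw [← Finset.prod_const]
    exact Finset.prod_le_prod (fun _ _ => by positivity)
      (fun i _ => by exact_mod_cast (hp i).le)
  rw [← pow_mul] at h1
  have h2 : (2 : ℝ) ^ (m1 * S.card) ≤ 2 ^ d := h1.trans h
  have h3 := (pow_le_pow_iff_right₀ (by norm_num : (1 : ℝ) < 2)).1 h2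
  rw [mul_comm]
  exact h3

open Classical in
private theorem corev_sup {ι : Type} [Fintype ι] [DecidableEq ι] {p : ι → ℕ} {m1 R g : ℕ}
    (hp : ∀ i, (p i).Prime) (hinj : Function.Injective p) (hm : 1 ≤ m1)
    (hp2 : ∀ i, 2 ^ m1 < p i) {L : ℕ} (hL : L ≤ R * m1)
    (hprod : ∏ i, (1 + 1 / ((p i : ℝ) - 1)) ≤ Real.exp (2 ^ (g + 4)))
    {y : Finset ι → ℝ} (hy1 : ∀ S, |y S| ≤ 1) {m : ℤ} (hm0 : m ≠ 0) (hmL : |m| ≤ 2 ^ (L + 1)) :
    ∑ S ∈ (univ : Finset (Finset ι)).filter (fun S => S ≠ ∅),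
        |y S| * ∏ i ∈ S, |ee (p i) m| ≤ 2 ^ (R + 1) * Real.exp (2 ^ (g + 4)) := by
  have h1 : ∑ S ∈ (univ : Finset (Finset ι)).filter (fun S => S ≠ ∅),
        |y S| * ∏ i ∈ S, |ee (p i) m| ≤ ∑ S : Finset ι, ∏ i ∈ S, |ee (p i) m| := by
    refine le_trans (sum_le_sum (g := fun S => ∏ i ∈ S, |ee (p i) m|) fun S _ => ?_) ?_
    · exact mul_le_of_le_one_left (prod_nonneg fun _ _ => abs_nonneg _) (hy1 S)
    · exact sum_le_sum_of_subset_of_nonneg (filter_subset _ _)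
        fun S _ _ => prod_nonneg fun _ _ => abs_nonneg _
  refine h1.trans ((sumE (R := R + 1) (fun i => (hp i).two_le) m ?_).trans ?_)
  · intro U hU
    have h2 := card_dvd hp hinj (z := m1) (A := L + 1) (fun i => (hp2 i).le) hm0 hmL U hU
    by_contra hcon
    push Not at hcon
    have h3 : m1 * (R + 2) ≤ m1 * U.card := Nat.mul_le_mul_left _ hcon
    have h4 : m1 * (R + 2) = R * m1 + 2 * m1 := by ring
    omega
  · exact mul_le_mul_of_nonneg_left hprod (by positivity)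

private theorem corev_Hpos {G r m1 H : ℝ} (hG : 1 ≤ G) (hr : 0 ≤ r) (hm : 1 ≤ m1)
    (hH : Real.exp (-9) * (G * (r + 1)) / (8 * m1) ≤ H) : 0 < H :=
  lt_of_lt_of_le (by positivity) hH

private theorem corev_Hlog {G r m1 H l : ℝ} (hG : 1 ≤ G) (hr : 0 ≤ r) (hm : 1 ≤ m1)
    (hH : Real.exp (-9) * (G * (r + 1)) / (8 * m1) ≤ H)
    (hG3 : 8 * Real.exp 9 / Real.log 2 ≤ G) (h1 : m1 * Real.log 2 ≤ l) : 1 ≤ H * l := by
  have hl2 : 0 < Real.log 2 := Real.log_pos (by norm_num)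
  have hm0 : 0 < m1 := by linarith
  have hHpos := corev_Hpos hG hr hm hH
  have h2 : (Real.exp (-9) * (G * (r + 1)) / (8 * m1)) * (m1 * Real.log 2) ≤ H * l :=
    mul_le_mul hH h1 (by positivity) hHpos.le
  refine le_trans ?_ h2
  have h3 : (Real.exp (-9) * (G * (r + 1)) / (8 * m1)) * (m1 * Real.log 2) =
      (G * Real.log 2 / (8 * Real.exp 9)) * (r + 1) := by
    rw [Real.exp_neg]
    field_simp
  rw [h3]
  have h6 : 1 ≤ G * Real.log 2 / (8 * Real.exp 9) := by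
    rw [div_le_iff₀ hl2] at hG3
    rw [one_le_div (by positivity)]
    exact hG3
  exact one_le_mul_of_one_le_of_one_le h6 (by linarith)

private theorem corev_sq {k : ℝ} (hk : 0 ≤ k) : 0 ≤ 2 + 5 * k ∧ 0 ≤ 2 + 4 * k ∧ 0 ≤ k + 1 := by
  refine ⟨?_, ?_, ?_⟩ <;> linarith

private theorem corev_off {k L P E z c : ℝ} {N R : ℕ} (hk : 0 ≤ k) (hkL : k ≤ L) (hL : 1 ≤ L)
    (hN : N ≤ R) (hP0 : 0 ≤ P) (hP : P ≤ E) (hz : 0 < z)
    (h : (2 + 4 * L) * ((L + 1) ^ (2 * R) * E) ≤ z / 8) (hc : c = 1 / 8) :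
    (2 + 4 * k) * ((k + 1) ^ (2 * N) * P / z) ≤ c := by
  rw [hc, ← mul_div_assoc, div_le_iff₀ hz]
  have h1 : (k + 1) ^ (2 * N) ≤ (L + 1) ^ (2 * R) := by
    calc (k + 1) ^ (2 * N) ≤ (L + 1) ^ (2 * N) :=
          pow_le_pow_left₀ (by positivity) (by linarith) _
      _ ≤ _ := pow_le_pow_right₀ (by linarith) (Nat.mul_le_mul_left 2 hN)
  have h2 : (k + 1) ^ (2 * N) * P ≤ (L + 1) ^ (2 * R) * E :=
    mul_le_mul h1 hP hP0 (by positivity)
  have h3 : (2 + 4 * k) * ((k + 1) ^ (2 * N) * P) ≤ (2 + 4 * L) * ((L + 1) ^ (2 * R) * E) :=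
    mul_le_mul (by linarith) h2 (by positivity) (by linarith)
  linarith

private theorem corev_wt {k L X Y T : ℝ} (hkL : k ≤ L) (hX : 0 ≤ X)
    (h1 : (2 + 5 * L) * X ≤ Y / 16) (h2 : Y ≤ T) : (2 + 5 * k) * X ≤ T / 16 := by
  have h3 : (2 + 5 * k) * X ≤ (2 + 5 * L) * X :=
    mul_le_mul_of_nonneg_right (by linarith) hX
  linarith

private theorem corev_R1 (G r : ℕ) : 1 ≤ RR G r :=
  Nat.one_le_iff_ne_zero.2 (by unfold RR; positivity)

private theorem corev_kle {k lam Λ L : ℝ} (hk0 : 0 ≤ k) (hlam : Λ ≤ lam) (hΛ : 0 < Λ)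
    (hk : k * lam ≤ Λ * L) : k ≤ L := by
  have h1 : k * Λ ≤ Λ * L := (mul_le_mul_of_nonneg_left hlam hk0).trans hk
  have h2 : Λ * k ≤ Λ * L := by rw [mul_comm Λ k]; exact h1
  exact le_of_mul_le_mul_left h2 hΛ

private theorem corev_kV {k lam Λ L V1 m1 CV : ℝ} (hk0 : 0 ≤ k) (hlam1 : 1 ≤ lam)
    (hk : k * lam ≤ Λ * L) (hm : 1 ≤ m1) (hCV : CV = 24 * Real.exp 9 * Λ / Real.log 2)
    (hV : V1 ≤ 12 * Real.exp 9 * (lam + 1) / (m1 * Real.log 2)) :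
    k * V1 ≤ CV * (L / m1) := by
  have hl2 : 0 < Real.log 2 := Real.log_pos (by norm_num)
  have hm0 : 0 < m1 := by linarith
  have hE : 0 < Real.exp 9 := Real.exp_pos 9
  calc k * V1 ≤ k * (12 * Real.exp 9 * (lam + 1) / (m1 * Real.log 2)) :=
        mul_le_mul_of_nonneg_left hV hk0
    _ ≤ k * (12 * Real.exp 9 * (2 * lam) / (m1 * Real.log 2)) := by
        apply mul_le_mul_of_nonneg_left _ hk0
        apply div_le_div_of_nonneg_right _ (by positivity)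
        apply mul_le_mul_of_nonneg_left _ (by positivity)
        linarith
    _ = (k * lam) * (24 * Real.exp 9 / (m1 * Real.log 2)) := by ring
    _ ≤ (Λ * L) * (24 * Real.exp 9 / (m1 * Real.log 2)) :=
        mul_le_mul_of_nonneg_right hk (by positivity)
    _ = CV * (L / m1) := by
        rw [hCV]
        field_simp

attribute [local irreducible] RR

open Classical in
private theorem corev_one {Λ : ℝ} (hΛ : 0 < Λ) {N0 N1 G r : ℕ} (hN1 : 1 ≤ N1) (hG1 : 1 ≤ G)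
    (hN0r : N0 ≤ r) {CV : ℝ} (hCV : CV = 24 * Real.exp 9 * Λ / Real.log 2)
    (hCV0 : 0 < CV) (hG2 : 6400 * (N1 : ℝ) * Real.exp 9 * CV / Real.log 2 ≤ G)
    (hG3 : 8 * Real.exp 9 / Real.log 2 ≤ G)
    (h4 : 16 * (RR G r : ℝ) * (((2 : ℝ) ^ (G + 1)) ^ (2 * r))⁻¹ *
      Real.exp (16 * 2 ^ (G + 1) * 8) ≤ Real.log 2)
    (h5 : 32 * CV * (RR G r : ℝ) * Real.exp (1 - ((r : ℝ) + 1) ^ 2 / (400 * N1)) ≤ 1)
    {L g s m1 d N : ℕ} (pl : PL CV G r N1 L g s m1 d N) (hlam : Λ ≤ (Nat.log 2 L : ℝ))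
    {M : ℕ} {n0 : ℤ} {B : Finset ℤ} {T : ℕ} (hM0 : 0 < M)
    (hM : ∀ q : ℕ, q.Prime → L ^ 6 < q → Nat.Coprime M q) (hB : ∀ b ∈ B, |b| ≤ 2 ^ L)
    (hk : (B.card : ℝ) * (Nat.log 2 L : ℝ) ≤ Λ * L)
    (hn : ∀ t < T, |n0 + M * (t : ℤ)| ≤ 2 ^ L) (hT : 2 ^ (L / (2 * N1)) ≤ T) :
    (T : ℝ) ≤ 2 * Real.exp (2 * (2 ^ (RR G r + 1) * Real.exp (2 ^ (G * (r + 1) + 16 + 4))) *
        (8 * (2 * CV * RR G r + 2 * RR G r + 1))) *
      (((range T).filter (fun t => ∀ b ∈ B, ∃ q : ℕ, q.Prime ∧ L ^ 6 < q ∧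
        q ^ N0 ≤ 2 ^ L ∧ (q : ℤ) ∣ n0 + M * (t : ℤ) - b)).card : ℝ) := by
  have hl2 : 0 < Real.log 2 := Real.log_pos (by norm_num)
  have h2pow : ∀ n : ℕ, (0 : ℝ) < 2 ^ n := fun n => pow_pos two_pos n
  have hL16 := pl.L16
  have hLr : (16 : ℝ) ≤ L := by exact_mod_cast hL16
  have hm1 := pl.m_pos
  have hm1r : (1 : ℝ) ≤ m1 := by exact_mod_cast hm1
  have hlam1 : (1 : ℝ) ≤ (Nat.log 2 L : ℝ) := by
    have h1 : Nat.log 2 16 ≤ Nat.log 2 L := Nat.log_mono_right hL16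
    have h2 : Nat.log 2 16 = 4 := by
      rw [show (16 : ℕ) = 2 ^ 4 by norm_num, Nat.log_pow (by norm_num)]
    have h3 : 1 ≤ Nat.log 2 L := by omega
    exact_mod_cast h3
  have hk0 : (0 : ℝ) ≤ (B.card : ℝ) := Nat.cast_nonneg _
  have hkLr : (B.card : ℝ) ≤ L := corev_kle hk0 hlam hΛ hk
  have hkL : B.card ≤ L := by exact_mod_cast hkLr
  have hg := pl.hg
  have hs1 : 1 ≤ s := hm1.trans pl.m_le_s
  have hs1r : (1 : ℝ) ≤ s := by exact_mod_cast hs1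
  -- `L / m1`
  have hR1 : 1 ≤ RR G r := corev_R1 G r
  have hLR : (L : ℝ) / m1 ≤ RR G r := by
    rw [div_le_iff₀ (by linarith)]
    exact_mod_cast pl.L_le
  -- the large primes
  set Q := prz (2 ^ s) \ EB L m1 s B with hQ
  set p : {q // q ∈ Q} → ℕ := fun q => (q : ℕ) with hp
  set a : {b // b ∈ B} → ℤ := fun b => (b : ℤ) with ha
  have hpm : ∀ i : {q // q ∈ Q}, (p i).Prime ∧ 2 ^ m1 < p i ∧ p i ≤ 2 ^ s ∧ L ^ 6 < p i ∧
      (∀ b ∈ B, ∀ b' ∈ B, b ≠ b' → ¬ (p i : ℤ) ∣ b - b') := fun i => big_mem i.2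
  have hpp : ∀ i, (p i).Prime := fun i => (hpm i).1
  have hp2 : ∀ i, 2 ≤ p i := fun i => (hpp i).two_le
  have hinj : Function.Injective p := Subtype.val_injective
  set I := Nat.log 2 m1 with hI
  set Q1 := QV (Bk L m1 B) I with hQ1
  have hQ1pos : 0 < Q1 := by
    rw [hQ1]
    unfold QV
    exact prod_pos fun i _ => prod_pos fun q hq => (bk_mem hq).1.pos
  have hcopP : ∀ n : ℕ, (∀ q : ℕ, q.Prime → L ^ 6 < q → q ≤ 2 ^ m1 → Nat.Coprime n q) →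
      Nat.Coprime n Q1 := by
    intro n hnq
    rw [hQ1]
    unfold QV
    exact Nat.Coprime.prod_right fun i _ => Nat.Coprime.prod_right fun q hq =>
      hnq q (bk_mem hq).1 (bk_mem hq).2.1 (bk_mem hq).2.2.1
  have hy : Hy p Q1 a ((2 : ℝ) ^ m1) := by
    refine ⟨hp2, ?_, hQ1pos, ?_, ?_, h2pow _, ?_⟩
    · intro i j hij
      exact (Nat.coprime_primes (hpp i) (hpp j)).2 fun h => hij (hinj h)
    · intro i
      refine (hcopP (p i) fun q hq _ hqm => ?_).symm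
      refine (Nat.coprime_primes (hpp i) hq).2 fun h => ?_
      have := (hpm i).2.1
      omega
    · intro i j j' hjj
      exact (hpm i).2.2.2.2 j j.2 j' j'.2 fun h => hjj (Subtype.ext h)
    · intro i
      have h1 : 2 ^ m1 + 1 ≤ p i := (hpm i).2.1
      have h2 : ((2 : ℝ) ^ m1 + 1) ≤ (p i : ℝ) := by exact_mod_cast h1
      linarith
  have hMQ : Nat.Coprime M (Q1 * ∏ i, p i) := by
    refine Nat.Coprime.mul_right (hcopP M fun q hq h1 _ => hM q hq h1) ?_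
    exact Nat.Coprime.prod_right fun i _ => hM (p i) (hpp i) (hpm i).2.2.2.1
  -- the small sieve
  have hss0 := brun_ss (κ := {b // b ∈ B}) (Bl := Bk L m1 B) (r := r) (I := I)
    (K := 2 * N + 2) (a := a) (fun i _ q hq => (bk_mem hq).1)
    (fun i _ i' _ h => bk_disj h)
    (fun i _ q hq j j' hjj => (bk_mem hq).2.2.2 j j.2 j' j'.2 fun h => hjj (Subtype.ext h))
    (fun i _ q hq => by
      have h1 := (bk_mem hq).2.1
      have h2 := pl.K_le
      have h3 := pl.N_le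
      omega)
    (corev_eps rfl pl.N_le hR1 hG1 h4)
  have hWle : ∏ i ∈ range I, (((Bk L m1 B i).card : ℝ) + 1) ^ (2 * (r + i)) ≤
      2 ^ (m1 * (4 * r + 4)) := bk_card L m1 B r
  have hss : SS Q1 (psiV (Bk L m1 B) r I) ((2 : ℝ) ^ (m1 * (4 * r + 4)))
      (PiV (Bk L m1 B) I) (PiV (Bk L m1 B) I 1) (2 * N + 2) a :=
    { hss0 with
      rep := hss0.rep.mono hWle
      one_le_W := one_le_pow₀ (by norm_num) }
  set V1 := PiV (Bk L m1 B) I 1 with hV1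
  have hcard : (Fintype.card {b // b ∈ B} : ℝ) = B.card := by simp
  have hkV : (B.card : ℝ) * V1 ≤ CV * (L / m1) :=
    corev_kV hk0 hlam1 hk hm1r hCV (V1_le (by omega) hm1 hB hkL)
  have hkVR : (B.card : ℝ) * V1 ≤ CV * RR G r :=
    hkV.trans (mul_le_mul_of_nonneg_left hLR hCV0.le)
  have hkV0 : 0 ≤ (B.card : ℝ) * V1 := mul_nonneg hk0 hss.V1_nonneg
  -- the weights
  have hH := big_H1 (L := L) (m1 := m1) (s := s) (g := g) (by omega) hm1 pl.L6 hB hkL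
    (by omega) pl.s_low
  set H := H1 p ((2 : ℝ) ^ s) with hHdef
  have hgr : (g : ℝ) - 16 = G * ((r : ℝ) + 1) := by
    rw [hg]; push_cast; ring
  rw [hgr] at hH
  have hGr : (1 : ℝ) ≤ G := by exact_mod_cast hG1
  have hr0 : (0 : ℝ) ≤ r := Nat.cast_nonneg r
  have hHpos : 0 < H := corev_Hpos hGr hr0 hm1r hH
  have hHlog : ∀ i, 1 ≤ H * Real.log (p i) := by
    intro i
    have h1 : (m1 : ℝ) * Real.log 2 ≤ Real.log (p i) := by
      rw [← Real.log_pow]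
      apply Real.log_le_log (h2pow _)
      exact_mod_cast (hpm i).2.1.le
    exact corev_Hlog hGr hr0 hm1r hH hG3 h1
  have hS1 : (1 : ℝ) < 2 ^ s := one_lt_pow₀ (by norm_num) (by omega)
  have hlogS : Real.log ((2 : ℝ) ^ s) = s * Real.log 2 := Real.log_pow _ _
  have hsl : 0 < (s : ℝ) * Real.log 2 := mul_pos (lt_of_lt_of_le one_pos hs1r) hl2
  have hlS1 : 0 ≤ 1 / ((s : ℝ) * Real.log 2) := (one_div_pos.2 hsl).le
  have hlS2 : 0 ≤ 2 / (H * ((s : ℝ) * Real.log 2)) :=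
    (div_pos two_pos (mul_pos hHpos hsl)).le
  have hD : (1 : ℝ) ≤ 2 ^ d := one_le_pow₀ (by norm_num)
  have hN : ∀ S : Finset {q // q ∈ Q}, PP p S ≤ (2 : ℝ) ^ d → S.card ≤ N := by
    intro S hS
    rw [pl.hN]
    exact corev_card hm1 (fun i => (hpm i).2.1) S hS
  have hwy1 := wt_abs (S1 := (2 : ℝ) ^ s) hp2 hHlog
  have hprod := big_prod (L := L) (m1 := m1) (s := s) (g := g) hm1 B pl.s_up
  have hP0 : 0 ≤ ∏ i, (1 + 1 / ((p i : ℝ) - 1)) := prod_nonneg fun i _ => by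
    have h1 : (2 : ℝ) ≤ p i := by exact_mod_cast hp2 i
    have h2 : (0 : ℝ) < (p i : ℝ) - 1 := by linarith only [h1]
    exact add_nonneg zero_le_one (one_div_pos.2 h2).le
  have hNr : (N : ℝ) ≤ RR G r := by exact_mod_cast pl.N_le
  set τ : ℝ := Real.exp (1 - ((r : ℝ) + 1) ^ 2 / (400 * N1)) with hτ
  have hτ0 : 0 ≤ τ := (Real.exp_pos _).le
  set δ : ℝ := 2 * (RR G r : ℝ) / 2 ^ m1 with hδ
  have hsd0 : (2 : ℝ) ^ d / 2 ^ s ≤ 2 ^ d := div_le_self (h2pow d).le hS1.le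
  have hcount := count_le (κ := {b // b ∈ B}) hp2
    (by rw [hcard]; exact big_sq (by omega) hkL) (D := (2 : ℝ) ^ d) (h2pow d).le
  have hres := absV (D := (2 : ℝ) ^ d) (D2 := (2 : ℝ) ^ d / 2 ^ s) (y := wt p ((2 : ℝ) ^ s))
    (δ := δ) (τ := τ) (C := 2 * ((2 : ℝ) ^ d) ^ 2) (n0 := n0) (T := T)
    (B := 2 ^ (RR G r + 1) * Real.exp (2 ^ (G * (r + 1) + 16 + 4)))
    (K' := 8 * (2 * CV * RR G r + 2 * RR G r + 1))
    hy hM0 hMQ hss hD hN (wt_empty p _) hwy1 (cc_wt_abs hp2 hHpos) ?_ ?_ hcount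
    (mul_pos (h2pow _) (Real.exp_pos _)).le ?_ ?_ ?_ ?_ ?_
  · refine hres.trans ?_
    apply mul_le_mul_of_nonneg_left _ (mul_nonneg zero_le_two (Real.exp_pos _).le)
    have hsub : (range T).filter (fun t => ∀ j : {b // b ∈ B},
        psiV (Bk L m1 B) r I (n0 + M * (t : ℤ) - a j) ≠ 1 ∨
          ∃ i, (p i : ℤ) ∣ n0 + M * (t : ℤ) - a j) ⊆
        (range T).filter (fun t => ∀ b ∈ B, ∃ q : ℕ, q.Prime ∧ L ^ 6 < q ∧
          q ^ N0 ≤ 2 ^ L ∧ (q : ℤ) ∣ n0 + M * (t : ℤ) - b) := by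
      intro t ht
      rw [mem_filter] at ht ⊢
      refine ⟨ht.1, fun b hb => ?_⟩
      have hpow : ∀ q : ℕ, q ≤ 2 ^ s → q ^ N0 ≤ 2 ^ L := by
        intro q hq
        have h1 : s * N0 ≤ L := by
          have h2 : N0 ≤ (r + 1) ^ 3 := by
            have : r + 1 ≤ (r + 1) ^ 3 := Nat.le_self_pow (by norm_num) _
            omega
          have h3 : s * (r + 1) ^ 3 ≤ L := by
            rw [pl.hs]
            exact Nat.div_mul_le_self _ _
          exact (Nat.mul_le_mul_left _ h2).trans h3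
        calc q ^ N0 ≤ (2 ^ s) ^ N0 := Nat.pow_le_pow_left hq N0
          _ = 2 ^ (s * N0) := (pow_mul 2 s N0).symm
          _ ≤ 2 ^ L := Nat.pow_le_pow_right (by norm_num) h1
      rcases ht.2 ⟨b, hb⟩ with h | ⟨i, hi⟩
      · by_contra hcon
        push Not at hcon
        apply h
        apply psiV_one
        intro i hi q hq hdvd
        have h1 := bk_mem hq
        exact hcon q h1.1 h1.2.1 (hpow q (h1.2.2.1.trans
          (Nat.pow_le_pow_right (by norm_num) pl.m_le_s))) hdvd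
      · exact ⟨p i, hpp i, (hpm i).2.2.2.1, hpow _ (hpm i).2.2.1, hi⟩
    exact_mod_cast card_le_card hsub
  · -- `cc` is small
    intro U hU
    have hU1 : PP p U * (2 : ℝ) ^ s ≤ 2 ^ d := by
      rwa [le_div_iff₀ (h2pow s)] at hU
    refine (cc_wt_small hp2 hHpos hHlog U hU1).trans ?_
    have h1 : ∑ i ∈ U, 2 / ((p i : ℝ) - 1) ≤ ∑ _i ∈ U, 2 / (2 : ℝ) ^ m1 := by
      refine sum_le_sum fun i _ => ?_
      exact div_le_div_of_nonneg_left zero_le_two (h2pow m1) (hy.zle i)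
    refine h1.trans ?_
    rw [sum_const, nsmul_eq_mul, hδ]
    have h2 : (U.card : ℝ) ≤ RR G r := by
      have := (hN U (hU.trans hsd0)).trans pl.N_le
      exact_mod_cast this
    rw [mul_div_assoc', mul_comm (U.card : ℝ) 2]
    apply div_le_div_of_nonneg_right _ (h2pow m1).le
    linarith only [h2]
  · -- the tail
    have htl := tailV (κ := {b // b ∈ B}) hp2 (wt p ((2 : ℝ) ^ s)) (wt_empty p _)
      (D := (2 : ℝ) ^ d) (D2 := (2 : ℝ) ^ d / 2 ^ s) (lam := 1 / Real.log ((2 : ℝ) ^ s))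
      (θ := 2 / (H * Real.log ((2 : ℝ) ^ s))) (V1 := V1) (div_pos (h2pow d) (h2pow s))
      (by rw [hlogS]; exact hlS1) (by rw [hlogS]; exact hlS2)
      (wt_theta hp2 hS1 hHpos) (PiV (Bk L m1 B) I) hss.pi_nonneg hss.V1_nonneg hss.pi_step
    refine htl.trans ?_
    have hZZ0 : 0 ≤ ZZ {b // b ∈ B} p (wt p ((2 : ℝ) ^ s)) ((2 : ℝ) ^ d)
        (PiV (Bk L m1 B) I) := by
      have := ZZ_ge_one (κ := {b // b ∈ B}) p (wt p ((2 : ℝ) ^ s)) hp2 (wt_empty p _) hD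
        hss.pi_nonneg hss.pi_zero
      linarith
    apply mul_le_mul_of_nonneg_right _ hZZ0
    rw [hlogS, hcard]
    have hsdr : (s : ℝ) * ((r : ℝ) + 1) ^ 2 ≤ 200 * N1 * d := by exact_mod_cast pl.sd
    have hLd : (L : ℝ) ≤ 200 * N1 * ((r : ℝ) + 1) * d := by exact_mod_cast pl.L_le_d
    have h1 := corev_tail (CV := CV) (k := (B.card : ℝ)) (V1 := V1) (H := H) (G := G) (r := r)
      (N1 := N1) (L := L) (s := s) (m1 := m1) (d := d) hCV0 hm1r hs1r hr0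
      (by exact_mod_cast hN1) (by linarith) (Nat.cast_nonneg d) hkV hkV0 hH hG2 hLd hsdr
    rw [Real.rpow_natCast, Real.rpow_natCast] at h1
    exact h1
  · -- the sup bound
    intro t ht hne j
    rw [← hg]
    refine corev_sup hpp hinj hm1 (fun i => (hpm i).2.1) pl.L_le hprod hwy1 ?_ ?_
    · intro h0
      exact hne j (sub_eq_zero.1 h0)
    · have h1 := hn t ht
      have h2 := hB j j.2
      have h3 : |n0 + M * (t : ℤ) - a j| ≤ |n0 + M * (t : ℤ)| + |a j| := abs_sub _ _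
      rw [pow_succ]
      linarith only [h1, h2, h3]
  · -- `h1`
    rw [hcard]
    have h1 : 2 * (B.card : ℝ) * V1 ≤ 2 * CV * RR G r := by linarith only [hkVR]
    have h0 : 0 ≤ δ ^ 2 + τ := add_nonneg (sq_nonneg δ) hτ0
    have h2 : 2 * (B.card : ℝ) * V1 * (δ ^ 2 + τ) ≤ 2 * CV * RR G r * (δ ^ 2 + τ) :=
      mul_le_mul_of_nonneg_right h1 h0
    have h3 : 2 * CV * RR G r * δ ^ 2 ≤ 1 / 16 := pl.del_le
    have h6 : 2 * CV * RR G r * τ ≤ 1 / 16 := by linarith only [h5]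
    linarith only [h2, h3, h6]
  · -- `h2`
    rw [hcard]
    linarith only [hkVR, hNr]
  · -- `h3`
    rw [hcard]
    unfold offB
    rw [hcard]
    exact corev_off hk0 hkLr (le_trans (by norm_num) hLr) pl.N_le hP0 hprod (h2pow m1)
      pl.off_le rfl
  · -- `h4`
    rw [hcard]
    have h2 : ((2 : ℝ) ^ (L / (2 * N1))) ≤ T := by exact_mod_cast hT
    exact corev_wt hkLr (mul_nonneg (sq_nonneg _) (h2pow _).le) pl.wt_le h2

open Classical in
theorem coreV (Λ : ℝ) (hΛ : 0 < Λ) (N0 N1 : ℕ) (hN1 : 1 ≤ N1) :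
    ∃ c : ℝ, 0 < c ∧ ∃ L0 : ℕ, ∀ L : ℕ, L0 ≤ L →
    ∀ (M : ℕ) (n0 : ℤ) (B : Finset ℤ) (T : ℕ), 0 < M →
    (∀ q : ℕ, q.Prime → L ^ 6 < q → Nat.Coprime M q) → (∀ b ∈ B, |b| ≤ 2 ^ L) →
    (B.card : ℝ) * (Nat.log 2 L : ℝ) ≤ Λ * L →
    (∀ t < T, |n0 + M * (t : ℤ)| ≤ 2 ^ L) → 2 ^ (L / (2 * N1)) ≤ T →
    c * T ≤ (((range T).filter (fun t => ∀ b ∈ B, ∃ q : ℕ, q.Prime ∧ L ^ 6 < q ∧
      q ^ N0 ≤ 2 ^ L ∧ (q : ℤ) ∣ n0 + M * (t : ℤ) - b)).card : ℝ) := by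
  have hl2 : 0 < Real.log 2 := Real.log_pos (by norm_num)
  set CV : ℝ := 24 * Real.exp 9 * Λ / Real.log 2 with hCV
  have hCV0 : 0 < CV := by positivity
  obtain ⟨G, r, hG1, hN0r, hr10, hG2, hG3, h4, h5⟩ := parA CV hCV0 N0 N1 hN1
  obtain ⟨L1, hL1⟩ := parL CV G r N1 hN1 hr10
  set E : ℝ := 2 * Real.exp (2 * (2 ^ (RR G r + 1) * Real.exp (2 ^ (G * (r + 1) + 16 + 4))) *
        (8 * (2 * CV * RR G r + 2 * RR G r + 1))) with hE
  have hE0 : 0 < E := mul_pos (by norm_num) (Real.exp_pos _)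
  refine ⟨1 / E, by positivity, L1 + 2 ^ (⌈Λ⌉₊), ?_⟩
  intro L hL M n0 B T hM0 hM hB hk hn hT
  obtain ⟨g, s, m1, d, N, pl⟩ := hL1 L ((Nat.le_add_right _ _).trans hL)
  have hlam : Λ ≤ (Nat.log 2 L : ℝ) := by
    have h1 : ⌈Λ⌉₊ ≤ Nat.log 2 L :=
      Nat.le_log_of_pow_le (by norm_num) ((Nat.le_add_left _ _).trans hL)
    exact (Nat.le_ceil Λ).trans (by exact_mod_cast h1)
  have h := corev_one hΛ hN1 hG1 hN0r hCV hCV0 hG2 hG3 h4 h5 pl hlam hM0 hM hB hk hn hT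
  rw [div_mul_eq_mul_div, one_mul, div_le_iff₀ hE0, mul_comm]
  exact h

end Pool.Agent.VOID
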