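import Mathlib
import Pool.Agent.RS.Base

/-!
# VOID: positive void probabilities. Definitions

Paper proof: `/team-store/void_proof.md`.  The assignments `σ : ι → Option κ`, `supp`, `cell`,
`PP`, `PH`, `EE`, `GG`, `Yd`, `cc`, `Zm` are those of `Pool.Agent.RS.Base`: `ι` indexes the LARGE
primes `p i`, `κ` the integers `a j` to be killed.  The small primes enter only through a
nonnegative function `ψ` (structure `SS`, constructed in `Brun.lean`).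
-/

set_option autoImplicit false

open Finset Pool.Agent.RS

namespace Pool.Agent.VOID

/-- zero, or the indicator function of a residue class modulo a positive divisor of `Q` -/
def Cls (Q : ℕ) (f : ℤ → ℝ) : Prop :=
  (∀ n, f n = 0) ∨ ∃ (D : ℕ) (c : ℤ), D ∣ Q ∧ 0 < D ∧
    ∀ n, f n = if (D : ℤ) ∣ n - c then 1 else 0

/-- `Rep Q f W`: `f` is a linear combination of indicator functions of residue classes modulo
divisors of `Q` with coefficients of total absolute value at most `W` -/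
inductive Rep (Q : ℕ) : (ℤ → ℝ) → ℝ → Prop
  | zero : Rep Q (fun _ => 0) 0
  | cls {f : ℤ → ℝ} : Cls Q f → Rep Q f 1
  | add {f g : ℤ → ℝ} {W V : ℝ} : Rep Q f W → Rep Q g V → Rep Q (fun n => f n + g n) (W + V)
  | smul (c : ℝ) {f : ℤ → ℝ} {W : ℝ} : Rep Q f W → Rep Q (fun n => c * f n) (|c| * W)
  | mono {f : ℤ → ℝ} {W V : ℝ} : Rep Q f W → W ≤ V → Rep Q f V

/-- `f` is `q`-periodic -/
def Per (q : ℕ) (f : ℤ → ℝ) : Prop := ∀ n : ℤ, f (n + q) = f n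

/-- the mean value over the period `Q` -/
noncomputable def mean (Q : ℕ) (f : ℤ → ℝ) : ℝ := (∑ y ∈ range Q, f (y : ℤ)) / Q

variable {ι κ : Type} [Fintype ι] [DecidableEq ι] [DecidableEq κ] [Fintype κ]

/-- the set of the `j` with a nonempty cell -/
def Tc (σ : ι → Option κ) : Finset κ := univ.filter (fun j => cell σ j ≠ ∅)

/-- `∏_{j ∈ Tc σ} ψ (n - a j)` -/
noncomputable def Ps (ψ : ℤ → ℝ) (a : κ → ℤ) (σ : ι → Option κ) (n : ℤ) : ℝ :=
  ∏ j ∈ Tc σ, ψ (n - a j)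

/-- `∑_σ Z σ * Ps σ n * EE σ n` -/
noncomputable def GZ (p : ι → ℕ) (a : κ → ℤ) (ψ : ℤ → ℝ) (Z : (ι → Option κ) → ℝ) (n : ℤ) : ℝ :=
  ∑ σ, Z σ * (Ps ψ a σ n * EE p a σ n)

/-- the diagonal sum, with the density `Pi r` of the event that `r` given shifts have no small
prime factor -/
noncomputable def ZZ (κ : Type) [DecidableEq κ] [Fintype κ] (p : ι → ℕ) (y : Finset ι → ℝ)
    (D : ℝ) (Pi : ℕ → ℝ) : ℝ :=
  ∑ σ : ι → Option κ, Yd p y D σ ^ 2 / PH p (supp σ) * Pi (Tc σ).card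

/-- The small sieve: `ψ` is nonnegative, of small `ℓ¹` weight `Wψ`, and all mixed moments of order
`≤ 3` of `≤ K` of its shifts by the `a j` are within a factor `2` of `Pi` -/
structure SS (Q1 : ℕ) (ψ : ℤ → ℝ) (Wψ : ℝ) (Pi : ℕ → ℝ) (V1 : ℝ) (K : ℕ) (a : κ → ℤ) : Prop where
  nonneg : ∀ n, 0 ≤ ψ n
  rep : Rep Q1 ψ Wψ
  one_le_W : 1 ≤ Wψ
  pi_zero : Pi 0 = 1
  pi_nonneg : ∀ r, 0 ≤ Pi r
  pi_step : ∀ r, Pi (r + 1) ≤ V1 * Pi r
  V1_nonneg : 0 ≤ V1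
  V1_le_one : V1 ≤ 1
  low : ∀ T : Finset κ, T.card ≤ K → Pi T.card ≤ mean Q1 (fun n => ∏ j ∈ T, ψ (n - a j) ^ 2)
  up : ∀ (T : Finset κ) (e : κ → ℕ), T.card ≤ K → (∀ j ∈ T, 1 ≤ e j ∧ e j ≤ 3) →
    mean Q1 (fun n => ∏ j ∈ T, ψ (n - a j) ^ e j) ≤ 2 * Pi T.card

end Pool.Agent.VOID
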