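import Pool.Agent.VOID.CoreV
import Pool.Agent.VOID.ClsM
import Pool.Agent.VOID.ClsSum
import Pool.Agent.Helper52.PrimeSums

/-! VOID/MainA.  Summation of the core theorem over the classes modulo the small primes, in the
interval `(x, x + y]`, `x ≤ y ^ N1`.

Compare `RS.mainC` (Pool/Agent/RS/MainC.lean), from which the treatment of the modulus can be
copied.  `ℓ = Nat.log 2 y + 1` (`2^(ℓ-1) ≤ y < 2^ℓ`), `L = (N1 + 1) ℓ` (so `x + y ≤ 2 y^(N1+1) ≤ 2^L`,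
`|a| ≤ 2^L`; check: `x + y ≤ y^N1 + y ≤ 2^L`), `lam = Nat.log 2 L`, `w = 2 ^ (lam / 2)` (`w ^ 2 ≤ L`,
`W ≤ w`), `M1 = ∏` of the primes `≤ w` not dividing `W` (`mcM`), `M = W * M1 ≤ 2 ^ (3 w)`, and
`mc_ratio : φ(M1)/M1 ≤ (W/φ(W)) * 1/((lam/2) log 2) ≤ 4 W / (lam log 2)`.

Take `coreV` with `Λ1 = 8 Λ W + 1` and `N0 := N`, `N1 := N1 + 1`.  `G` = the `b < M1` with
`#{a ∈ A : gcd(b - a, M1) = 1} ≤ 2 A.card φ(M1)/M1` (`cls_half`: `M1 ≤ 2 G.card`); this number times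
`lam` is at most `2 Λ (L log 2) * 4 W / log 2 = 8 Λ W L` (`log y ≤ ℓ log 2 ≤ L log 2`).
`P n` = for all `a ∈ A` there is a prime `q` with `q ^ N ≤ 2 ^ L` and `q ∣ n - a`.
For `b ∈ G`, `n0 ≡ b [MOD M1]` in `(x, x + M]`: `coreV` with `B = {a ∈ A : gcd(b - a, M1) = 1}`
handles `a ∈ B` (for `n = n0 + M t`, `0 ≤ n ≤ x + y ≤ 2^L`); if `a ∈ A \ B` there is a prime `q ∣ M1`,
`q ∣ b - a`, so `q ∣ n - a` and `q ≤ w`, `q ^ N ≤ L ^ N ≤ 2 ^ L`.
`T = y/M ≥ y/(2 M) ≥ 2^(L/(2 (N1+1)))` as `y ≥ 2^(ℓ-1)`, `L/(2 (N1+1)) = ℓ/2`, `M ≤ 2^(3w)`, `w ≤ √L`.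
`cls_sum` with `v = c1 T`: the count is `≥ G.card c1 T ≥ (M1/2) c1 y/(2 W M1) = c1 y/(4 W)`. -/

set_option autoImplicit false

open Finset

namespace Pool.Agent.VOID

/-- the product of the primes up to `w` which do not divide `W` -/
private def mainaM (W w : ℕ) : ℕ := ∏ q ∈ (range (w + 1)).filter (fun q => q.Prime ∧ ¬ q ∣ W), q

private theorem mainaM_pos (W w : ℕ) : 0 < mainaM W w :=
  prod_pos fun _ hq => ((mem_filter.mp hq).2.1).pos

private theorem mainaM_coprime (W w : ℕ) : Nat.Coprime W (mainaM W w) := by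
  apply Nat.Coprime.prod_right
  intro q hq
  rw [mem_filter] at hq
  exact ((hq.2.1.coprime_iff_not_dvd).mpr hq.2.2).symm

private theorem mainaM_dvd (W w : ℕ) : mainaM W w ∣ primorial w := by
  unfold mainaM primorial
  apply prod_dvd_prod_of_subset
  intro q hq
  rw [mem_filter] at hq ⊢
  exact ⟨hq.1, hq.2.1⟩

private theorem mainaM_le (W w : ℕ) : mainaM W w ≤ 4 ^ w :=
  (Nat.le_of_dvd (primorial_pos w) (mainaM_dvd W w)).trans (primorial_le_four_pow w)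

private theorem mainaM_prime {W w q : ℕ} (hq : q.Prime) (h : q ∣ mainaM W w) : q ≤ w :=
  (hq.dvd_primorial_iff).mp (h.trans (mainaM_dvd W w))

private theorem maina_ratio {W b : ℕ} (hW : 0 < W) (hb : 1 ≤ b) (hWw : W ≤ 2 ^ b) :
    (Nat.totient (mainaM W (2 ^ b)) : ℝ) / (mainaM W (2 ^ b) : ℝ) ≤
      ((W : ℝ) / Nat.totient W) * (1 / (b * Real.log 2)) := by
  set w := 2 ^ b with hw
  set P := mainaM W w with hP
  have hP0 : 0 < P := mainaM_pos W w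
  have h1 := Nat.totient_eq_mul_prod_factors (W * P)
  have h2 : (Nat.totient (W * P) : ℝ) =
      ((W * P : ℕ) : ℝ) * ∏ q ∈ (W * P).primeFactors, (1 - ((q : ℝ))⁻¹) := by
    have := congrArg (fun z : ℚ => (z : ℝ)) h1
    push_cast at this ⊢
    exact this
  have h3 : ∏ q ∈ (W * P).primeFactors, (1 - ((q : ℝ))⁻¹) =
      ∏ q ∈ Pool.Agent.Helper52.pr 0 w, (1 - 1 / (q : ℝ)) := by
    apply prod_congr
    · ext q
      rw [Pool.Agent.Helper52.mem_pr, Nat.mem_primeFactors]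
      constructor
      · rintro ⟨hq, hd, _⟩
        refine ⟨hq.pos, ?_, hq⟩
        rcases (hq.dvd_mul).mp hd with h | h
        · exact (Nat.le_of_dvd hW h).trans hWw
        · exact mainaM_prime hq h
      · rintro ⟨_, hle, hq⟩
        refine ⟨hq, ?_, (Nat.mul_pos hW hP0).ne'⟩
        by_cases h : q ∣ W
        · exact h.mul_right _
        · apply Dvd.dvd.mul_left
          exact dvd_prod_of_mem (fun q => q)
            (mem_filter.mpr ⟨mem_range.mpr (Nat.lt_succ_of_le hle), hq, h⟩)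
    · intro q _
      rw [one_div]
  have h4 := Pool.Agent.Helper52.prod_upper hb
  rw [h3, Nat.totient_mul (mainaM_coprime W w), ← hP] at h2
  push_cast at h2
  have hWr : (0 : ℝ) < W := by exact_mod_cast hW
  have hPr : (0 : ℝ) < P := by exact_mod_cast hP0
  have hφW : (0 : ℝ) < Nat.totient W := by exact_mod_cast Nat.totient_pos.mpr hW
  rw [← hw] at h4
  have h5 : (Nat.totient P : ℝ) / (P : ℝ) =
      ((W : ℝ) / Nat.totient W) * ∏ q ∈ Pool.Agent.Helper52.pr 0 w, (1 - 1 / (q : ℝ)) := by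
    rw [div_mul_eq_mul_div, div_eq_div_iff hPr.ne' hφW.ne']
    linarith
  rw [h5]
  exact mul_le_mul_of_nonneg_left h4 (by positivity)

/-- `L ^ k ≤ 2 ^ L` for large `L` -/
private theorem maina_pow (k : ℕ) : ∃ K : ℕ, ∀ L : ℕ, K ≤ L → L ^ k ≤ 2 ^ L := by
  have h := tendsto_pow_const_div_const_pow_of_one_lt k (by norm_num : (1 : ℝ) < 2)
  have h1 := (h.eventually (gt_mem_nhds (by norm_num : (0 : ℝ) < 1)))
  obtain ⟨K, hK⟩ := Filter.eventually_atTop.1 h1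
  refine ⟨K, fun L hL => ?_⟩
  have h2 := hK L hL
  rw [div_lt_one (by positivity)] at h2
  exact_mod_cast h2.le

/-- the number of survivors in a good class -/
private theorem maina_surv {Λ lx L lam A B ρ W φ : ℝ} (hΛ : 0 < Λ) (hL : 0 < L)
    (hlx : lx ≤ L * Real.log 2)
    (hA : A ≤ Λ * lx) (hlam : 4 ≤ lam) {b : ℝ} (hb : lam ≤ 4 * b) (hW : 0 ≤ W) (hφ : 1 ≤ φ)
    (hA0 : 0 ≤ A) (hρ : ρ ≤ (W / φ) * (1 / (b * Real.log 2))) (hB : B ≤ 2 * A * ρ) :
    B * lam ≤ (8 * Λ * W + 1) * L := by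
  have hl2 : 0 < Real.log 2 := Real.log_pos (by norm_num)
  have hb0 : 0 < b := by linarith
  have hφ0 : 0 < φ := by linarith
  have hWφ : W / φ ≤ W := div_le_self hW hφ
  have h1 : ρ ≤ W * (4 / (lam * Real.log 2)) := by
    refine hρ.trans ?_
    apply mul_le_mul hWφ _ (by positivity) hW
    rw [div_le_div_iff₀ (by positivity) (by positivity)]
    nlinarith
  have h2 : B ≤ 2 * (Λ * (L * Real.log 2)) * (W * (4 / (lam * Real.log 2))) := by
    refine hB.trans ?_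
    have h3 : A ≤ Λ * (L * Real.log 2) := hA.trans (mul_le_mul_of_nonneg_left hlx hΛ.le)
    calc 2 * A * ρ ≤ 2 * A * (W * (4 / (lam * Real.log 2))) :=
          mul_le_mul_of_nonneg_left h1 (by positivity)
      _ ≤ _ := by
          apply mul_le_mul_of_nonneg_right _ (by positivity)
          linarith
  have h4 : 2 * (Λ * (L * Real.log 2)) * (W * (4 / (lam * Real.log 2))) * lam =
      8 * Λ * W * L := by
    have : lam ≠ 0 := by linarith
    field_simp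
    ring
  have h5 : B * lam ≤ 8 * Λ * W * L := by
    rw [← h4]
    exact mul_le_mul_of_nonneg_right h2 (by linarith)
  linarith

open Classical in
/-- filters over the image of `range T` in `ℤ` -/
private theorem maina_cast (T : ℕ) (R : ℤ → Prop) (S : Finset ℤ)
    (hS : ∀ t ∈ S, ∃ s ∈ range T, (s : ℤ) = t) :
    (S.filter R).card ≤ ((range T).filter (fun t : ℕ => R (t : ℤ))).card := by
  have h : S.filter R ⊆ ((range T).filter (fun t : ℕ => R (t : ℤ))).image (fun t : ℕ => (t : ℤ)) := by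
    intro t ht
    rw [mem_filter] at ht
    obtain ⟨s, hs, rfl⟩ := hS t ht.1
    exact mem_image_of_mem _ (mem_filter.2 ⟨hs, ht.2⟩)
  exact (card_le_card h).trans card_image_le

open Classical in
/-- the core theorem (the filter is over natural numbers) -/
private theorem maina_core (Λ : ℝ) (hΛ : 0 < Λ) (N0 N1 : ℕ) (hN1 : 1 ≤ N1) :
    ∃ c : ℝ, 0 < c ∧ ∃ L0 : ℕ, ∀ L : ℕ, L0 ≤ L →
    ∀ (M : ℕ) (n0 : ℤ) (B : Finset ℤ) (T : ℕ), 0 < M →
    (∀ q : ℕ, q.Prime → L ^ 6 < q → Nat.Coprime M q) → (∀ b ∈ B, |b| ≤ 2 ^ L) →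
    (B.card : ℝ) * (Nat.log 2 L : ℝ) ≤ Λ * L →
    (∀ t < T, |n0 + M * (t : ℤ)| ≤ 2 ^ L) → 2 ^ (L / (2 * N1)) ≤ T →
    c * T ≤ (((range T).filter (fun t : ℕ => ∀ b ∈ B, ∃ q : ℕ, q.Prime ∧ L ^ 6 < q ∧
      q ^ N0 ≤ 2 ^ L ∧ (q : ℤ) ∣ n0 + M * (t : ℤ) - b)).card : ℝ) := by
  obtain ⟨c, hc, L0, h⟩ := coreV Λ hΛ N0 N1 hN1
  refine ⟨c, hc, L0, fun L hL M n0 B T hM hp hB hBc ht hT => ?_⟩
  have h1 := h L hL M n0 B T hM hp hB hBc ht hT
  obtain ⟨R, hR⟩ : ∃ R : ℤ → Prop, R = (fun t : ℤ => ∀ b ∈ B, ∃ q : ℕ, q.Prime ∧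
      L ^ 6 < q ∧ q ^ N0 ≤ 2 ^ L ∧ (q : ℤ) ∣ n0 + M * t - b) := ⟨_, rfl⟩
  have hR' : ∀ t : ℤ, (∀ b ∈ B, ∃ q : ℕ, q.Prime ∧
      L ^ 6 < q ∧ q ^ N0 ≤ 2 ^ L ∧ (q : ℤ) ∣ n0 + M * t - b) ↔ R t := fun t => by rw [hR]
  simp only [hR'] at h1 ⊢
  first
  | refine h1.trans (Nat.cast_le.2 (maina_cast T R _ ?_))
    intro t ht
    simp only [Finset.bind_def, Finset.pure_def, Finset.mem_sup, Finset.mem_singleton] at ht
    obtain ⟨s, hs, rfl⟩ := ht
    exact ⟨s, hs, rfl⟩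
  | exact h1

/-- `4 C ^ 2 < 2 ^ (lam + 1)` implies `C ≤ 2 ^ (lam / 2)` -/
private theorem maina_le_w {C lam : ℕ} (h : 4 * C ^ 2 < 2 ^ (lam + 1)) : C ≤ 2 ^ (lam / 2) := by
  set w : ℕ := 2 ^ (lam / 2) with hw
  have h2 : 2 ^ (lam + 1) ≤ 4 * (w * w) := by
    have h3 : 4 * (w * w) = 2 ^ (2 + lam / 2 + lam / 2) := by
      rw [hw, pow_add, pow_add]
      ring
    rw [h3]
    exact Nat.pow_le_pow_right (by norm_num) (by omega)
  have h1 : C * C < w * w := by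
    have h4 : 4 * C ^ 2 < 4 * (w * w) := by omega
    nlinarith
  nlinarith

open Classical in
theorem mainA (Λ : ℝ) (hΛ : 0 < Λ) (W N N1 : ℕ) (hW : 0 < W) (hN1 : 1 ≤ N1) :
    ∃ c : ℝ, 0 < c ∧ ∃ y0 : ℕ, ∀ y : ℕ, y0 ≤ y → ∀ (x r : ℕ) (A : Finset ℤ), x ≤ y ^ N1 →
    (∀ a ∈ A, |a| ≤ (y : ℤ) ^ N1) → (A.card : ℝ) ≤ Λ * Real.log y →
    c * y ≤ (((Ioc x (x + y)).filter (fun n => n ≡ r [MOD W] ∧ ∀ a ∈ A, ∃ q : ℕ, q.Prime ∧
      q ^ N ≤ 2 ^ ((N1 + 1) * (Nat.log 2 y + 1)) ∧ (q : ℤ) ∣ (n : ℤ) - a)).card : ℝ) := by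
  obtain ⟨c1, hc1, L0, hcore⟩ := maina_core (8 * Λ * W + 1) (by positivity) N (N1 + 1) (by omega)
  obtain ⟨K0, hK0⟩ := maina_pow N
  have hWr : (0 : ℝ) < W := by exact_mod_cast hW
  refine ⟨c1 / (4 * W), by positivity,
    2 ^ (L0 + 268435456 + 4 * W ^ 2 + K0 + 4 * (12 * (N1 + 1)) ^ 2), ?_⟩
  intro y hy x r A hxy hAx hA
  have hφW : (1 : ℝ) ≤ Nat.totient W := by exact_mod_cast Nat.totient_pos.mpr hW
  -- parameters
  set l : ℕ := Nat.log 2 y + 1 with hldef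
  have hy0 : y ≠ 0 := by
    have : 0 < 2 ^ (L0 + 268435456 + 4 * W ^ 2 + K0 + 4 * (12 * (N1 + 1)) ^ 2) := by positivity
    omega
  have hyl : y < 2 ^ l := Nat.lt_pow_succ_log_self (by norm_num) y
  have hly : 2 ^ (l - 1) ≤ y := by
    rw [hldef, Nat.add_sub_cancel]
    exact Nat.pow_log_le_self 2 hy0
  have hlbig : L0 + 268435456 + 4 * W ^ 2 + K0 + 4 * (12 * (N1 + 1)) ^ 2 ≤ l := by
    have h1 : Nat.log 2 (2 ^ (L0 + 268435456 + 4 * W ^ 2 + K0 + 4 * (12 * (N1 + 1)) ^ 2)) ≤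
        Nat.log 2 y := Nat.log_mono_right hy
    rw [Nat.log_pow (by norm_num)] at h1
    omega
  set L : ℕ := (N1 + 1) * l with hLdef
  have hlL : l ≤ L := Nat.le_mul_of_pos_left l (Nat.succ_pos N1)
  have hyN : (y : ℕ) ^ N1 ≤ 2 ^ (N1 * l) := by
    calc y ^ N1 ≤ (2 ^ l) ^ N1 := Nat.pow_le_pow_left hyl.le _
      _ = 2 ^ (N1 * l) := by rw [← pow_mul, mul_comm]
  have hyN2 : 2 * y ^ N1 ≤ 2 ^ L := by
    calc 2 * y ^ N1 ≤ 2 * 2 ^ (N1 * l) := Nat.mul_le_mul_left _ hyN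
      _ = 2 ^ (N1 * l + 1) := (pow_succ' 2 _).symm
      _ ≤ 2 ^ L := Nat.pow_le_pow_right (by norm_num) (by
          rw [hLdef, add_mul, one_mul]
          omega)
  have hxyL : x + y ≤ 2 ^ L := by
    have h1 : y ≤ y ^ N1 := Nat.le_self_pow (by omega) y
    omega
  set lam : ℕ := Nat.log 2 L with hlam
  have hL0' : L ≠ 0 := by omega
  have hlamL : 2 ^ lam ≤ L := Nat.pow_log_le_self 2 hL0'
  have hLlam : L < 2 ^ (lam + 1) := Nat.lt_pow_succ_log_self (by norm_num) L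
  have hlam28 : 28 ≤ lam := by
    have h1 : Nat.log 2 (2 ^ 28) ≤ Nat.log 2 L := Nat.log_mono_right (by norm_num; omega)
    rw [Nat.log_pow (by norm_num)] at h1
    exact h1
  have hWw : W ≤ 2 ^ (lam / 2) := maina_le_w (by omega)
  have hNw : 12 * (N1 + 1) ≤ 2 ^ (lam / 2) := maina_le_w (by omega)
  set w : ℕ := 2 ^ (lam / 2) with hw
  have hww : w * w ≤ L := by
    refine le_trans ?_ hlamL
    rw [hw, ← pow_add]
    exact Nat.pow_le_pow_right (by norm_num) (by omega)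
  have hw16 : 2 ^ 14 ≤ w := Nat.pow_le_pow_right (by norm_num) (by omega)
  have hw12 : 12 * w ≤ l := by
    have h1 : (N1 + 1) * (12 * w) ≤ (N1 + 1) * l := by
      calc (N1 + 1) * (12 * w) = 12 * (N1 + 1) * w := by ring
        _ ≤ w * w := Nat.mul_le_mul_right _ hNw
        _ ≤ (N1 + 1) * l := hww
    exact Nat.le_of_mul_le_mul_left h1 (Nat.succ_pos N1)
  have hwL : w ≤ L := by omega
  -- the modulus
  set M1 : ℕ := mainaM W w with hM1
  have hM10 : 0 < M1 := mainaM_pos W w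
  have hM0 : 0 < W * M1 := Nat.mul_pos hW hM10
  have hMle : W * M1 ≤ 2 ^ (3 * w) := by
    have h1 : W ≤ 2 ^ w := hWw.trans Nat.lt_two_pow_self.le
    calc W * M1 ≤ 2 ^ w * 4 ^ w := Nat.mul_le_mul h1 (mainaM_le W w)
      _ = 2 ^ (3 * w) := by
        rw [show (4 : ℕ) = 2 ^ 2 by norm_num, ← pow_mul, ← pow_add]
        congr 1
        ring
  have hMprime : ∀ q : ℕ, q.Prime → L ^ 6 < q → Nat.Coprime (W * M1) q := by
    intro q hq hqL
    rw [Nat.coprime_comm, hq.coprime_iff_not_dvd]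
    intro hqM
    have h1 : q ≤ w := by
      rcases (hq.dvd_mul).mp hqM with h | h
      · exact (Nat.le_of_dvd hW h).trans hWw
      · exact mainaM_prime hq h
    have h2 : L ≤ L ^ 6 := Nat.le_self_pow (by norm_num) L
    omega
  -- the logarithm
  have hl2 : 0 < Real.log 2 := Real.log_pos (by norm_num)
  have hy0r : (0 : ℝ) < y := by
    have : 0 < y := Nat.pos_of_ne_zero hy0
    exact_mod_cast this
  have hlogL : Real.log y ≤ L * Real.log 2 := by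
    have h1 : Real.log y ≤ l * Real.log 2 := by
      rw [← Real.log_pow]
      apply Real.log_le_log hy0r
      exact_mod_cast hyl.le
    refine h1.trans (mul_le_mul_of_nonneg_right ?_ hl2.le)
    exact_mod_cast hlL
  -- the number of steps
  set T : ℕ := y / (W * M1) with hT
  have hMT : W * M1 * T ≤ y := Nat.mul_div_le _ _
  have hTbig : 2 ^ (L / (2 * (N1 + 1))) ≤ T := by
    have h0 : L / (2 * (N1 + 1)) = l / 2 := by
      rw [hLdef, mul_comm 2 (N1 + 1)]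
      exact Nat.mul_div_mul_left _ _ (Nat.succ_pos N1)
    rw [h0, hT, Nat.le_div_iff_mul_le hM0]
    have h1 : 2 ^ (l / 2) * (W * M1) ≤ 2 ^ (l / 2) * 2 ^ (3 * w) := Nat.mul_le_mul_left _ hMle
    have h2 : 2 ^ (l / 2) * 2 ^ (3 * w) ≤ 2 ^ (l - 1) := by
      rw [← pow_add]
      exact Nat.pow_le_pow_right (by norm_num) (by omega)
    omega
  -- the good classes
  set G : Finset ℕ := (range M1).filter (fun b : ℕ =>
      ((A.filter (fun a => IsCoprime ((b : ℤ) - a) (M1 : ℤ))).card : ℝ) ≤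
        2 * (A.card : ℝ) * ((Nat.totient M1 : ℝ) / M1)) with hG
  have hGhalf : M1 ≤ 2 * G.card := cls_half_nat hM10 A
  have hratio := maina_ratio (W := W) (b := lam / 2) hW (by omega) hWw
  obtain ⟨P, hP⟩ : ∃ P : ℕ → Prop, ∀ n : ℕ, P n ↔ ∀ a ∈ A, ∃ q : ℕ, q.Prime ∧
      q ^ N ≤ 2 ^ L ∧ (q : ℤ) ∣ (n : ℤ) - a := ⟨_, fun _ => Iff.rfl⟩
  have hkey : ∀ b ∈ G, ∀ n0 : ℕ, x < n0 → n0 ≤ x + W * M1 → n0 ≡ r [MOD W] →
      n0 ≡ b [MOD M1] →
      c1 * T ≤ (((range (y / (W * M1))).filter (fun t : ℕ => P (n0 + W * M1 * t))).card : ℝ) := by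
    intro b hb n0 hn1 hn2 hn3 hn4
    have hb' := (mem_filter.1 hb).2
    have hsurv : ((A.filter (fun a => IsCoprime ((b : ℤ) - a) (M1 : ℤ))).card : ℝ) *
        (Nat.log 2 L : ℝ) ≤ (8 * Λ * W + 1) * L := by
      refine maina_surv (Λ := Λ) (lx := Real.log y) (b := ((lam / 2 : ℕ) : ℝ)) hΛ
        (by exact_mod_cast Nat.pos_of_ne_zero hL0') hlogL hA ?_ ?_ hWr.le hφW
        (Nat.cast_nonneg _) hratio hb'
      · have : 4 ≤ lam := by omega
        exact_mod_cast this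
      · have : lam ≤ 4 * (lam / 2) := by omega
        exact_mod_cast this
    have h1 := hcore L (by omega) (W * M1) (n0 : ℤ)
      (A.filter (fun a => IsCoprime ((b : ℤ) - a) (M1 : ℤ))) T hM0 hMprime
      (fun a ha => ?_) hsurv (fun t ht => ?_) hTbig
    · refine h1.trans ?_
      have h2 : ((range T).filter (fun t : ℕ => ∀ a ∈ A.filter (fun a =>
          IsCoprime ((b : ℤ) - a) (M1 : ℤ)), ∃ q : ℕ, q.Prime ∧ L ^ 6 < q ∧
          q ^ N ≤ 2 ^ L ∧ (q : ℤ) ∣ (n0 : ℤ) + ((W * M1 : ℕ) : ℤ) * (t : ℤ) - a)) ⊆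
          ((range (y / (W * M1))).filter (fun t : ℕ => P (n0 + W * M1 * t))) := by
        intro t ht
        rw [mem_filter] at ht ⊢
        refine ⟨ht.1, (hP _).2 ?_⟩
        intro a ha
        by_cases hco : IsCoprime ((b : ℤ) - a) (M1 : ℤ)
        · obtain ⟨q, hq, -, hq2, hq3⟩ := ht.2 a (mem_filter.2 ⟨ha, hco⟩)
          refine ⟨q, hq, hq2, ?_⟩
          push_cast at hq3 ⊢
          exact hq3
        · rw [Int.isCoprime_iff_gcd_eq_one, Int.gcd_eq_natAbs, Int.natAbs_natCast] at hco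
          obtain ⟨q, hq, hq1, hq2⟩ := Nat.Prime.not_coprime_iff_dvd.1 hco
          have hqw : q ≤ w := mainaM_prime hq hq2
          refine ⟨q, hq, ?_, ?_⟩
          · exact (Nat.pow_le_pow_left (hqw.trans hwL) _).trans (hK0 L (by omega))
          · have e1 : (q : ℤ) ∣ (b : ℤ) - a := Int.natCast_dvd.2 hq1
            have e2 : (q : ℤ) ∣ (M1 : ℤ) := Int.natCast_dvd_natCast.2 hq2
            have e3 : (M1 : ℤ) ∣ (b : ℤ) - n0 := Nat.modEq_iff_dvd.1 hn4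
            have e4 : (((n0 + W * M1 * t : ℕ) : ℤ)) - a =
                ((b : ℤ) - a) - ((b : ℤ) - n0) + (M1 : ℤ) * (W * t) := by
              push_cast
              ring
            rw [e4]
            exact dvd_add (dvd_sub e1 (e2.trans e3)) (e2.mul_right _)
      exact_mod_cast card_le_card h2
    · have h2 := hAx a (mem_filter.1 ha).1
      have h3 : ((y : ℤ)) ^ N1 ≤ 2 ^ L := by
        have h4 : y ^ N1 ≤ 2 ^ L := by omega
        exact_mod_cast h4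
      exact h2.trans h3
    · have h2 : n0 + W * M1 * t ≤ x + y := by
        have h3 : W * M1 * (t + 1) ≤ W * M1 * T := Nat.mul_le_mul_left _ ht
        rw [mul_add, mul_one] at h3
        omega
      have h5 : (n0 : ℤ) + ((W * M1 : ℕ) : ℤ) * (t : ℤ) = ((n0 + W * M1 * t : ℕ) : ℤ) := by
        push_cast
        ring
      rw [h5, abs_of_nonneg (Int.natCast_nonneg _)]
      exact_mod_cast h2.trans hxyL
  have hsum := cls_sum hW hM10 (mainaM_coprime W w) x y r G (filter_subset _ _) P hkey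
  have hsub : (Ioc x (x + y)).filter (fun n => n ≡ r [MOD W] ∧ P n) ⊆
      (Ioc x (x + y)).filter (fun n => n ≡ r [MOD W] ∧ ∀ a ∈ A, ∃ q : ℕ, q.Prime ∧
      q ^ N ≤ 2 ^ L ∧ (q : ℤ) ∣ (n : ℤ) - a) := by
    intro n hn
    rw [mem_filter] at hn ⊢
    exact ⟨hn.1, hn.2.1, (hP n).1 hn.2.2⟩
  have hcard : (((Ioc x (x + y)).filter (fun n => n ≡ r [MOD W] ∧ P n)).card : ℝ) ≤
      (((Ioc x (x + y)).filter (fun n => n ≡ r [MOD W] ∧ ∀ a ∈ A, ∃ q : ℕ, q.Prime ∧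
      q ^ N ≤ 2 ^ L ∧ (q : ℤ) ∣ (n : ℤ) - a)).card : ℝ) := by
    exact_mod_cast card_le_card hsub
  refine le_trans ?_ (hsum.trans hcard)
  -- final computation
  have hM1r : (0 : ℝ) < M1 := by exact_mod_cast hM10
  have hMr : (0 : ℝ) < (W : ℝ) * M1 := mul_pos hWr hM1r
  have hT1 : (y : ℝ) ≤ (W : ℝ) * M1 * (T + 1) := by
    have h1 : y ≤ W * M1 * (T + 1) := by
      have h2 := Nat.div_add_mod y (W * M1)
      have h3 := Nat.mod_lt y hM0
      rw [← hT] at h2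
      rw [mul_add, mul_one]
      omega
    exact_mod_cast h1
  have hT0 : (1 : ℝ) ≤ T := by
    have : 1 ≤ T := le_trans Nat.one_le_two_pow hTbig
    exact_mod_cast this
  have hT2 : (y : ℝ) ≤ 2 * ((W : ℝ) * M1) * T := by nlinarith
  have hG2 : (M1 : ℝ) / 2 ≤ G.card := by
    have : (M1 : ℝ) ≤ 2 * G.card := by exact_mod_cast hGhalf
    linarith
  calc c1 / (4 * W) * y ≤ c1 / (4 * W) * (2 * ((W : ℝ) * M1) * T) :=
        mul_le_mul_of_nonneg_left hT2 (by positivity)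
    _ = (M1 : ℝ) / 2 * (c1 * T) := by
        field_simp
        ring
    _ ≤ (G.card : ℝ) * (c1 * T) := mul_le_mul_of_nonneg_right hG2 (by positivity)

end Pool.Agent.VOID
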