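import Pool.Agent.VOID.MainA

/-! VOID/MainB.  The main theorem.

From `mainA` with `N := N' = (N1 + 1) * (2 N + 4)` (constant `c1`), `ℓ = Nat.log 2 y + 1`
(`y < 2^ℓ ≤ 2 y`): `q ^ ((N1+1) (2N+4)) ≤ 2^((N1+1) ℓ)` gives `q ^ (2N+4) ≤ 2^ℓ ≤ 2 y`, so
`(q ^ N)^2 * 16 ≤ q ^ (2N+4) ≤ 2 y` and `q ^ N ≤ y`, and `q ^ 4 ≤ 2 y`.  Let `Y = q`-bound:
`q ≤ Y := Nat.sqrt (2 y)` (from `q^2 ≤ q^4 ≤ 2 y`).  Remove the `n` with `|n - a| ≤ Y` for
some `a ∈ A`: at most `A.card (2 Y + 1) ≤ c1 y / 2` for `y ≥ y0` (`A.card ≤ Λ log y`). -/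

set_option autoImplicit false

open Finset

namespace Pool.Agent.VOID

private theorem mainb_ev (c Λ : ℝ) (hc : 0 < c) (hΛ : 0 < Λ) : ∃ x0 : ℕ, ∀ x : ℕ, x0 ≤ x →
    Λ * Real.log x * (6 * Real.sqrt x) ≤ c / 2 * x := by
  have h1 := (isLittleO_log_rpow_atTop (r := 1 / 2) (by norm_num)).bound
    (c := c / (12 * Λ)) (by positivity)
  have h2 := tendsto_natCast_atTop_atTop.eventually h1
  obtain ⟨x0, hx0⟩ := Filter.eventually_atTop.1 h2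
  refine ⟨x0, fun x hx => ?_⟩
  have h3 := hx0 x hx
  have hx0' : (0 : ℝ) ≤ x := Nat.cast_nonneg x
  rw [Real.norm_of_nonneg (Real.log_natCast_nonneg x),
    Real.norm_of_nonneg (Real.rpow_nonneg hx0' _), ← Real.sqrt_eq_rpow] at h3
  have h4 : Real.sqrt x * Real.sqrt x = x := Real.mul_self_sqrt hx0'
  have h5 : 0 ≤ Real.sqrt x := Real.sqrt_nonneg _
  calc Λ * Real.log x * (6 * Real.sqrt x) ≤
        Λ * (c / (12 * Λ) * Real.sqrt x) * (6 * Real.sqrt x) := by gcongr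
    _ = c / 2 * (Real.sqrt x * Real.sqrt x) := by
        field_simp
        ring
    _ = c / 2 * x := by rw [h4]

open Classical in
private theorem mainb_rem (S : Finset ℕ) (A : Finset ℤ) (D : ℕ) :
    (S.filter fun n : ℕ => ∃ a ∈ A, |(n : ℤ) - a| ≤ (D : ℤ)).card ≤ A.card * (2 * D + 1) := by
  have h1 : (S.filter fun n : ℕ => ∃ a ∈ A, |(n : ℤ) - a| ≤ (D : ℤ)).card ≤
      (A.biUnion fun a => Icc (a - D) (a + D)).card := by
    refine card_le_card_of_injOn (fun n : ℕ => (n : ℤ)) ?_ ?_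
    · intro n hn
      obtain ⟨_, a, ha, hna⟩ := mem_filter.1 (mem_coe.1 hn)
      rw [abs_le] at hna
      refine mem_coe.2 (mem_biUnion.2 ⟨a, ha, mem_Icc.2 ⟨?_, ?_⟩⟩)
      · show a - (D : ℤ) ≤ (n : ℤ)
        linarith [hna.1]
      · show (n : ℤ) ≤ a + D
        linarith [hna.2]
    · intro a _ b _ h
      exact Nat.cast_injective (R := ℤ) h
  refine h1.trans (card_biUnion_le.trans ?_)
  refine (sum_le_card_nsmul A _ (2 * D + 1) fun a _ => ?_).trans (le_of_eq (by simp))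
  rw [Int.card_Icc]
  omega

open Classical in
theorem mainV (Λ : ℝ) (hΛ : 0 < Λ) (W N N1 : ℕ) (hW : 0 < W) (hN1 : 1 ≤ N1) :
    ∃ c : ℝ, 0 < c ∧ ∃ y0 : ℕ, ∀ y : ℕ, y0 ≤ y → ∀ (x r : ℕ) (A : Finset ℤ), x ≤ y ^ N1 →
    (∀ a ∈ A, |a| ≤ (y : ℤ) ^ N1) → (A.card : ℝ) ≤ Λ * Real.log y →
    c * y ≤ (((Ioc x (x + y)).filter (fun n => n ≡ r [MOD W] ∧ ∀ a ∈ A, ∃ q : ℕ, q.Prime ∧
      q ^ N ≤ y ∧ (q : ℤ) ∣ (n : ℤ) - a ∧ (q : ℤ) < |(n : ℤ) - a|)).card : ℝ) := by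
  obtain ⟨c1, hc1, x1, h1⟩ := mainA Λ hΛ W ((N1 + 1) * (2 * N + 4)) N1 hW hN1
  obtain ⟨x2, h2⟩ := mainb_ev c1 Λ hc1 hΛ
  refine ⟨c1 / 2, half_pos hc1, max (max x1 x2) 1, fun y hy x r A hx hA hAc => ?_⟩
  have hx1 : x1 ≤ y := le_trans (le_trans (le_max_left _ _) (le_max_left _ _)) hy
  have hx2 : x2 ≤ y := le_trans (le_trans (le_max_right _ _) (le_max_left _ _)) hy
  have hxp : 1 ≤ y := le_trans (le_max_right _ _) hy
  have h3 := h1 y hx1 x r A hx hA hAc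
  have h4 := h2 y hx2
  set L := Nat.log 2 y + 1 with hL
  set D := Nat.sqrt (2 * y) with hD
  have hLx : 2 ^ L ≤ 2 * y := by
    have := Nat.pow_log_le_self 2 (x := y) (by omega)
    rw [hL, pow_succ]
    omega
  have hD2 : D ^ 2 ≤ 4 * y := by
    have h5 : D ^ 2 ≤ 2 * y := Nat.sqrt_le' _
    omega
  have hDp : 1 ≤ D := Nat.sqrt_pos.2 (by omega)
  set S1 := ((Ioc x (x + y)).filter (fun n => n ≡ r [MOD W] ∧ ∀ a ∈ A, ∃ q : ℕ, q.Prime ∧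
      q ^ ((N1 + 1) * (2 * N + 4)) ≤ 2 ^ ((N1 + 1) * L) ∧ (q : ℤ) ∣ (n : ℤ) - a)) with hS1
  set S2 := ((Ioc x (x + y)).filter (fun n => n ≡ r [MOD W] ∧ ∀ a ∈ A, ∃ q : ℕ, q.Prime ∧
      q ^ N ≤ y ∧ (q : ℤ) ∣ (n : ℤ) - a ∧ (q : ℤ) < |(n : ℤ) - a|)) with hS2
  set R := ((Ioc x (x + y)).filter fun n : ℕ => ∃ a ∈ A, |(n : ℤ) - a| ≤ (D : ℤ)) with hR
  have hsub : S1 ⊆ S2 ∪ R := by
    intro n hn
    rw [hS1, mem_filter] at hn
    obtain ⟨hn1, hn2, hn3⟩ := hn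
    rw [mem_union]
    by_cases hnR : ∃ a ∈ A, |(n : ℤ) - a| ≤ (D : ℤ)
    · right
      exact mem_filter.2 ⟨hn1, hnR⟩
    · left
      push Not at hnR
      refine mem_filter.2 ⟨hn1, hn2, fun a ha => ?_⟩
      obtain ⟨q, hq, hq1, hq2⟩ := hn3 a ha
      have hq3 : 2 ≤ q := hq.two_le
      rw [mul_comm (N1 + 1) (2 * N + 4), mul_comm (N1 + 1) L, pow_mul, pow_mul] at hq1
      have hq9 : q ^ (2 * N + 4) ≤ 2 ^ L :=
        (Nat.pow_le_pow_iff_left (Nat.succ_ne_zero N1)).1 hq1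
      have hq4 : q ^ (2 * N + 4) = q ^ N * q ^ N * q ^ 4 := by
        rw [two_mul, pow_add, pow_add]
      have hq5 : 1 ≤ q ^ N := Nat.one_le_pow _ _ hq.pos
      have hq6 : 16 ≤ q ^ 4 := by
        calc 16 = 2 ^ 4 := by norm_num
          _ ≤ q ^ 4 := Nat.pow_le_pow_left hq3 4
      have hq10 : q ^ 2 ≤ q ^ 4 := Nat.pow_le_pow_right hq.pos (by norm_num)
      have hq11 : q ^ N * 1 ≤ q ^ N * q ^ N := Nat.mul_le_mul_left _ hq5
      have hq7 : q ^ 4 ≤ q ^ N * q ^ N * q ^ 4 := Nat.le_mul_of_pos_left _ (by omega)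
      have hq8 : q ^ N * q ^ N * 16 ≤ q ^ N * q ^ N * q ^ 4 := Nat.mul_le_mul_left _ hq6
      have hqD : q ≤ D := by
        rw [hD, Nat.le_sqrt']
        omega
      refine ⟨q, hq, by omega, hq2, ?_⟩
      have h7 := hnR a ha
      have h8 : (q : ℤ) ≤ D := by exact_mod_cast hqD
      omega
  have hcard : S1.card ≤ S2.card + R.card := (card_le_card hsub).trans (card_union_le _ _)
  have hRc : R.card ≤ A.card * (2 * D + 1) := mainb_rem _ A D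
  have hDr : (D : ℝ) ≤ 2 * Real.sqrt y := by
    have h5 : ((D : ℝ)) ^ 2 ≤ 4 * y := by exact_mod_cast hD2
    have h6 : (D : ℝ) ≤ Real.sqrt (4 * y) := Real.le_sqrt_of_sq_le h5
    have h7 : Real.sqrt (4 * y) = 2 * Real.sqrt y := by
      rw [Real.sqrt_mul (by norm_num)]
      congr 1
      rw [show (4 : ℝ) = 2 ^ 2 by norm_num]
      exact Real.sqrt_sq (by norm_num)
    rwa [h7] at h6
  have hRr : (R.card : ℝ) ≤ c1 / 2 * y := by
    refine le_trans ?_ h4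
    have h5 : (R.card : ℝ) ≤ A.card * (2 * D + 1) := by exact_mod_cast hRc
    have hD1r : (1 : ℝ) ≤ D := by exact_mod_cast hDp
    have hl : 0 ≤ Λ * Real.log y := mul_nonneg hΛ.le (Real.log_natCast_nonneg y)
    refine h5.trans ?_
    exact mul_le_mul hAc (by linarith) (by positivity) hl
  have hcr : (S1.card : ℝ) ≤ S2.card + R.card := by exact_mod_cast hcard
  linarith

end Pool.Agent.VOID
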