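import Pool.Agent.VOID.Defs

/-! VOID/Mean.  The mean over a period is linear, positive and multiplicative for coprime periods. -/

set_option autoImplicit false

open Finset Pool.Agent.RS

namespace Pool.Agent.VOID

variable {Q Q1 Q2 : ℕ} {F G : ℤ → ℝ}

private theorem mean_per_nat (h : Per Q F) (n : ℤ) (k : ℕ) : F (n + (Q * k : ℕ)) = F n := by
  induction k with
  | zero => simp
  | succ k ih =>
    have h1 : n + ((Q * (k + 1) : ℕ) : ℤ) = n + ((Q * k : ℕ) : ℤ) + (Q : ℤ) := by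
      push_cast
      ring
    rw [h1, h, ih]

private theorem mean_per_mod (h : Per Q F) (t : ℕ) : F (t : ℤ) = F ((t % Q : ℕ) : ℤ) := by
  have h1 := mean_per_nat h ((t % Q : ℕ) : ℤ) (t / Q)
  rw [← h1]
  congr 1
  have h2 := Nat.mod_add_div t Q
  exact_mod_cast h2.symm

private theorem mean_sum_shift (h : Per Q F) (c : ℤ) :
    ∑ y ∈ range Q, F ((y : ℤ) + c) = ∑ y ∈ range Q, F (y : ℤ) := by
  have h1 : ∀ c : ℤ, ∑ y ∈ range Q, F ((y : ℤ) + (c + 1)) = ∑ y ∈ range Q, F ((y : ℤ) + c) := by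
    intro c
    have h2 := Finset.sum_range_succ (fun y : ℕ => F ((y : ℤ) + c)) Q
    have h3 := Finset.sum_range_succ' (fun y : ℕ => F ((y : ℤ) + c)) Q
    have h4 : F ((Q : ℤ) + c) = F (((0 : ℕ) : ℤ) + c) := by
      have h5 := h c
      rw [Nat.cast_zero, zero_add, ← h5, add_comm]
    have h6 : ∀ y : ℕ, F ((y : ℤ) + (c + 1)) = F (((y + 1 : ℕ) : ℤ) + c) := by
      intro y
      congr 1
      push_cast
      ring
    rw [Finset.sum_congr rfl fun y _ => h6 y]
    rw [h2] at h3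
    rw [h4] at h3
    linarith
  induction c using Int.induction_on with
  | zero => simp
  | succ i ih => rw [h1, ih]
  | pred i ih =>
    have h2 := h1 (-(i : ℤ) - 1)
    rw [sub_add_cancel, ih] at h2
    exact h2.symm

theorem Per.mul_right (h : Per Q1 F) (k : ℕ) : Per (Q1 * k) F := by
  intro n
  exact mean_per_nat h n k

theorem mean_add : mean Q (fun n => F n + G n) = mean Q F + mean Q G := by
  unfold mean
  rw [sum_add_distrib, add_div]

theorem mean_const_mul (c : ℝ) : mean Q (fun n => c * F n) = c * mean Q F := by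
  unfold mean
  rw [← mul_sum, mul_div_assoc]

theorem mean_sum {α : Type} (s : Finset α) (f : α → ℤ → ℝ) :
    mean Q (fun n => ∑ i ∈ s, f i n) = ∑ i ∈ s, mean Q (f i) := by
  unfold mean
  rw [sum_comm, sum_div]

theorem mean_mono (h : ∀ n, F n ≤ G n) : mean Q F ≤ mean Q G := by
  unfold mean
  exact div_le_div_of_nonneg_right (sum_le_sum fun y _ => h y) (Nat.cast_nonneg Q)

theorem mean_nonneg (h : ∀ n, 0 ≤ F n) : 0 ≤ mean Q F := by
  unfold mean
  exact div_nonneg (sum_nonneg fun y _ => h y) (Nat.cast_nonneg Q)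

theorem mean_const (hQ : 0 < Q) (c : ℝ) : mean Q (fun _ => c) = c := by
  unfold mean
  have h : (Q : ℝ) ≠ 0 := by positivity
  rw [sum_const, card_range, nsmul_eq_mul, mul_div_cancel_left₀ _ h]

theorem mean_period (hQ1 : 0 < Q1) (hQ2 : 0 < Q2) (hF : Per Q1 F) :
    mean (Q1 * Q2) F = mean Q1 F := by
  have h1 : ∀ k : ℕ, ∑ y ∈ range (Q1 * k), F (y : ℤ) = k * ∑ y ∈ range Q1, F (y : ℤ) := by
    intro k
    induction k with
    | zero => simp
    | succ k ih =>
      rw [mul_add, mul_one, sum_range_add, ih]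
      have h2 : ∀ y ∈ range Q1, F ((Q1 * k + y : ℕ) : ℤ) = F (y : ℤ) := by
        intro y _
        have h3 := mean_per_nat hF (y : ℤ) k
        rw [← h3]
        congr 1
        push_cast
        ring
      rw [sum_congr rfl h2]
      push_cast
      ring
  unfold mean
  have h2 : (Q1 : ℝ) ≠ 0 := by positivity
  have h3 : (Q2 : ℝ) ≠ 0 := by positivity
  rw [h1]
  push_cast
  field_simp

theorem mean_shift (hQ : 0 < Q) (hF : Per Q F) (c : ℤ) : mean Q (fun n => F (n - c)) = mean Q F := by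
  unfold mean
  have h1 := mean_sum_shift hF (-c)
  simp only [← sub_eq_add_neg] at h1
  rw [h1]

theorem mean_mul (hQ1 : 0 < Q1) (hQ2 : 0 < Q2) (hc : Nat.Coprime Q1 Q2) (hF : Per Q1 F)
    (hG : Per Q2 G) : mean (Q1 * Q2) (fun n => F n * G n) = mean Q1 F * mean Q2 G := by
  have h1 : ∑ t ∈ range (Q1 * Q2), F (t : ℤ) * G (t : ℤ) =
      ∑ x ∈ range Q1 ×ˢ range Q2, F (x.1 : ℤ) * G (x.2 : ℤ) := by
    refine Finset.sum_nbij' (fun t => (t % Q1, t % Q2))
      (fun x => (Nat.chineseRemainder hc x.1 x.2 : ℕ)) ?_ ?_ ?_ ?_ ?_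
    · intro t _
      rw [mem_product]
      exact ⟨mem_range.2 (Nat.mod_lt _ hQ1), mem_range.2 (Nat.mod_lt _ hQ2)⟩
    · intro x _
      exact mem_range.2 (Nat.chineseRemainder_lt_mul hc x.1 x.2 hQ1.ne' hQ2.ne')
    · intro t ht
      have h2 : t ≡ t % Q1 [MOD Q1] := (Nat.mod_modEq t Q1).symm
      have h3 : t ≡ t % Q2 [MOD Q2] := (Nat.mod_modEq t Q2).symm
      have h4 := Nat.chineseRemainder_modEq_unique hc h2 h3
      have h5 := Nat.chineseRemainder_lt_mul hc (t % Q1) (t % Q2) hQ1.ne' hQ2.ne'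
      exact (Nat.ModEq.eq_of_lt_of_lt h4 (mem_range.1 ht) h5).symm
    · intro x hx
      rw [mem_product] at hx
      have h2 := (Nat.chineseRemainder hc x.1 x.2).2
      refine Prod.ext ?_ ?_
      · have h3 : (Nat.chineseRemainder hc x.1 x.2 : ℕ) % Q1 = x.1 % Q1 := h2.1
        rw [Nat.mod_eq_of_lt (mem_range.1 hx.1)] at h3
        exact h3
      · have h3 : (Nat.chineseRemainder hc x.1 x.2 : ℕ) % Q2 = x.2 % Q2 := h2.2
        rw [Nat.mod_eq_of_lt (mem_range.1 hx.2)] at h3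
        exact h3
    · intro t _
      show F (t : ℤ) * G (t : ℤ) = F ((t % Q1 : ℕ) : ℤ) * G ((t % Q2 : ℕ) : ℤ)
      rw [← mean_per_mod hF, ← mean_per_mod hG]
  unfold mean
  rw [h1, sum_product]
  show (∑ x ∈ range Q1, ∑ y ∈ range Q2, F (x : ℤ) * G (y : ℤ)) / ((Q1 * Q2 : ℕ) : ℝ) = _
  rw [← sum_mul_sum]
  push_cast
  rw [div_mul_div_comm]

theorem mean_prod {α : Type} [DecidableEq α] (S : Finset α) (p : α → ℕ) (hp : ∀ i ∈ S, 0 < p i)
    (hc : ∀ i ∈ S, ∀ j ∈ S, i ≠ j → Nat.Coprime (p i) (p j)) (hQ1 : 0 < Q1)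
    (hcQ : ∀ i ∈ S, Nat.Coprime Q1 (p i)) (hF : Per Q1 F) (f : α → ℤ → ℝ)
    (hf : ∀ i ∈ S, Per (p i) (f i)) :
    mean (Q1 * ∏ i ∈ S, p i) (fun n => F n * ∏ i ∈ S, f i n) =
      mean Q1 F * ∏ i ∈ S, mean (p i) (f i) := by
  induction S using Finset.induction_on with
  | empty => simp
  | insert i S hi ih =>
    have hp' : ∀ j ∈ S, 0 < p j := fun j hj => hp j (mem_insert_of_mem hj)
    have h1 := ih hp'
      (fun j hj k hk => hc j (mem_insert_of_mem hj) k (mem_insert_of_mem hk))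
      (fun j hj => hcQ j (mem_insert_of_mem hj)) (fun j hj => hf j (mem_insert_of_mem hj))
    have hpos : 0 < Q1 * ∏ j ∈ S, p j := Nat.mul_pos hQ1 (prod_pos hp')
    have hcop : Nat.Coprime (Q1 * ∏ j ∈ S, p j) (p i) := by
      refine Nat.Coprime.mul_left (hcQ i (mem_insert_self i S)) ?_
      refine Nat.Coprime.prod_left fun j hj => ?_
      exact hc j (mem_insert_of_mem hj) i (mem_insert_self i S) (fun h => hi (h ▸ hj))
    have hper : Per (Q1 * ∏ j ∈ S, p j) (fun n => F n * ∏ j ∈ S, f j n) := by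
      intro n
      have h2 : F (n + ((Q1 * ∏ j ∈ S, p j : ℕ) : ℤ)) = F n := mean_per_nat hF n _
      have h3 : ∀ j ∈ S, f j (n + ((Q1 * ∏ j ∈ S, p j : ℕ) : ℤ)) = f j n := by
        intro j hj
        obtain ⟨k, hk⟩ : p j ∣ Q1 * ∏ j ∈ S, p j := Dvd.dvd.mul_left (dvd_prod_of_mem p hj) Q1
        rw [hk]
        exact mean_per_nat (hf j (mem_insert_of_mem hj)) n k
      show F (n + ((Q1 * ∏ j ∈ S, p j : ℕ) : ℤ)) *
        ∏ j ∈ S, f j (n + ((Q1 * ∏ j ∈ S, p j : ℕ) : ℤ)) = F n * ∏ j ∈ S, f j n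
      rw [h2, prod_congr rfl h3]
    have h2 := mean_mul hpos (hp i (mem_insert_self i S)) hcop hper (hf i (mem_insert_self i S))
    rw [h1] at h2
    have h3 : Q1 * ∏ j ∈ insert i S, p j = (Q1 * ∏ j ∈ S, p j) * p i := by
      rw [prod_insert hi]
      ring
    have h4 : (fun n => F n * ∏ j ∈ insert i S, f j n) =
        fun n => (F n * ∏ j ∈ S, f j n) * f i n := by
      funext n
      rw [prod_insert hi]
      ring
    rw [h3, h4, h2, prod_insert hi]
    ring

end Pool.Agent.VOID
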