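import Pool.Agent.VOID.MomA

/-! VOID/MomB.  The weight does not see too many survivors of the small sieve.

For each `j` apply `quad` with `F0 n = ψ (n - a j)`, `Z = Yd p y D`, `U = 2` (`SS.mix1`), and `off`.
Diagonal terms: `SS.sq_in` if `j ∈ Tc σ`, `SS.sq_out` otherwise.  Sum over `j`:
`∑_σ Z σ ^ 2 / PH * (2 (Tc σ).card + 2 k V1) * Pi (Tc σ).card ≤ (2 N + 2 k V1) ZZ`. -/

set_option autoImplicit false

open Finset Pool.Agent.RS

namespace Pool.Agent.VOID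

variable {ι κ : Type} [Fintype ι] [DecidableEq ι] [DecidableEq κ] [Fintype κ]

omit [DecidableEq ι] [DecidableEq κ] [Fintype κ] in
private theorem momb_PH {p : ι → ℕ} (hp : ∀ i, 2 ≤ p i) (U : Finset ι) : 0 ≤ PH p U := by
  unfold PH
  refine Finset.prod_nonneg fun i _ => ?_
  have h1 : (2 : ℝ) ≤ (p i : ℝ) := by exact_mod_cast hp i
  linarith

private theorem momb_one {p : ι → ℕ} {Q1 : ℕ} {a : κ → ℤ} {z : ℝ} (h : Hy p Q1 a z) {ψ : ℤ → ℝ}
    {Wψ : ℝ} {Pi : ℕ → ℝ} {V1 : ℝ} {N : ℕ} (hs : SS Q1 ψ Wψ Pi V1 (2 * N + 2) a) {D : ℝ}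
    (hN : ∀ S : Finset ι, PP p S ≤ D → S.card ≤ N) {y : Finset ι → ℝ} (hy1 : ∀ S, |y S| ≤ 1)
    (j : κ) :
    mean (Q1 * ∏ i, p i) (fun n => ψ (n - a j) * GZ p a ψ (Yd p y D) n ^ 2) ≤
      (∑ σ : ι → Option κ, Yd p y D σ ^ 2 / PH p (supp σ) * Pi (Tc σ).card *
        (2 * (if j ∈ Tc σ then 1 else V1))) + 2 * offB κ p N z := by
  have hcard : ∀ σ : ι → Option κ, Yd p y D σ ≠ 0 → (supp σ).card ≤ N := fun σ hσ =>
    hN _ (Yd_supp hσ)
  have hTc : ∀ σ : ι → Option κ, Yd p y D σ ≠ 0 → (Tc σ).card ≤ N := fun σ hσ =>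
    (card_Tc_le σ).trans (hcard σ hσ)
  have hper : Per Q1 (fun n => ψ (n - a j)) := by
    intro n
    have h1 := hs.per (n - a j)
    have h2 : n + (Q1 : ℤ) - a j = n - a j + (Q1 : ℤ) := by ring
    show ψ (n + (Q1 : ℤ) - a j) = ψ (n - a j)
    rw [h2]
    exact h1
  have hq := quad h.two h.cop h.Q1pos h.copQ h.sep hs.per hper (Yd p y D)
    (U := 2) (by norm_num) (fun σ σ' hσ hσ' =>
      hs.mix1 (N := N) (by omega) j σ σ' (hTc σ hσ) (hTc σ' hσ'))
  have hoff := off h.two h.zpos h.zle (Yd p y D) (Yd_abs hy1 D) hcard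
  have h1 := (abs_le.1 hq).2
  have h2 : ∑ σ : ι → Option κ, Yd p y D σ ^ 2 / PH p (supp σ) *
      mean Q1 (fun n => ψ (n - a j) * Ps ψ a σ n ^ 2) ≤
      ∑ σ : ι → Option κ, Yd p y D σ ^ 2 / PH p (supp σ) * Pi (Tc σ).card *
        (2 * (if j ∈ Tc σ then 1 else V1)) := by
    refine Finset.sum_le_sum fun σ _ => ?_
    by_cases h0 : Yd p y D σ = 0
    · rw [h0]
      simp
    · have hw : 0 ≤ Yd p y D σ ^ 2 / PH p (supp σ) :=
        div_nonneg (sq_nonneg _) (momb_PH h.two _)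
      have hc := hTc σ h0
      rw [mul_assoc]
      refine mul_le_mul_of_nonneg_left ?_ hw
      by_cases hj : j ∈ Tc σ
      · rw [if_pos hj]
        have h3 := hs.sq_in σ (by omega) j hj
        linarith
      · rw [if_neg hj]
        have h3 := hs.sq_out σ (by omega) j hj
        linarith
  linarith

theorem mom1sum {p : ι → ℕ} {Q1 : ℕ} {a : κ → ℤ} {z : ℝ} (h : Hy p Q1 a z) {ψ : ℤ → ℝ} {Wψ : ℝ}
    {Pi : ℕ → ℝ} {V1 : ℝ} {N : ℕ} (hs : SS Q1 ψ Wψ Pi V1 (2 * N + 2) a) {D : ℝ}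
    (hN : ∀ S : Finset ι, PP p S ≤ D → S.card ≤ N) {y : Finset ι → ℝ} (hy1 : ∀ S, |y S| ≤ 1) :
    ∑ j, mean (Q1 * ∏ i, p i) (fun n => ψ (n - a j) * GZ p a ψ (Yd p y D) n ^ 2) ≤
      (2 * (Fintype.card κ : ℝ) * V1 + 2 * N) * ZZ κ p y D Pi +
        2 * (Fintype.card κ : ℝ) * offB κ p N z := by
  refine (Finset.sum_le_sum fun j _ => momb_one h hs hN hy1 j).trans ?_
  rw [Finset.sum_add_distrib, Finset.sum_const, nsmul_eq_mul, Finset.card_univ, Finset.sum_comm]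
  have h1 : ∑ σ : ι → Option κ, ∑ j : κ, Yd p y D σ ^ 2 / PH p (supp σ) * Pi (Tc σ).card *
      (2 * (if j ∈ Tc σ then 1 else V1)) ≤
      (2 * (Fintype.card κ : ℝ) * V1 + 2 * N) * ZZ κ p y D Pi := by
    unfold ZZ
    rw [Finset.mul_sum]
    refine Finset.sum_le_sum fun σ _ => ?_
    rw [← Finset.mul_sum, ← Finset.mul_sum]
    by_cases h0 : Yd p y D σ = 0
    · rw [h0]
      simp
    · have hw : 0 ≤ Yd p y D σ ^ 2 / PH p (supp σ) * Pi (Tc σ).card :=
        mul_nonneg (div_nonneg (sq_nonneg _) (momb_PH h.two _)) (hs.pi_nonneg _)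
      have hc : (Tc σ).card ≤ N := (card_Tc_le σ).trans (hN _ (Yd_supp h0))
      have h2 : ∑ j : κ, (if j ∈ Tc σ then (1 : ℝ) else V1) ≤ N + Fintype.card κ * V1 := by
        have h3 : ∀ j : κ, (if j ∈ Tc σ then (1 : ℝ) else V1) ≤
            (if j ∈ Tc σ then (1 : ℝ) else 0) + V1 := by
          intro j
          have := hs.V1_nonneg
          split_ifs <;> linarith
        refine (Finset.sum_le_sum fun j _ => h3 j).trans ?_
        rw [Finset.sum_add_distrib, Finset.sum_const, nsmul_eq_mul, Finset.card_univ,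
          Finset.sum_ite_mem, Finset.univ_inter, Finset.sum_const, nsmul_eq_mul, mul_one]
        have h4 : ((Tc σ).card : ℝ) ≤ N := by exact_mod_cast hc
        linarith
      calc Yd p y D σ ^ 2 / PH p (supp σ) * Pi (Tc σ).card *
            (2 * ∑ j : κ, (if j ∈ Tc σ then (1 : ℝ) else V1))
          ≤ Yd p y D σ ^ 2 / PH p (supp σ) * Pi (Tc σ).card *
            (2 * (N + Fintype.card κ * V1)) :=
            mul_le_mul_of_nonneg_left (by linarith) hw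
        _ = (2 * (Fintype.card κ : ℝ) * V1 + 2 * N) *
            (Yd p y D σ ^ 2 / PH p (supp σ) * Pi (Tc σ).card) := by ring
  have h2 : (Fintype.card κ : ℝ) * (2 * offB κ p N z) =
      2 * (Fintype.card κ : ℝ) * offB κ p N z := by ring
  linarith

end Pool.Agent.VOID
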