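import Pool.Agent.VOID.RepA

/-! VOID/RepMul.  Products.

`Cls.mul`: if `D, D'` are positive divisors of `Q`, the set of `n` with `D ∣ n - c` and `D' ∣ n - c'`
is empty or, if `n₁` is one of its elements, equal to the class of `n₁` modulo `lcm D D'`
(`Int.natAbs`/`Nat.lcm_dvd`, `lcm D D' ∣ Q`, `Int.coe_lcm_dvd`-type lemmas).
`Rep.mul`: induction on the first derivation, and for `cls` induction on the second one; use that
functions are equal pointwise (`funext`) where needed, and `Rep.mono` for the numerical weights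
(`mul_le_mul`, `Rep.nonneg`).
`Rep.prod`: induction on `s`; `Rep.pow`: `prod` over `range e`. -/

set_option autoImplicit false

open Finset Pool.Agent.RS

namespace Pool.Agent.VOID

variable {Q : ℕ} {f g : ℤ → ℝ} {W V : ℝ}

private theorem repmul_lcm {D D' : ℕ} {m : ℤ} :
    ((Nat.lcm D D' : ℕ) : ℤ) ∣ m ↔ (D : ℤ) ∣ m ∧ (D' : ℤ) ∣ m := by
  rw [Int.natCast_dvd, Int.natCast_dvd, Int.natCast_dvd, Nat.lcm_dvd_iff]

theorem Cls.mul (hf : Cls Q f) (hg : Cls Q g) : Cls Q (fun n => f n * g n) := by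
  rcases hf with hf | ⟨D, c, hD, hD0, hf⟩
  · exact Or.inl fun n => by show f n * g n = 0; rw [hf, zero_mul]
  rcases hg with hg | ⟨D', c', hD', hD0', hg⟩
  · exact Or.inl fun n => by show f n * g n = 0; rw [hg, mul_zero]
  by_cases hn : ∃ m : ℤ, (D : ℤ) ∣ m - c ∧ (D' : ℤ) ∣ m - c'
  · obtain ⟨m, h1, h2⟩ := hn
    refine Or.inr ⟨Nat.lcm D D', m, Nat.lcm_dvd hD hD', Nat.lcm_pos hD0 hD0', fun n => ?_⟩
    show f n * g n = _
    rw [hf, hg, if_congr repmul_lcm rfl rfl]
    have e1 : (D : ℤ) ∣ n - c ↔ (D : ℤ) ∣ n - m := by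
      have : n - c = (n - m) + (m - c) := by ring
      rw [this]
      exact dvd_add_left h1
    have e2 : (D' : ℤ) ∣ n - c' ↔ (D' : ℤ) ∣ n - m := by
      have : n - c' = (n - m) + (m - c') := by ring
      rw [this]
      exact dvd_add_left h2
    rw [if_congr e1 rfl rfl, if_congr e2 rfl rfl]
    by_cases h3 : (D : ℤ) ∣ n - m <;> by_cases h4 : (D' : ℤ) ∣ n - m <;> simp [h3, h4]
  · refine Or.inl fun n => ?_
    show f n * g n = 0
    rw [hf, hg]
    by_cases h3 : (D : ℤ) ∣ n - c
    · by_cases h4 : (D' : ℤ) ∣ n - c'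
      · exact absurd ⟨n, h3, h4⟩ hn
      · rw [if_neg h4, mul_zero]
    · rw [if_neg h3, zero_mul]

private theorem repmul_cls (hf : Cls Q f) (hg : Rep Q g V) : Rep Q (fun n => f n * g n) V := by
  induction hg with
  | zero =>
    have e : (fun n => f n * (0 : ℝ)) = fun _ => (0 : ℝ) := by funext n; rw [mul_zero]
    rw [e]
    exact Rep.zero
  | cls hc => exact Rep.cls (Cls.mul hf hc)
  | @add g1 g2 W1 W2 _ _ h1 h2 =>
    have e : (fun n => f n * (g1 n + g2 n)) = fun n => f n * g1 n + f n * g2 n := by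
      funext n; rw [mul_add]
    rw [e]
    exact Rep.add h1 h2
  | @smul c g1 W1 _ h1 =>
    have e : (fun n => f n * (c * g1 n)) = fun n => c * (f n * g1 n) := by
      funext n; ring
    rw [e]
    exact Rep.smul c h1
  | mono _ hWV h1 => exact Rep.mono h1 hWV

theorem Rep.mul (hf : Rep Q f W) (hg : Rep Q g V) : Rep Q (fun n => f n * g n) (W * V) := by
  have hV := hg.nonneg
  induction hf with
  | zero =>
    have e : (fun n => (0 : ℝ) * g n) = fun _ => (0 : ℝ) := by funext n; rw [zero_mul]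
    rw [e, zero_mul]
    exact Rep.zero
  | cls hc =>
    rw [one_mul]
    exact repmul_cls hc hg
  | @add f1 f2 W1 W2 _ _ h1 h2 =>
    have e : (fun n => (f1 n + f2 n) * g n) = fun n => f1 n * g n + f2 n * g n := by
      funext n; rw [add_mul]
    rw [e, add_mul]
    exact Rep.add h1 h2
  | @smul c f1 W1 _ h1 =>
    have e : (fun n => c * f1 n * g n) = fun n => c * (f1 n * g n) := by
      funext n; ring
    rw [e, mul_assoc]
    exact Rep.smul c h1
  | mono _ hWV h1 => exact Rep.mono h1 (mul_le_mul_of_nonneg_right hWV hV)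

theorem Rep.prod {α : Type} (s : Finset α) (F : α → ℤ → ℝ) (w : α → ℝ)
    (h : ∀ i ∈ s, Rep Q (F i) (w i)) : Rep Q (fun n => ∏ i ∈ s, F i n) (∏ i ∈ s, w i) := by
  classical
  induction s using Finset.induction_on with
  | empty =>
    simp only [Finset.prod_empty]
    exact Rep.one
  | insert i s hi ih =>
    simp only [Finset.prod_insert hi]
    exact Rep.mul (h i (Finset.mem_insert_self i s))
      (ih fun j hj => h j (Finset.mem_insert_of_mem hj))

theorem Rep.pow (hf : Rep Q f W) (e : ℕ) : Rep Q (fun n => f n ^ e) (W ^ e) := by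
  have h := Rep.prod (Q := Q) (Finset.range e) (fun _ => f) (fun _ => W) (fun _ _ => hf)
  simpa only [Finset.prod_const, Finset.card_range] using h

end Pool.Agent.VOID
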